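import Pool.Agent.Work.MP_807b32_lc.Sem.Base

/-!
A Kraft inequality for codes that first record a set of touched coordinates.

Plan for `kraft_record`. The record of `σ` is `rec σ : ι → Option Bool`,
`rec σ i = if tch σ i then some (σ i) else none`. Group the sum by records
(`Finset.sum_fiberwise_of_maps_to` into `univ`). In the group of a record `ϱ` pick `σ₀`; every `σ`
of the group has `q σ = q σ₀` by `hq`, so its term is `∏ i, u i (σ i)` where
`u i b = if ϱ i = some b then η i / 2 else if ϱ i = none then (1 - η i) * q σ₀ i b else 0`.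
The group sum is at most `∑ σ : ι → Bool, ∏ i, u i (σ i) = ∏ i, ∑ b, u i b`
(`Finset.prod_univ_sum`, `Fintype.piFinset_univ`), at most `∏ i, v i (ϱ i)` with
`v i (some _) = η i / 2`, `v i none = 1 - η i`; and `∑ ϱ, ∏ i, v i (ϱ i) = ∏ i, 1 = 1`.

Plan for `site_bound`. With `ζ = Z.card / card A`, the left side is
`ζ * η + (1 - ζ) * ((1 - η) * h)`, `h ∈ {1, 2}`; weighted arithmetic-geometric mean (or concavity
of `log`, or convexity of `exp`) gives the lower bound
`exp (ζ * log η + (1 - ζ) * (log (1 - η) + log h))`, and `log (1 - η) ≤ 0`, `log h ≤ log 2`.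
-/

namespace Pool.Agent.Work.MP_807b32_lc.Sem

open Finset

theorem kraft_record {ι : Type} [Fintype ι] [DecidableEq ι] (Sg : Finset (ι → Bool))
    (η : ι → ℝ) (hη0 : ∀ i, 0 ≤ η i) (hη1 : ∀ i, η i ≤ 1)
    (tch : (ι → Bool) → ι → Bool) (q : (ι → Bool) → ι → Bool → ℝ)
    (hq0 : ∀ σ i b, 0 ≤ q σ i b) (hq1 : ∀ σ i, q σ i true + q σ i false ≤ 1)
    (hq : ∀ σ ∈ Sg, ∀ σ' ∈ Sg, tch σ = tch σ' → (∀ i, tch σ i = true → σ i = σ' i) →
      q σ = q σ') :
    ∑ σ ∈ Sg, ∏ i, (if tch σ i = true then η i / 2 else (1 - η i) * q σ i (σ i)) ≤ 1 := by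
  classical
  obtain ⟨rc, hrc⟩ : ∃ rc : (ι → Bool) → ι → Option Bool,
      ∀ σ i, rc σ i = if tch σ i = true then some (σ i) else none := ⟨_, fun _ _ => rfl⟩
  obtain ⟨v, hv1, hv0⟩ : ∃ v : ι → Option Bool → ℝ,
      (∀ i b, v i (some b) = η i / 2) ∧ ∀ i, v i none = 1 - η i :=
    ⟨fun i o => o.elim (1 - η i) (fun _ => η i / 2), fun _ _ => rfl, fun _ => rfl⟩
  have hvnn : ∀ i o, 0 ≤ v i o := by
    intro i o
    cases o with
    | none => rw [hv0]; linarith [hη1 i]
    | some b => rw [hv1]; linarith [hη0 i]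
  rw [← Finset.sum_fiberwise_of_maps_to (s := Sg) (t := (univ : Finset (ι → Option Bool)))
    (g := rc) (fun _ _ => mem_univ _)]
  have hv : ∑ ϱ : ι → Option Bool, ∏ i, v i (ϱ i) = 1 := by
    rw [← Fintype.piFinset_univ, ← Finset.prod_univ_sum]
    apply Finset.prod_eq_one
    intro i _
    rw [Fintype.sum_option, Fintype.sum_bool, hv1, hv1, hv0]
    ring
  refine le_trans ?_ hv.le
  apply Finset.sum_le_sum
  intro ϱ _
  by_cases hne : (Sg.filter (fun σ => rc σ = ϱ)).Nonempty
  · obtain ⟨σ₀, hσ₀⟩ := hne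
    obtain ⟨hσ₀S, hσ₀r⟩ := Finset.mem_filter.1 hσ₀
    obtain ⟨u, hu⟩ : ∃ u : ι → Bool → ℝ, ∀ i b, u i b =
        if ϱ i = some b then η i / 2 else if ϱ i = none then (1 - η i) * q σ₀ i b else 0 :=
      ⟨_, fun _ _ => rfl⟩
    have hunn : ∀ i b, 0 ≤ u i b := by
      intro i b
      rw [hu]
      split_ifs
      · linarith [hη0 i]
      · exact mul_nonneg (by linarith [hη1 i]) (hq0 _ _ _)
      · exact le_rfl
    have hterm : ∀ σ ∈ Sg.filter (fun σ => rc σ = ϱ),
        ∏ i, (if tch σ i = true then η i / 2 else (1 - η i) * q σ i (σ i)) = ∏ i, u i (σ i) := by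
      intro σ hσ
      obtain ⟨hσS, hσr⟩ := Finset.mem_filter.1 hσ
      have hcoord : ∀ i, rc σ i = rc σ₀ i := fun i => by rw [hσr, hσ₀r]
      have hqq : q σ = q σ₀ := by
        apply hq σ hσS σ₀ hσ₀S
        · funext i
          have h := hcoord i
          rw [hrc, hrc] at h
          cases h1 : tch σ i <;> cases h2 : tch σ₀ i <;> simp [h1, h2] at h ⊢
        · intro i hi
          have h := hcoord i
          rw [hrc, hrc] at h
          cases h2 : tch σ₀ i <;> simp [hi, h2] at h
          exact h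
      apply Finset.prod_congr rfl
      intro i _
      rw [hu, ← hσr, hrc, hqq]
      cases h1 : tch σ i <;> simp
    rw [Finset.sum_congr rfl hterm]
    calc ∑ σ ∈ Sg.filter (fun σ => rc σ = ϱ), ∏ i, u i (σ i)
        ≤ ∑ σ : ι → Bool, ∏ i, u i (σ i) :=
          Finset.sum_le_sum_of_subset_of_nonneg (subset_univ _)
            (fun σ _ _ => Finset.prod_nonneg (fun i _ => hunn i _))
      _ = ∏ i, ∑ b, u i b := by
          rw [← Fintype.piFinset_univ, ← Finset.prod_univ_sum]
      _ ≤ ∏ i, v i (ϱ i) := by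
          apply Finset.prod_le_prod
          · intro i _
            exact Finset.sum_nonneg (fun b _ => hunn i b)
          · intro i _
            rw [Fintype.sum_bool, hu, hu]
            cases h : ϱ i with
            | none =>
              rw [hv0]
              simp only [reduceCtorEq, if_false, if_true]
              have h1 := hq1 σ₀ i
              have h2 : 0 ≤ 1 - η i := by linarith [hη1 i]
              nlinarith
            | some b =>
              rw [hv1]
              cases b <;> simp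
  · rw [Finset.not_nonempty_iff_eq_empty.1 hne, Finset.sum_empty]
    exact Finset.prod_nonneg (fun i _ => hvnn i _)

theorem site_bound {A : Type} [Fintype A] [DecidableEq A] [Nonempty A] (Z : Finset A) (η : ℝ)
    (hη0 : 0 < η) (hη1 : η < 1) (P : Prop) [Decidable P] (ζ : ℝ)
    (hζ : (Z.card : ℝ) ≤ ζ * Fintype.card A) :
    (Fintype.card A : ℝ) *
        Real.exp ((if P then Real.log 2 else 0) + Real.log (1 - η) - ζ * Real.log (2 / η)) ≤
      ∑ s : A, (if s ∈ Z then η else (1 - η) * (if P then 2 else 1)) := by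
  classical
  have hN : (0 : ℝ) < Fintype.card A := by exact_mod_cast Fintype.card_pos
  obtain ⟨h, hh, hlogh, hh0, hh2⟩ : ∃ h : ℝ, (if P then (2 : ℝ) else 1) = h ∧
      (if P then Real.log 2 else 0) = Real.log h ∧ 0 < h ∧ h ≤ 2 := by
    by_cases hP : P
    · exact ⟨2, by simp [hP], by simp [hP], by norm_num, le_rfl⟩
    · exact ⟨1, by simp [hP], by simp [hP], by norm_num, by norm_num⟩
  rw [hh, hlogh]
  have hZ : Z.card ≤ Fintype.card A := Finset.card_le_univ Z
  have hZr : (Z.card : ℝ) ≤ Fintype.card A := by exact_mod_cast hZ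
  have hsum : ∑ s : A, (if s ∈ Z then η else (1 - η) * h) =
      Z.card * η + ((Fintype.card A : ℝ) - Z.card) * ((1 - η) * h) := by
    rw [Finset.sum_ite, Finset.sum_const, Finset.sum_const, nsmul_eq_mul, nsmul_eq_mul]
    have h1 : (univ.filter (fun s => s ∈ Z)) = Z := by ext s; simp
    have h2 : (univ.filter (fun s => ¬ s ∈ Z)) = Zᶜ := by ext s; simp
    rw [h1, h2, Finset.card_compl, Nat.cast_sub hZ]
  rw [hsum]
  obtain ⟨z, hz⟩ : ∃ z : ℝ, z = (Z.card : ℝ) / Fintype.card A := ⟨_, rfl⟩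
  have hzN : (Z.card : ℝ) = z * Fintype.card A := by rw [hz]; field_simp
  have hz0 : 0 ≤ z := by rw [hz]; exact div_nonneg (Nat.cast_nonneg _) hN.le
  have hz1 : z ≤ 1 := by rw [hz]; exact (div_le_one hN).2 hZr
  have hzζ : z ≤ ζ := by rw [hz]; exact (div_le_iff₀ hN).2 hζ
  have h1η : 0 < 1 - η := by linarith
  have hpos : 0 < (1 - η) * h := mul_pos h1η hh0
  have hconv := (convexOn_exp).2 (Set.mem_univ (Real.log η))
    (Set.mem_univ (Real.log ((1 - η) * h))) hz0 (by linarith : 0 ≤ 1 - z) (by ring)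
  simp only [smul_eq_mul] at hconv
  rw [Real.exp_log hη0, Real.exp_log hpos, Real.log_mul h1η.ne' hh0.ne'] at hconv
  have hl1 : Real.log (1 - η) ≤ 0 := Real.log_nonpos h1η.le (by linarith)
  have hl2 : Real.log h ≤ Real.log 2 := Real.log_le_log hh0 hh2
  have hl3 : Real.log (2 / η) = Real.log 2 - Real.log η := Real.log_div (by norm_num) hη0.ne'
  have hl4 : 0 ≤ Real.log (2 / η) :=
    Real.log_nonneg ((one_le_div hη0).2 (by linarith))
  have hexp : Real.log h + Real.log (1 - η) - ζ * Real.log (2 / η) ≤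
      z * Real.log η + (1 - z) * (Real.log (1 - η) + Real.log h) := by
    have e1 : z * Real.log (2 / η) ≤ ζ * Real.log (2 / η) := mul_le_mul_of_nonneg_right hzζ hl4
    have e2 : z * Real.log h ≤ z * Real.log 2 := mul_le_mul_of_nonneg_left hl2 hz0
    have e3 : z * Real.log (1 - η) ≤ 0 := mul_nonpos_of_nonneg_of_nonpos hz0 hl1
    rw [hl3] at e1 ⊢
    nlinarith
  calc (Fintype.card A : ℝ) * Real.exp (Real.log h + Real.log (1 - η) - ζ * Real.log (2 / η))
      ≤ (Fintype.card A : ℝ) * (z * η + (1 - z) * ((1 - η) * h)) :=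
        mul_le_mul_of_nonneg_left ((Real.exp_le_exp.2 hexp).trans hconv) hN.le
    _ = Z.card * η + ((Fintype.card A : ℝ) - Z.card) * ((1 - η) * h) := by
        rw [hzN]; ring

end Pool.Agent.Work.MP_807b32_lc.Sem
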