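import Pool.Agent.Work.MP_807b32_lc.Sem.Base

/-!
The Babai-Nisan-Szegedy bound for cylinder intersections, by four van der Corput steps.

Plan. `G = ι → ZMod p`, `ψ` a nontrivial (primitive) additive character `ZMod p → ℂ`
(`ZMod.stdAddChar`, `ZMod.isPrimitive_stdAddChar`, `AddChar.sum_mulShift`,
`AddChar.sum_eq_zero_of_ne_one` or `AddChar.sum_eq_ite`).
* `vdc`: for every `h`, `∑ z, F z * f z = ∑ z, F z * f (z + m h)` (shift `z`, invariance of `F`);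
  sum over `h`, so `card G * ‖∑ z, F z * f z‖ ≤ ∑ z, ‖∑ h, f (z + m h)‖`; Cauchy-Schwarz in `z`;
  expand `‖∑ h, f (z + m h)‖ ^ 2 = ∑ h, ∑ h', f (z + m h) * conj (f (z + m h'))`, substitute
  `z ↦ z - m h'`, `h ↦ h + h'`.
* `bns`: take the data of `Cyl`, let `f t` be the complex indicator of `F t`, and
  `P' z = P (U.piecewise z e)`, `φ z = ψ (P' z - v)`. On the cylinder intersection `φ = 1`, so
  `∑ z, f₁ z * (f₂ z * f₃ z * f₄ z * φ z) = cnt`. With `Dm h g z = g (z + h) * conj (g z)`, which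
  is multiplicative in `g` and preserves the bound `‖g‖ ≤ 1` and the invariance under shifts,
  apply `vdc` four times (masks of `S₁, ..., S₄`), with Cauchy-Schwarz
  `(∑ h, u h) ^ 2 ≤ card G * ∑ h, u h ^ 2` and `re ≤ norm` between the steps. Since `S t ⊆ U`,
  `U.piecewise (z + mask (S t) h) e = U.piecewise z e + mask (S t) h`, so the fourth derivative of
  `φ` is `ψ (Λ (mask S₁ h₁) (mask S₂ h₂) (mask S₃ h₃) (mask S₄ h₄))` by `hΛ`, whose sum over `h₄` is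
  `card G` or `0` according as the additive map `h₄ ↦ Λ _ _ _ (mask S₄ h₄)` vanishes or not.
  With `g = card G` and `n = cnt`: `n ^ 16 ≤ g ^ 13 * (number of triples)`, and `μ * g ≤ n`.
-/

namespace Pool.Agent.Work.MP_807b32_lc.Sem

open Finset

/-- The vector `h` cut down to the coordinates in `S`. -/
def mask {ι R : Type} [DecidableEq ι] [Zero R] (S : Finset ι) (h : ι → R) : ι → R :=
  fun i => if i ∈ S then h i else 0

/-- Additive difference operator. -/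
def dif {G R : Type} [Add G] [Sub R] (h : G) (P : G → R) : G → R := fun z => P (z + h) - P z

theorem vdc {G : Type} [AddCommGroup G] [Fintype G] (m : G →+ G) (F f : G → ℂ)
    (hF : ∀ z, ‖F z‖ ≤ 1) (hinv : ∀ z h, F (z + m h) = F z) :
    ‖∑ z, F z * f z‖ ^ 2 ≤ ∑ h, (∑ z, f (z + m h) * (starRingEnd ℂ) (f z)).re := by
  have hg : (0 : ℝ) < Fintype.card G := by exact_mod_cast Fintype.card_pos
  have h1 : ∀ h, ∑ z, F z * f z = ∑ z, F z * f (z + m h) := by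
    intro h
    rw [← Equiv.sum_comp (Equiv.addRight (m h)) (fun z => F z * f z)]
    simp [hinv]
  have h2 : (Fintype.card G : ℂ) * ∑ z, F z * f z = ∑ z, F z * ∑ h, f (z + m h) := by
    simp_rw [Finset.mul_sum]
    rw [Finset.sum_comm (f := fun z h => F z * f (z + m h))]
    simp_rw [← h1]
    simp [Finset.mul_sum]
  have h3 : (Fintype.card G : ℝ) * ‖∑ z, F z * f z‖ ≤ ∑ z, ‖∑ h, f (z + m h)‖ := by
    have : (Fintype.card G : ℝ) * ‖∑ z, F z * f z‖ =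
        ‖(Fintype.card G : ℂ) * ∑ z, F z * f z‖ := by
      rw [norm_mul]; simp
    rw [this, h2]
    refine (norm_sum_le _ _).trans (Finset.sum_le_sum fun z _ => ?_)
    rw [norm_mul]
    exact mul_le_of_le_one_left (norm_nonneg _) (hF z)
  have h4 : ∀ z, ‖∑ h, f (z + m h)‖ ^ 2 =
      (∑ h', ∑ h, f (z + m h) * (starRingEnd ℂ) (f (z + m h'))).re := by
    intro z
    have : ∑ h', ∑ h, f (z + m h) * (starRingEnd ℂ) (f (z + m h')) =
        (∑ h, f (z + m h)) * (starRingEnd ℂ) (∑ h, f (z + m h)) := by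
      rw [map_sum, Finset.sum_mul_sum, Finset.sum_comm]
    rw [this, Complex.mul_conj, Complex.ofReal_re, Complex.normSq_eq_norm_sq]
  have h5 : ∀ h', ∑ z, ∑ h, f (z + m h) * (starRingEnd ℂ) (f (z + m h')) =
      ∑ h, ∑ z, f (z + m h) * (starRingEnd ℂ) (f z) := by
    intro h'
    rw [Finset.sum_comm]
    rw [← Equiv.sum_comp (Equiv.addRight h')]
    refine Finset.sum_congr rfl fun h _ => ?_
    rw [← Equiv.sum_comp (Equiv.addRight (m h')) (fun z => f (z + m h) * (starRingEnd ℂ) (f z))]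
    refine Finset.sum_congr rfl fun z _ => ?_
    simp only [Equiv.coe_addRight, map_add]
    congr 2
    abel
  have h6 : ∑ z, ‖∑ h, f (z + m h)‖ ^ 2 =
      Fintype.card G * ∑ h, (∑ z, f (z + m h) * (starRingEnd ℂ) (f z)).re := by
    simp_rw [h4]
    rw [← Complex.re_sum, Finset.sum_comm]
    simp_rw [h5]
    rw [Finset.sum_const, Finset.card_univ, nsmul_eq_mul, ← Complex.re_sum]
    simp
  have h7 : (∑ z, ‖∑ h, f (z + m h)‖) ^ 2 ≤ Fintype.card G * ∑ z, ‖∑ h, f (z + m h)‖ ^ 2 := by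
    have := sq_sum_le_card_mul_sum_sq (s := (univ : Finset G))
      (f := fun z => ‖∑ h, f (z + m h)‖)
    simpa using this
  have h8 : ((Fintype.card G : ℝ) * ‖∑ z, F z * f z‖) ^ 2 ≤ (∑ z, ‖∑ h, f (z + m h)‖) ^ 2 :=
    pow_le_pow_left₀ (by positivity) h3 2
  rw [h6] at h7
  have h9 := h8.trans h7
  rw [mul_pow, ← mul_assoc, ← sq] at h9
  exact le_of_mul_le_mul_left h9 (by positivity)

/-- Multiplicative difference operator. -/
def bns_D {G : Type} [Add G] (h : G) (f : G → ℂ) : G → ℂ :=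
  fun z => f (z + h) * (starRingEnd ℂ) (f z)

theorem bns_D_mul {G : Type} [Add G] (h : G) (f g : G → ℂ) (z : G) :
    bns_D h (fun z => f z * g z) z = bns_D h f z * bns_D h g z := by
  simp only [bns_D, map_mul]
  ring

theorem bns_D_norm {G : Type} [Add G] (h : G) (f : G → ℂ) (hf : ∀ z, ‖f z‖ ≤ 1) (z : G) :
    ‖bns_D h f z‖ ≤ 1 := by
  simp only [bns_D, norm_mul, RCLike.norm_conj]
  exact mul_le_one₀ (hf _) (norm_nonneg _) (hf _)

theorem bns_D_inv {G : Type} [AddCommGroup G] (m : G →+ G) (h : G) (f : G → ℂ)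
    (hf : ∀ z k, f (z + m k) = f z) (z k : G) : bns_D h f (z + m k) = bns_D h f z := by
  simp only [bns_D]
  rw [hf z k, add_right_comm z (m k) h, hf]

theorem bns_step {G : Type} [AddCommGroup G] [Fintype G] (m : G →+ G) (F f : G → ℂ)
    (hF : ∀ z, ‖F z‖ ≤ 1) (hinv : ∀ z h, F (z + m h) = F z) (n : ℕ) :
    ‖∑ z, F z * f z‖ ^ (2 * (n + 1)) ≤
      (Fintype.card G : ℝ) ^ n * ∑ h, ‖∑ z, bns_D (m h) f z‖ ^ (n + 1) := by
  have h1 : ‖∑ z, F z * f z‖ ^ 2 ≤ ∑ h, ‖∑ z, bns_D (m h) f z‖ :=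
    (vdc m F f hF hinv).trans (Finset.sum_le_sum fun h _ => Complex.re_le_norm _)
  rw [pow_mul]
  refine (pow_le_pow_left₀ (by positivity) h1 _).trans ?_
  have := pow_sum_le_card_mul_sum_pow (s := (univ : Finset G))
    (f := fun h => ‖∑ z, bns_D (m h) f z‖) (fun _ _ => norm_nonneg _) n
  simpa using this

theorem bns_l3 {G : Type} [AddCommGroup G] [Fintype G] (m₃ m₄ : G →+ G) (f₃ f₄ φ : G → ℂ)
    (b₃ : ∀ z, ‖f₃ z‖ ≤ 1) (i₃ : ∀ z h, f₃ (z + m₃ h) = f₃ z)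
    (b₄ : ∀ z, ‖f₄ z‖ ≤ 1) (i₄ : ∀ z h, f₄ (z + m₄ h) = f₄ z) :
    ‖∑ z, f₃ z * (f₄ z * φ z)‖ ^ 4 ≤ (Fintype.card G : ℝ) *
      ∑ h₃, ∑ h₄, (∑ z, bns_D (m₄ h₄) (bns_D (m₃ h₃) φ) z).re := by
  have h := bns_step m₃ f₃ (fun z => f₄ z * φ z) b₃ i₃ 1
  simp only [bns_D_mul] at h
  refine h.trans ?_
  rw [pow_one]
  refine mul_le_mul_of_nonneg_left (Finset.sum_le_sum fun h₃ _ => ?_) (by positivity)
  exact vdc m₄ _ _ (bns_D_norm _ _ b₄) (bns_D_inv m₄ _ _ i₄)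

theorem bns_l2 {G : Type} [AddCommGroup G] [Fintype G] (m₂ m₃ m₄ : G →+ G) (f₂ f₃ f₄ φ : G → ℂ)
    (b₂ : ∀ z, ‖f₂ z‖ ≤ 1) (i₂ : ∀ z h, f₂ (z + m₂ h) = f₂ z)
    (b₃ : ∀ z, ‖f₃ z‖ ≤ 1) (i₃ : ∀ z h, f₃ (z + m₃ h) = f₃ z)
    (b₄ : ∀ z, ‖f₄ z‖ ≤ 1) (i₄ : ∀ z h, f₄ (z + m₄ h) = f₄ z) :
    ‖∑ z, f₂ z * (f₃ z * (f₄ z * φ z))‖ ^ 8 ≤ (Fintype.card G : ℝ) ^ 4 *
      ∑ h₂, ∑ h₃, ∑ h₄, (∑ z, bns_D (m₄ h₄) (bns_D (m₃ h₃) (bns_D (m₂ h₂) φ)) z).re := by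
  have h := bns_step m₂ f₂ (fun z => f₃ z * (f₄ z * φ z)) b₂ i₂ 3
  simp only [bns_D_mul] at h
  refine h.trans ?_
  rw [pow_succ _ 3, mul_assoc, Finset.mul_sum _ _ (Fintype.card G : ℝ)]
  refine mul_le_mul_of_nonneg_left (Finset.sum_le_sum fun h₂ _ => ?_) (by positivity)
  exact bns_l3 m₃ m₄ _ _ _ (bns_D_norm _ _ b₃) (bns_D_inv m₃ _ _ i₃) (bns_D_norm _ _ b₄)
    (bns_D_inv m₄ _ _ i₄)

theorem bns_l1 {G : Type} [AddCommGroup G] [Fintype G] (m₁ m₂ m₃ m₄ : G →+ G)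
    (f₁ f₂ f₃ f₄ φ : G → ℂ)
    (b₁ : ∀ z, ‖f₁ z‖ ≤ 1) (i₁ : ∀ z h, f₁ (z + m₁ h) = f₁ z)
    (b₂ : ∀ z, ‖f₂ z‖ ≤ 1) (i₂ : ∀ z h, f₂ (z + m₂ h) = f₂ z)
    (b₃ : ∀ z, ‖f₃ z‖ ≤ 1) (i₃ : ∀ z h, f₃ (z + m₃ h) = f₃ z)
    (b₄ : ∀ z, ‖f₄ z‖ ≤ 1) (i₄ : ∀ z h, f₄ (z + m₄ h) = f₄ z) :
    ‖∑ z, f₁ z * (f₂ z * (f₃ z * (f₄ z * φ z)))‖ ^ 16 ≤ (Fintype.card G : ℝ) ^ 11 *
      ∑ h₁, ∑ h₂, ∑ h₃, ∑ h₄,
        (∑ z, bns_D (m₄ h₄) (bns_D (m₃ h₃) (bns_D (m₂ h₂) (bns_D (m₁ h₁) φ))) z).re := by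
  have h := bns_step m₁ f₁ (fun z => f₂ z * (f₃ z * (f₄ z * φ z))) b₁ i₁ 7
  simp only [bns_D_mul] at h
  refine h.trans ?_
  rw [show (11 : ℕ) = 7 + 4 from rfl, pow_add _ 7 4, mul_assoc,
    Finset.mul_sum _ _ ((Fintype.card G : ℝ) ^ 4)]
  refine mul_le_mul_of_nonneg_left (Finset.sum_le_sum fun h₁ _ => ?_) (by positivity)
  exact bns_l2 m₂ m₃ m₄ _ _ _ _ (bns_D_norm _ _ b₂) (bns_D_inv m₂ _ _ i₂)
    (bns_D_norm _ _ b₃) (bns_D_inv m₃ _ _ i₃) (bns_D_norm _ _ b₄) (bns_D_inv m₄ _ _ i₄)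

/-- The mask as an additive map. -/
def bns_mask {ι R : Type} [DecidableEq ι] [AddCommGroup R] (S : Finset ι) :
    (ι → R) →+ (ι → R) where
  toFun := mask S
  map_zero' := by
    funext i
    simp [mask]
  map_add' x y := by
    funext i
    by_cases hi : i ∈ S <;> simp [mask, hi]

theorem bns_D_char {G : Type} [Add G] (p : ℕ) [NeZero p] (h : G) (Q : G → ZMod p) :
    bns_D h (fun z => (ZMod.stdAddChar (Q z) : ℂ)) = fun z => ZMod.stdAddChar (dif h Q z) := by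
  funext z
  simp only [bns_D, dif]
  rw [sub_eq_add_neg, AddChar.map_add_eq_mul, AddChar.map_neg_eq_conj]

theorem bns_dif_comp {G R : Type} [Add G] [Sub R] (π : G → G) (k : G)
    (hπ : ∀ z, π (z + k) = π z + k) (Q : G → R) :
    dif k (fun z => Q (π z)) = fun z => dif k Q (π z) := by
  funext z
  simp only [dif, hπ]

theorem bns_char_sum {G : Type} [AddCommGroup G] [Fintype G] (p : ℕ) [NeZero p]
    (L : G →+ ZMod p) [Decidable (∀ h, L h = 0)] :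
    (∑ h, (ZMod.stdAddChar (L h) : ℂ)) = if ∀ h, L h = 0 then (Fintype.card G : ℂ) else 0 := by
  split_ifs with hL
  · simp [hL]
  · have hne : (ZMod.stdAddChar (N := p)).compAddMonoidHom L ≠ 0 := by
      intro h0
      apply hL
      intro h
      have h1 : ((ZMod.stdAddChar (N := p)).compAddMonoidHom L) h = 1 := by rw [h0]; rfl
      rw [AddChar.compAddMonoidHom_apply] at h1
      exact ((ZMod.isPrimitive_stdAddChar p).zmod_char_eq_one_iff p _).1 h1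
    exact AddChar.sum_eq_zero_iff_ne_zero.2 hne

theorem bns_ind_inv {ι A : Type} [DecidableEq ι] [AddCommGroup A] (S : Finset ι)
    (F : (ι → A) → Prop) (hF : InvOn S F) (z h : ι → A) : F (z + bns_mask S h) ↔ F z := by
  have key : ∀ i, i ∉ S → (z + bns_mask S h) i = z i := by
    intro i hi
    simp [bns_mask, mask, hi]
  exact ⟨hF _ _ key, hF _ _ fun i hi => (key i hi).symm⟩

theorem bns {ι : Type} [Fintype ι] [DecidableEq ι] (p : ℕ) [Fact p.Prime]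
    (P : (ι → ZMod p) → ZMod p) (v : ZMod p)
    (Λ : (ι → ZMod p) → (ι → ZMod p) → (ι → ZMod p) → (ι → ZMod p) →+ ZMod p)
    (hΛ : ∀ h₁ h₂ h₃ h₄ z, dif h₄ (dif h₃ (dif h₂ (dif h₁ P))) z = Λ h₁ h₂ h₃ h₄)
    (ρ : ℕ) (μ : ℝ) (hμ : 0 ≤ μ) (hc : Cyl (fun z => P z = v) ρ μ) :
    ∃ S₁ S₂ S₃ S₄ : Finset ι, ρ ≤ S₁.card ∧ ρ ≤ S₂.card ∧ ρ ≤ S₃.card ∧ ρ ≤ S₄.card ∧
      μ ^ 16 * ((p : ℝ) ^ Fintype.card ι) ^ 3 ≤
        cnt (fun h : (ι → ZMod p) × (ι → ZMod p) × (ι → ZMod p) =>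
          ∀ h₄, Λ (mask S₁ h.1) (mask S₂ h.2.1) (mask S₃ h.2.2) (mask S₄ h₄) = 0) := by
  classical
  obtain ⟨S₁, S₂, S₃, S₄, U, F₁, F₂, F₃, F₄, e, ⟨r1, r2, r3, r4⟩, ⟨u1, u2, u3, u4⟩,
    ⟨n1, n2, n3, n4⟩, hG, hμc⟩ := hc
  refine ⟨S₁, S₂, S₃, S₄, r1, r2, r3, r4, ?_⟩
  have hcard : (Fintype.card (ι → ZMod p) : ℝ) = (p : ℝ) ^ Fintype.card ι := by
    simp [ZMod.card]
  rw [ZMod.card] at hμc
  set g : ℝ := (p : ℝ) ^ Fintype.card ι with hg
  have hg0 : 0 < g := by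
    rw [← hcard]
    exact_mod_cast Fintype.card_pos
  let ind : ((ι → ZMod p) → Prop) → (ι → ZMod p) → ℂ := fun F z => if F z then 1 else 0
  have hb : ∀ F z, ‖ind F z‖ ≤ 1 := by
    intro F z
    by_cases h : F z <;> simp [ind, h]
  have hi : ∀ S F, InvOn S F → ∀ z h, ind F (z + bns_mask S h) = ind F z := by
    intro S F hF z h
    simp only [ind, bns_ind_inv S F hF z h]
  let π : (ι → ZMod p) → (ι → ZMod p) := fun z => U.piecewise z e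
  have hπ : ∀ S, S ⊆ U → ∀ h z, π (z + bns_mask S h) = π z + bns_mask S h := by
    intro S hS h z
    funext i
    by_cases hU : i ∈ U
    · simp [π, hU]
    · have : i ∉ S := fun h => hU (hS h)
      simp [π, hU, bns_mask, mask, this]
  let φ : (ι → ZMod p) → ℂ := fun z => ZMod.stdAddChar (P (π z) - v)
  have main := bns_l1 (bns_mask S₁) (bns_mask S₂) (bns_mask S₃) (bns_mask S₄) (ind F₁) (ind F₂)
    (ind F₃) (ind F₄) φ (hb _) (hi _ _ n1) (hb _) (hi _ _ n2) (hb _) (hi _ _ n3) (hb _)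
    (hi _ _ n4)
  have hsum : ∑ z, ind F₁ z * (ind F₂ z * (ind F₃ z * (ind F₄ z * φ z))) =
      (cnt (fun z => F₁ z ∧ F₂ z ∧ F₃ z ∧ F₄ z) : ℂ) := by
    rw [cnt_eq, Finset.card_filter]
    push_cast
    refine Finset.sum_congr rfl fun z _ => ?_
    by_cases a : F₁ z <;> by_cases b : F₂ z <;> by_cases c : F₃ z <;> by_cases d : F₄ z <;>
      simp [ind, a, b, c, d]
    have := hG z a b c d
    simp only [φ, π, this, sub_self, AddChar.map_zero_eq_one]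
  have hD : ∀ h₁ h₂ h₃ h₄ z, bns_D (bns_mask S₄ h₄) (bns_D (bns_mask S₃ h₃)
      (bns_D (bns_mask S₂ h₂) (bns_D (bns_mask S₁ h₁) φ))) z =
      ZMod.stdAddChar (Λ (mask S₁ h₁) (mask S₂ h₂) (mask S₃ h₃) (mask S₄ h₄)) := by
    intro h₁ h₂ h₃ h₄ z
    have e1 : dif (bns_mask S₁ h₁) (fun z => P (π z) - v) =
        fun z => dif (bns_mask S₁ h₁) P (π z) := by
      funext z
      simp only [dif, hπ S₁ u1]
      ring
    simp only [φ, bns_D_char]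
    rw [e1, bns_dif_comp π _ (hπ S₂ u2 h₂), bns_dif_comp π _ (hπ S₃ u3 h₃),
      bns_dif_comp π _ (hπ S₄ u4 h₄)]
    simp only [hΛ]
    rfl
  have hin : ∀ h₁ h₂ h₃, ∑ h₄, (∑ z, bns_D (bns_mask S₄ h₄) (bns_D (bns_mask S₃ h₃)
      (bns_D (bns_mask S₂ h₂) (bns_D (bns_mask S₁ h₁) φ))) z).re =
      g ^ 2 * if ∀ h₄, Λ (mask S₁ h₁) (mask S₂ h₂) (mask S₃ h₃) (mask S₄ h₄) = 0
        then 1 else 0 := by
    intro h₁ h₂ h₃
    simp only [hD]
    rw [← Complex.re_sum, Finset.sum_comm]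
    have := bns_char_sum p ((Λ (mask S₁ h₁) (mask S₂ h₂) (mask S₃ h₃)).comp (bns_mask S₄))
    simp only [AddMonoidHom.comp_apply] at this
    change ∑ h, (ZMod.stdAddChar (Λ (mask S₁ h₁) (mask S₂ h₂) (mask S₃ h₃) (mask S₄ h)) : ℂ) =
      if ∀ h, Λ (mask S₁ h₁) (mask S₂ h₂) (mask S₃ h₃) (mask S₄ h) = 0 then _ else _ at this
    rw [this, Finset.sum_const, Finset.card_univ, nsmul_eq_mul]
    split_ifs
    · rw [← Nat.cast_mul, Complex.natCast_re, Nat.cast_mul, hcard]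
      ring
    · simp
  rw [hsum, Complex.norm_natCast, hcard] at main
  simp only [hin, ← Finset.mul_sum] at main
  have hcnt : (cnt (fun h : (ι → ZMod p) × (ι → ZMod p) × (ι → ZMod p) =>
      ∀ h₄, Λ (mask S₁ h.1) (mask S₂ h.2.1) (mask S₃ h.2.2) (mask S₄ h₄) = 0) : ℝ) =
      ∑ h₁, ∑ h₂, ∑ h₃, if ∀ h₄, Λ (mask S₁ h₁) (mask S₂ h₂) (mask S₃ h₃) (mask S₄ h₄) = 0
        then (1 : ℝ) else 0 := by
    rw [cnt_eq, Finset.card_filter]
    push_cast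
    rw [Fintype.sum_prod_type]
    refine Finset.sum_congr rfl fun h₁ _ => ?_
    rw [Fintype.sum_prod_type]
  rw [← hcnt] at main
  have h16 : (μ * g) ^ 16 ≤ _ := (pow_le_pow_left₀ (by positivity) hμc 16).trans main
  refine le_of_mul_le_mul_left (a := g ^ 13) ?_ (by positivity)
  calc g ^ 13 * (μ ^ 16 * g ^ 3) = (μ * g) ^ 16 := by ring
    _ ≤ _ := h16
    _ = _ := by ring

end Pool.Agent.Work.MP_807b32_lc.Sem
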