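import Pool.Agent.Work.MP_807b32_lc.Sem.Defs
import Pool.Agent.Work.MP_807b32_lc.Sem.Bns

/-!
A good choice of the coefficient vector `y`.

`pol x = ∑ a, C (x a) * X ^ a` and `fnl y q = ∑ m, y m * q.coeff m`, so
`quart x y = fnl y (pol x ^ 4)`.

Plan.
* `quart_eq`: expand the fourth power as a fourfold sum of monomials; `fnl y (C c * X ^ m)` is
  `y m * c` for `m < 4 N + 1`.
* `dif_quart`: `pol` and `fnl y` are additive; the fourth difference of `Q ^ 4` is
  `24 * H₁ * H₂ * H₃ * H₄` by `ring`.
* `ker_card`: `d = u.natDegree`, `Mset` the set of positions `d + e`, `e ∈ S`. Two solutions `y, y'`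
  that agree off `Mset` are equal: otherwise take the least position `d + e` where they differ;
  `fnl (y - y') (u * X ^ e) = (y - y') (d + e) * u.leadingCoeff`. So the solutions inject into the
  functions on the complement of `Mset` (or: the map `(y, t) ↦ y + (t placed on Mset)` is
  injective on solutions times `S → ZMod p`).
* `mask_zero_card`: the `h` with `mask S h = 0` form `Fintype.piFinset` of `{0}` or `univ`.
* `good_y`: let `c y S₁ S₂ S₃ S₄` be the count and `ρ` the least of the four cardinalities. For a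
  triple with `pol (mask S t h t) ≠ 0` for all three (`pol x = 0` forces `x = 0`), the product is
  nonzero of degree at most `3 N`, and taking `h₄ = Pi.single e 1` shows that at most
  `p ^ (4N+1) / p ^ ρ` vectors `y` work (`24` is a unit as `5 ≤ p`). The other triples number at
  most `3 * p ^ (3N) / p ^ ρ`. So `∑ y, c y S * p ^ ρ ≤ 4 * p ^ (3N) * p ^ (4N+1)` for each
  quadruple; sum over the `16 ^ N` quadruples and take `y` with at most the average total.
* `algebra`: `bns` with `Λ = lamb y` and `good_y`; `Function.update y (last) v` does not change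
  `quart` (`quart_update`), as `a + b + c + e < 4 N`.
-/

namespace Pool.Agent.Work.MP_807b32_lc.Sem

open Finset Polynomial

/-- The polynomial with coefficient vector `x`. -/
noncomputable def pol {p N : ℕ} (x : Fin N → ZMod p) : (ZMod p)[X] :=
  ∑ a : Fin N, C (x a) * X ^ a.val

/-- The linear functional on polynomials given by `y`. -/
noncomputable def fnl {p n : ℕ} (y : Fin n → ZMod p) (q : (ZMod p)[X]) : ZMod p :=
  ∑ m : Fin n, y m * q.coeff m.val

theorem pol_add {p N : ℕ} (x x' : Fin N → ZMod p) : pol (x + x') = pol x + pol x' := by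
  simp [pol, add_mul, Finset.sum_add_distrib]

theorem fnl_add {p n : ℕ} (y : Fin n → ZMod p) (q q' : (ZMod p)[X]) :
    fnl y (q + q') = fnl y q + fnl y q' := by
  simp [fnl, mul_add, Finset.sum_add_distrib]

/-- The fourth difference of the quartic form, as an additive map in the last direction. -/
noncomputable def lamb {p N : ℕ} (y : Fin (4 * N + 1) → ZMod p) (h₁ h₂ h₃ : Fin N → ZMod p) :
    (Fin N → ZMod p) →+ ZMod p :=
  AddMonoidHom.mk' (fun h₄ => fnl y (24 * (pol h₁ * pol h₂ * pol h₃) * pol h₄))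
    (fun a b => by rw [pol_add, mul_add, fnl_add])

theorem alg_sum {p n : ℕ} {κ : Type} [Fintype κ] (y : Fin n → ZMod p) (q : κ → (ZMod p)[X]) :
    fnl y (∑ k, q k) = ∑ k, fnl y (q k) := by
  unfold fnl
  rw [Finset.sum_comm]
  refine Finset.sum_congr rfl fun m _ => ?_
  rw [finsetSum_coeff, Finset.mul_sum]

theorem alg_mon {p n : ℕ} (y : Fin n → ZMod p) (c : ZMod p) (m : ℕ) (hm : m < n) :
    fnl y (C c * X ^ m) = y ⟨m, hm⟩ * c := by
  unfold fnl
  rw [Finset.sum_eq_single (⟨m, hm⟩ : Fin n)]
  · rw [coeff_C_mul_X_pow, if_pos rfl]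
  · intro b _ hb
    rw [coeff_C_mul_X_pow, if_neg fun h => hb (Fin.ext h), mul_zero]
  · intro h
    exact absurd (mem_univ _) h

theorem alg_pow {p N : ℕ} (x : Fin N → ZMod p) :
    pol x ^ 4 = ∑ a : Fin N, ∑ b : Fin N, ∑ c : Fin N, ∑ e : Fin N,
      C (x a * x b * x c * x e) * X ^ (a.val + b.val + c.val + e.val) := by
  have h : pol x ^ 4 = pol x * (pol x * (pol x * pol x)) := by ring
  rw [h]
  unfold pol
  rw [Finset.sum_mul]
  refine Finset.sum_congr rfl fun a _ => ?_
  rw [Finset.sum_mul, Finset.mul_sum]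
  refine Finset.sum_congr rfl fun b _ => ?_
  rw [Finset.sum_mul, Finset.mul_sum, Finset.mul_sum]
  refine Finset.sum_congr rfl fun c _ => ?_
  rw [Finset.mul_sum, Finset.mul_sum, Finset.mul_sum]
  refine Finset.sum_congr rfl fun e _ => ?_
  rw [C_mul, C_mul, C_mul]
  ring

theorem quart_eq (p N : ℕ) (x : Fin N → ZMod p) (y : Fin (4 * N + 1) → ZMod p) :
    quart p N x y = fnl y (pol x ^ 4) := by
  rw [alg_pow, alg_sum]
  unfold quart
  refine Finset.sum_congr rfl fun a _ => ?_
  rw [alg_sum]
  refine Finset.sum_congr rfl fun b _ => ?_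
  rw [alg_sum]
  refine Finset.sum_congr rfl fun c _ => ?_
  rw [alg_sum]
  refine Finset.sum_congr rfl fun e _ => ?_
  rw [alg_mon]

theorem quart_update (p N : ℕ) (x : Fin N → ZMod p) (y : Fin (4 * N + 1) → ZMod p)
    (v : ZMod p) : quart p N x (Function.update y (Fin.last (4 * N)) v) = quart p N x y := by
  unfold quart
  refine Finset.sum_congr rfl fun a _ => Finset.sum_congr rfl fun b _ =>
    Finset.sum_congr rfl fun c _ => Finset.sum_congr rfl fun e _ => ?_
  rw [Function.update_of_ne]
  intro h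
  have h1 : a.val + b.val + c.val + e.val = 4 * N := congrArg Fin.val h
  omega

theorem alg_sub {p n : ℕ} (y : Fin n → ZMod p) (q q' : (ZMod p)[X]) :
    fnl y (q - q') = fnl y q - fnl y q' := by
  rw [eq_sub_iff_add_eq, ← fnl_add, sub_add_cancel]

theorem dif_quart (p N : ℕ) (y : Fin (4 * N + 1) → ZMod p) (h₁ h₂ h₃ h₄ z : Fin N → ZMod p) :
    dif h₄ (dif h₃ (dif h₂ (dif h₁ (fun x => quart p N x y)))) z = lamb y h₁ h₂ h₃ h₄ := by
  show _ = fnl y (24 * (pol h₁ * pol h₂ * pol h₃) * pol h₄)
  simp only [dif, quart_eq, pol_add, ← alg_sub]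
  exact congrArg (fnl y) (by ring)

theorem alg_cnt {ι A : Type} [Fintype ι] [DecidableEq ι] [Fintype A] (P : (ι → A) → Prop)
    (M : Finset ι) (h : ∀ y y', P y → P y' → (∀ i, i ∉ M → y i = y' i) → y = y') :
    cnt P * Fintype.card A ^ M.card ≤ Fintype.card A ^ Fintype.card ι := by
  classical
  have h1 := Fintype.card_le_of_injective
    (fun (w : {y // P y} × (M → A)) (i : ι) => if hi : i ∈ M then w.2 ⟨i, hi⟩ else w.1.1 i)
    fun w w' hw => by
      refine Prod.ext (Subtype.ext (h _ _ w.1.2 w'.1.2 fun i hi => ?_)) (funext fun i => ?_)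
      · simpa only [dif_neg hi] using congrFun hw i
      · simpa only [dif_pos i.2] using congrFun hw i.1
  rwa [Fintype.card_prod, Fintype.card_fun, Fintype.card_fun, Fintype.card_coe,
    Fintype.card_subtype, ← cnt_eq] at h1

theorem ker_card (p N : ℕ) [Fact p.Prime] (u : (ZMod p)[X]) (hu : u ≠ 0)
    (hd : u.natDegree ≤ 3 * N) (S : Finset (Fin N)) :
    cnt (fun y : Fin (4 * N + 1) → ZMod p => ∀ e ∈ S, fnl y (u * X ^ e.val) = 0) * p ^ S.card ≤
      p ^ (4 * N + 1) := by
  have hi : Function.Injective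
      fun e : Fin N => (⟨u.natDegree + e.val, by omega⟩ : Fin (4 * N + 1)) := fun e e' h => by
    have h1 : u.natDegree + e.val = u.natDegree + e'.val := congrArg Fin.val h
    exact Fin.ext (by omega)
  have h := alg_cnt (fun y : Fin (4 * N + 1) → ZMod p => ∀ e ∈ S, fnl y (u * X ^ e.val) = 0)
    (S.map ⟨_, hi⟩) fun y y' hy hy' ho => by
      by_contra hne
      have h1 : (univ.filter fun m => y m ≠ y' m).Nonempty := by
        obtain ⟨m, hm⟩ := Function.ne_iff.1 hne
        exact ⟨m, mem_filter.2 ⟨mem_univ _, hm⟩⟩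
      obtain ⟨m, hm, hl⟩ := exists_min_image _ (fun m : Fin (4 * N + 1) => m.val) h1
      have hm1 := (mem_filter.1 hm).2
      obtain ⟨e, he, rfl⟩ := mem_map.1 (by_contra fun h2 => hm1 (ho m h2))
      have h2 : ∑ m, (y m - y' m) * (u * X ^ e.val).coeff m.val = 0 := by
        simp only [sub_mul, Finset.sum_sub_distrib]
        exact sub_eq_zero.2 ((hy e he).trans (hy' e he).symm)
      rw [Finset.sum_eq_single_of_mem _ (mem_univ (⟨u.natDegree + e.val, by omega⟩ :
        Fin (4 * N + 1)))] at h2
      · rw [coeff_mul_X_pow] at h2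
        exact mul_ne_zero (sub_ne_zero.2 hm1) (leadingCoeff_ne_zero.2 hu) h2
      · intro b _ hb
        by_cases h3 : y b = y' b
        · rw [h3, sub_self, zero_mul]
        · have h4 : u.natDegree + e.val ≤ b.val := hl b (mem_filter.2 ⟨mem_univ _, h3⟩)
          have h5 : b.val ≠ u.natDegree + e.val := fun h5 => hb (Fin.ext h5)
          rw [coeff_mul_X_pow', if_pos (by omega), coeff_eq_zero_of_natDegree_lt (by omega),
            mul_zero]
  rwa [card_map, ZMod.card, Fintype.card_fin] at h

theorem mask_zero_card (p N : ℕ) [Fact p.Prime] (S : Finset (Fin N)) :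
    cnt (fun h : Fin N → ZMod p => mask S h = 0) * p ^ S.card ≤ p ^ N := by
  have h := alg_cnt (fun h : Fin N → ZMod p => mask S h = 0) S fun y y' hy hy' ho => by
    funext i
    by_cases hi : i ∈ S
    · have h1 := congrFun (hy.trans hy'.symm) i
      unfold mask at h1
      rwa [if_pos hi, if_pos hi] at h1
    · exact ho i hi
  rwa [ZMod.card, Fintype.card_fin] at h

end Pool.Agent.Work.MP_807b32_lc.Sem
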