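import Pool.Agent.Work.MP_807b32_lc.Sem.Swap

/-!
The swapping lemma: few points of `Ω` lie in the predicted small sets `H x i` at many sites.

Plan for `lemma_G`. For `a a' : ι → A` and `σ : ι → Bool` let
`X σ i = if i ∈ T ∧ σ i then a' i else a i` and `Z σ i = if i ∈ T ∧ σ i then a i else a' i`.
Define `wt x i s = if i ∈ T then (if s ∈ α x i ∪ H x i then η / 2 else
(1 - η) * (if x i ∈ H x i then 1 else 1 / 2)) else 1 / 2`.
1. For fixed `a a'`: `∑ σ with X σ ∈ Ω, ∏ i, wt (X σ) i (Z σ i) ≤ 1` by `kraft_record` with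
   `η i = if i ∈ T then η else 0`, touched iff `i ∈ T` and `Z σ i ∈ α (X σ) i ∪ H (X σ) i`, and
   `q σ i b = if i ∈ T then (if z b ∈ H (X σ) i then 0 else if x b ∈ H (X σ) i then 1 else 1 / 2)
   else 1 / 2`, where `x b = if b then a' i else a i`, `z b = if b then a i else a' i`.
   Equal records give `Sat (α (X σ)) (X σ')` and conversely (at an untouched site of `T` where the
   two differ, `X σ' i = Z σ i`), so `h1` gives equal `α`, and `hH` gives equal `H`.
2. Sum over `(a, a')`; for each `σ` the map `(a, a') ↦ (X σ, Z σ)` is an involution, so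
   `2 ^ N * ∑ x ∈ Ω, ∑ z, ∏ i, wt x i (z i) ≤ D ^ N * D ^ N`, and
   `∑ z, ∏ i, wt x i (z i) = ∏ i, ∑ s, wt x i s`.
3. `2 * ∑ s, wt x i s` is `D` off `T` and at least `D * exp (...)` on `T` by `site_bound` with
   `Z = α x i ∪ H x i`, `ζ = (α x i).card / D + 1 / B`.

Plan for `heavy_card`: the numbers `n s = card (filter (label = label x ∧ y i = s))` sum over `s`
to `cls`, which is positive; each heavy `s` has `B * cls < D * n s`.
`heavy_congr` is immediate from `cls_eq_of_eq` and `off_eq_iff`.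
`not_mem_heavy`: the filter at `s = x i` is the class of `(a, off (T.erase i))`.
-/

namespace Pool.Agent.Work.MP_807b32_lc.Sem

open Finset

variable {ι A : Type} [Fintype ι] [DecidableEq ι] [Fintype A] [DecidableEq A]

/-- the point that takes `a'` at the sites of `T` chosen by `σ`, and `a` elsewhere -/
def lemg_mix (T : Finset ι) (σ : ι → Bool) (a a' : ι → A) : ι → A :=
  fun i => if i ∈ T ∧ σ i = true then a' i else a i

/-- the weight of the symbol `s` at the site `i` -/
noncomputable def lemg_wt (α H : (ι → A) → ι → Finset A) (T : Finset ι) (η : ℝ) (x : ι → A)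
    (i : ι) (s : A) : ℝ :=
  if i ∈ T then (if s ∈ α x i ∪ H x i then η / 2 else
    (1 - η) * (if x i ∈ H x i then 1 else 1 / 2)) else 1 / 2

omit [Fintype ι] [Fintype A] [DecidableEq A] in
theorem lemg_mix_mix (T : Finset ι) (σ : ι → Bool) (a a' : ι → A) :
    lemg_mix T σ (lemg_mix T σ a a') (lemg_mix T σ a' a) = a := by
  funext i
  unfold lemg_mix
  split_ifs <;> rfl

omit [Fintype ι] [Fintype A] [DecidableEq A] in
theorem lemg_mix_ne {T : Finset ι} {σ σ' : ι → Bool} {a a' : ι → A} {i : ι}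
    (h : lemg_mix T σ' a a' i ≠ lemg_mix T σ a a' i) :
    i ∈ T ∧ σ i ≠ σ' i ∧ lemg_mix T σ' a a' i = lemg_mix T σ a' a i := by
  unfold lemg_mix at h ⊢
  by_cases hi : i ∈ T <;> cases h1 : σ i <;> cases h2 : σ' i <;> simp_all

omit [Fintype A] in
theorem lemg_kraft (Ω : Finset (ι → A)) (α H : (ι → A) → ι → Finset A) (T : Finset ι)
    (h0 : ∀ x ∈ Ω, Sat (α x) x)
    (h1 : ∀ x ∈ Ω, ∀ y ∈ Ω, Sat (α x) y → Sat (α y) x → α x = α y)
    (hH : ∀ x ∈ Ω, ∀ y ∈ Ω, α x = α y → (∀ i, i ∉ T → x i = y i) → H x = H y)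
    (η : ℝ) (hη0 : 0 < η) (hη1 : η < 1) (a a' : ι → A) :
    ∑ σ : ι → Bool, (if lemg_mix T σ a a' ∈ Ω then
      ∏ i, lemg_wt α H T η (lemg_mix T σ a a') i (lemg_mix T σ a' a i) else 0) ≤ 1 := by
  rw [← sum_filter]
  refine le_trans (le_of_eq (sum_congr rfl fun σ _ => prod_congr rfl fun i _ => ?_))
    (kraft_record _ (fun i => if i ∈ T then η else 0) (fun i => ?_) (fun i => ?_)
      (fun σ i => decide (i ∈ T ∧ lemg_mix T σ a' a i ∈
        α (lemg_mix T σ a a') i ∪ H (lemg_mix T σ a a') i))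
      (fun σ i b => if i ∈ T then
        (if (if b = true then a i else a' i) ∈ H (lemg_mix T σ a a') i then 0 else
          if (if b = true then a' i else a i) ∈ H (lemg_mix T σ a a') i then 1 else 1 / 2)
        else 1 / 2) (fun σ i b => ?_) (fun σ i => ?_) fun σ hσ σ' hσ' e1 e2 => ?_)
  · unfold lemg_wt
    by_cases hi : i ∈ T
    · have e1 : lemg_mix T σ a' a i = if σ i = true then a i else a' i := by simp [lemg_mix, hi]
      have e2 : lemg_mix T σ a a' i = if σ i = true then a' i else a i := by simp [lemg_mix, hi]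
      rw [← e1, ← e2]
      simp only [hi, if_true, true_and, decide_eq_true_eq]
      by_cases h : lemg_mix T σ a' a i ∈ α (lemg_mix T σ a a') i ∪ H (lemg_mix T σ a a') i
      · rw [if_pos h, if_pos h]
      · rw [if_neg h, if_neg h, if_neg fun k => h (mem_union_right _ k)]
    · simp [hi]
  · split_ifs
    exacts [hη0.le, le_rfl]
  · split_ifs
    exacts [hη1.le, zero_le_one]
  · split_ifs <;> norm_num
  · simp only [if_true, Bool.false_eq_true, if_false]
    split_ifs <;> norm_num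
  · have k : ∀ σ σ' : ι → Bool, lemg_mix T σ a a' ∈ Ω → (∀ i, decide (i ∈ T ∧
        lemg_mix T σ a' a i ∈ α (lemg_mix T σ a a') i ∪ H (lemg_mix T σ a a') i) = true →
        σ i = σ' i) → Sat (α (lemg_mix T σ a a')) (lemg_mix T σ' a a') := fun σ σ' hσ e i hi => by
      by_cases h : lemg_mix T σ' a a' i = lemg_mix T σ a a' i
      · exact h0 _ hσ i (h ▸ hi)
      · obtain ⟨k1, k2, k3⟩ := lemg_mix_ne h
        exact k2 (e i (decide_eq_true ⟨k1, mem_union_left _ (k3 ▸ hi)⟩))
    have m1 := (mem_filter.1 hσ).2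
    have m2 := (mem_filter.1 hσ').2
    have k1 := hH _ m1 _ m2 (h1 _ m1 _ m2 (k σ σ' m1 e2)
      (k σ' σ m2 fun i hi => (e2 i ((congrFun e1 i).trans hi)).symm))
      fun i hi => by simp [lemg_mix, hi]
    simp only [k1]

theorem lemg_site [Nonempty A] (α H : (ι → A) → ι → Finset A) (T : Finset ι) (B : ℝ) (hB : 0 < B)
    (η : ℝ) (hη0 : 0 < η) (hη1 : η < 1) (x : ι → A)
    (hHB : ∀ i, B * ((H x i).card : ℝ) ≤ Fintype.card A) :
    (Fintype.card A : ℝ) ^ Fintype.card ι *
      Real.exp (Real.log 2 * ((T.filter (fun i => x i ∈ H x i)).card : ℝ)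
        - Real.log (2 / η) * (∑ i ∈ T, ((α x i).card : ℝ) / Fintype.card A)
        - T.card * (Real.log (2 / η) / B - Real.log (1 - η))) ≤
      2 ^ Fintype.card ι * ∑ z : ι → A, ∏ i, lemg_wt α H T η x i (z i) := by
  have hD : (0 : ℝ) < Fintype.card A := by exact_mod_cast Fintype.card_pos
  have e1 : Real.log 2 * ((T.filter (fun i => x i ∈ H x i)).card : ℝ)
        - Real.log (2 / η) * (∑ i ∈ T, ((α x i).card : ℝ) / Fintype.card A)
        - T.card * (Real.log (2 / η) / B - Real.log (1 - η)) =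
      ∑ i, if i ∈ T then ((if x i ∈ H x i then Real.log 2 else 0) + Real.log (1 - η) -
        (((α x i).card : ℝ) / Fintype.card A + 1 / B) * Real.log (2 / η)) else 0 := by
    rw [sum_ite_mem, univ_inter, sum_sub_distrib, sum_add_distrib, ← sum_filter, ← sum_mul,
      sum_add_distrib]
    simp only [sum_const, nsmul_eq_mul]
    ring
  rw [e1, Real.exp_sum, ← Fintype.piFinset_univ, ← prod_univ_sum, ← card_univ (α := ι),
    ← prod_const, ← prod_const, ← prod_mul_distrib, ← prod_mul_distrib]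
  refine prod_le_prod (fun i _ => by positivity) fun i _ => ?_
  unfold lemg_wt
  by_cases hi : i ∈ T
  · simp only [hi, if_true]
    refine (site_bound (α x i ∪ H x i) η hη0 hη1 (x i ∈ H x i) _ ?_).trans (le_of_eq ?_)
    · have h1 : ((α x i ∪ H x i).card : ℝ) ≤ (α x i).card + (H x i).card := by
        exact_mod_cast card_union_le _ _
      have h2 : ((H x i).card : ℝ) ≤ 1 / B * Fintype.card A := by
        rw [one_div, inv_mul_eq_div, le_div_iff₀' hB]
        exact hHB i
      rw [add_mul, div_mul_cancel₀ _ hD.ne']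
      linarith
    · rw [mul_sum]
      refine sum_congr rfl fun s _ => ?_
      split_ifs <;> ring
  · simp only [hi, if_false, Real.exp_zero, sum_const, card_univ, nsmul_eq_mul]
    linarith

theorem lemma_G [Nonempty A] (Ω : Finset (ι → A)) (α H : (ι → A) → ι → Finset A) (T : Finset ι)
    (h0 : ∀ x ∈ Ω, Sat (α x) x)
    (h1 : ∀ x ∈ Ω, ∀ y ∈ Ω, Sat (α x) y → Sat (α y) x → α x = α y)
    (hH : ∀ x ∈ Ω, ∀ y ∈ Ω, α x = α y → (∀ i, i ∉ T → x i = y i) → H x = H y)
    (B : ℝ) (hB : 0 < B) (hHB : ∀ x ∈ Ω, ∀ i, B * ((H x i).card : ℝ) ≤ Fintype.card A)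
    (η : ℝ) (hη0 : 0 < η) (hη1 : η < 1) :
    ∑ x ∈ Ω, Real.exp (Real.log 2 * ((T.filter (fun i => x i ∈ H x i)).card : ℝ)
        - Real.log (2 / η) * (∑ i ∈ T, ((α x i).card : ℝ) / Fintype.card A)
        - T.card * (Real.log (2 / η) / B - Real.log (1 - η))) ≤
      (Fintype.card A : ℝ) ^ Fintype.card ι := by
  have hD : (0 : ℝ) < (Fintype.card A : ℝ) ^ Fintype.card ι :=
    pow_pos (by exact_mod_cast Fintype.card_pos) _
  set W : (ι → A) × (ι → A) → ℝ := fun p =>
    if p.1 ∈ Ω then ∏ i, lemg_wt α H T η p.1 i (p.2 i) else 0 with hW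
  have k1 : ∑ p : (ι → A) × (ι → A), ∑ σ : ι → Bool,
      W (lemg_mix T σ p.1 p.2, lemg_mix T σ p.2 p.1) ≤
      (Fintype.card A : ℝ) ^ Fintype.card ι * (Fintype.card A : ℝ) ^ Fintype.card ι := by
    refine (sum_le_sum fun p _ => lemg_kraft Ω α H T h0 h1 hH η hη0 hη1 p.1 p.2).trans ?_
    simp
  have k2 : ∀ σ : ι → Bool, ∑ p : (ι → A) × (ι → A),
      W (lemg_mix T σ p.1 p.2, lemg_mix T σ p.2 p.1) = ∑ p, W p := fun σ =>
    Equiv.sum_comp (Function.Involutive.toPerm (fun p : (ι → A) × (ι → A) =>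
      (lemg_mix T σ p.1 p.2, lemg_mix T σ p.2 p.1))
      fun p => Prod.ext (lemg_mix_mix T σ p.1 p.2) (lemg_mix_mix T σ p.2 p.1)) W
  have k3 : ∑ p, W p = ∑ x ∈ Ω, ∑ z : ι → A, ∏ i, lemg_wt α H T η x i (z i) := by
    rw [Fintype.sum_prod_type, ← univ_inter Ω, ← sum_ite_mem]
    refine sum_congr rfl fun x _ => ?_
    by_cases hx : x ∈ Ω <;> simp [hW, hx]
  rw [sum_comm] at k1
  simp only [k2, k3, sum_const, card_univ, Fintype.card_fun, Fintype.card_bool, nsmul_eq_mul,
    Nat.cast_pow, Nat.cast_ofNat] at k1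
  refine le_of_mul_le_mul_left (le_trans ?_ k1) hD
  rw [mul_sum, mul_sum]
  exact sum_le_sum fun x hx => lemg_site α H T B hB η hη0 hη1 x (hHB x hx)

omit [Fintype ι] in
theorem heavy_card {Γ : Type} (Ω : Finset (ι → A)) (a : (ι → A) → Γ) (T : Finset ι) (B : ℝ)
    (hB : 0 < B) {x : ι → A} (hx : x ∈ Ω) (i : ι) :
    B * ((heavy Ω a T B x i).card : ℝ) ≤ Fintype.card A := by
  classical
  set c : ℝ := (cls Ω (fun y => (a y, off T y)) x : ℝ) with hc
  set n : A → ℝ := fun s =>
    ((Ω.filter (fun y => (a y, off T y) = (a x, off T x) ∧ y i = s)).card : ℝ) with hn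
  have h1 : 0 < c := by rw [hc]; exact_mod_cast cls_pos _ hx
  have h2 : ∑ s, n s = c := by
    rw [hc, cls_eq, card_eq_sum_card_fiberwise (f := fun y => y i) (t := univ)
      fun _ _ => mem_coe.2 (mem_univ _), Nat.cast_sum]
    exact sum_congr rfl fun s _ => by rw [filter_filter]
  have h3 : ∀ s ∈ heavy Ω a T B x i, B * c ≤ Fintype.card A * n s := fun s hs => by
    unfold heavy at hs
    refine (mem_filter.1 hs).2.le.trans (le_of_eq ?_)
    simp only [hn]
    congr
  have h4 := card_nsmul_le_sum _ _ _ h3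
  have h5 : ∑ s ∈ heavy Ω a T B x i, n s ≤ c :=
    h2 ▸ sum_le_sum_of_subset_of_nonneg (subset_univ _) fun s _ _ => Nat.cast_nonneg _
  rw [← mul_sum, nsmul_eq_mul] at h4
  have h6 := mul_le_mul_of_nonneg_left h5 (Nat.cast_nonneg (α := ℝ) (Fintype.card A))
  refine le_of_mul_le_mul_right ?_ h1
  linarith

omit [Fintype ι] [DecidableEq A] in
theorem heavy_congr {Γ : Type} (Ω : Finset (ι → A)) (a : (ι → A) → Γ) (T : Finset ι) (B : ℝ)
    {x y : ι → A} (h : a x = a y) (h' : ∀ i, i ∉ T → x i = y i) :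
    heavy Ω a T B x = heavy Ω a T B y := by
  have e : (a x, off T x) = (a y, off T y) := Prod.ext h ((off_eq_iff T x y).2 h')
  funext i
  unfold heavy
  rw [cls_eq_of_eq (g := fun y => (a y, off T y)) e, e]

omit [Fintype ι] [DecidableEq A] in
theorem not_mem_heavy {Γ : Type} (Ω : Finset (ι → A)) (a : (ι → A) → Γ) (T : Finset ι) (B : ℝ)
    {x : ι → A} {i : ι} (hi : i ∈ T) (h : x i ∉ heavy Ω a T B x i) :
    (Fintype.card A : ℝ) * (cls Ω (fun y => (a y, off (T.erase i) y)) x : ℝ) ≤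
      B * (cls Ω (fun y => (a y, off T y)) x : ℝ) := by
  classical
  unfold heavy at h
  rw [mem_filter, not_and, not_lt] at h
  refine le_trans (le_of_eq ?_) (h (mem_univ _))
  rw [cls_eq]
  congr 3
  ext y
  simp only [mem_filter, Prod.mk.injEq, off_eq_iff, mem_erase, not_and]
  refine and_congr_right fun _ => ⟨fun k => ⟨⟨k.1, fun j hj => k.2 j fun _ => hj⟩,
    k.2 i fun k1 => absurd rfl k1⟩, fun k => ⟨k.1.1, fun j hj => ?_⟩⟩
  by_cases e : j = i
  · exact e ▸ k.2
  · exact k.1.2 j (hj e)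

end Pool.Agent.Work.MP_807b32_lc.Sem
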