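import Pool.Agent.Work.MP_807b32_lc.Sem.Base

/-!
Random subsets `lev Q l` of the sites: each site gets an independent uniform level in `Λ`, and is
kept when its level lies in `Q`; the density is `θ = Q.card / card Λ`.

Plan.
* `level_one`: split `l` into `l i` and the rest (`Equiv.funSplitAt` / `Equiv.piSplitAt`), or
  double count pairs `(l, s)` with the involution `(l, s) ↦ (update l i s, l i)`.
* `lev_second`: expand the square as a double sum of `w i * w i' * 1[l i ∈ Q] * 1[l i' ∈ Q]`;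
  for `i ≠ i'` apply `level_one` twice, for `i = i'` once and use `w i ^ 2 ≤ w i`.
* `lev_var`: expand; first moment `θ N`, second moment at most `θ^2 N^2 + θ N`
  (`lev_second` with `w = 1`, `W = N`).
-/

namespace Pool.Agent.Work.MP_807b32_lc.Sem

open Finset

variable {ι Λ : Type} [Fintype ι] [DecidableEq ι] [Fintype Λ] [DecidableEq Λ]

theorem level_one (Q : Finset Λ) (θ : ℝ) (hθ : θ * Fintype.card Λ = Q.card) (i : ι)
    (g : (ι → Λ) → ℝ) (hg : ∀ l s, g (Function.update l i s) = g l) :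
    ∑ l : ι → Λ, (if l i ∈ Q then g l else 0) = θ * ∑ l : ι → Λ, g l := by
  classical
  rcases isEmpty_or_nonempty Λ with hΛ | ⟨⟨s0⟩⟩
  · have : IsEmpty (ι → Λ) := ⟨fun l => hΛ.elim (l i)⟩
    simp
  let e := Equiv.funSplitAt i Λ
  have h1 : ∀ s r, e.symm (s, r) i = s := by
    intro s r
    simp [e, Equiv.funSplitAt, Equiv.piSplitAt]
  have h2 : ∀ s r, g (e.symm (s, r)) = g (e.symm (s0, r)) := by
    intro s r
    rw [← hg (e.symm (s0, r)) s]
    congr 1
    funext j
    by_cases hj : j = i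
    · subst hj
      simp [h1]
    · simp [e, Equiv.funSplitAt, Equiv.piSplitAt, hj]
  rw [← e.symm.sum_comp, ← e.symm.sum_comp (fun l => g l), Fintype.sum_prod_type_right,
    Fintype.sum_prod_type_right, Finset.mul_sum]
  refine Finset.sum_congr rfl fun r _ => ?_
  simp only [h1, h2]
  rw [← Finset.sum_filter, Finset.sum_const, Finset.sum_const, nsmul_eq_mul, nsmul_eq_mul,
    Finset.card_univ, ← mul_assoc, hθ]
  congr 2
  congr 1
  ext s
  simp

theorem lev_first (Q : Finset Λ) (θ : ℝ) (hθ : θ * Fintype.card Λ = Q.card) :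
    ∑ l : ι → Λ, ((lev Q l).card : ℝ) = θ * Fintype.card ι * Fintype.card (ι → Λ) := by
  have h : ∀ l : ι → Λ, ((lev Q l).card : ℝ) = ∑ i, if l i ∈ Q then (1 : ℝ) else 0 := by
    intro l
    simp [lev]
  simp only [h]
  rw [Finset.sum_comm]
  have h2 : ∀ i, ∑ l : ι → Λ, (if l i ∈ Q then (1 : ℝ) else 0) = θ * Fintype.card (ι → Λ) := by
    intro i
    rw [level_one Q θ hθ i (fun _ => 1) (fun _ _ => rfl)]
    simp
  simp only [h2]
  rw [Finset.sum_const, nsmul_eq_mul, Finset.card_univ]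
  ring

theorem lev_second (Q : Finset Λ) (θ : ℝ) (hθ : θ * Fintype.card Λ = Q.card) (hθ0 : 0 ≤ θ)
    (w : ι → ℝ) (hw0 : ∀ i, 0 ≤ w i) (hw1 : ∀ i, w i ≤ 1) (W : ℝ) (hW : ∑ i, w i ≤ W) :
    ∑ l : ι → Λ, (∑ i ∈ lev Q l, w i) ^ 2 ≤ (θ ^ 2 * W ^ 2 + θ * W) * Fintype.card (ι → Λ) := by
  have h : ∀ l : ι → Λ, (∑ i ∈ lev Q l, w i) ^ 2 =
      ∑ i, ∑ j, w i * w j * (if l i ∈ Q then (if l j ∈ Q then (1 : ℝ) else 0) else 0) := by
    intro l
    rw [lev, Finset.sum_filter, sq, Finset.sum_mul_sum]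
    refine Finset.sum_congr rfl fun i _ => Finset.sum_congr rfl fun j _ => ?_
    split_ifs <;> simp
  simp only [h]
  set M : ℝ := (Fintype.card (ι → Λ) : ℝ) with hM
  have hM0 : 0 ≤ M := Nat.cast_nonneg _
  have h1 : ∀ i, ∑ l : ι → Λ, (if l i ∈ Q then (1 : ℝ) else 0) = θ * M := by
    intro i
    rw [level_one Q θ hθ i (fun _ => 1) (fun _ _ => rfl)]
    simp [hM]
  have h2 : ∀ i j, ∑ l : ι → Λ,
      w i * w j * (if l i ∈ Q then (if l j ∈ Q then (1 : ℝ) else 0) else 0) ≤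
        w i * w j * (θ ^ 2 * M) + (if i = j then w i * (θ * M) else 0) := by
    intro i j
    rw [← Finset.mul_sum]
    have hij := mul_nonneg (hw0 i) (hw0 j)
    by_cases hij' : i = j
    · subst hij'
      have e1 : ∀ l : ι → Λ, (if l i ∈ Q then (if l i ∈ Q then (1 : ℝ) else 0) else 0) =
          if l i ∈ Q then (1 : ℝ) else 0 := by
        intro l
        split_ifs <;> rfl
      simp only [e1, h1, if_true]
      have a1 : w i * w i ≤ w i := by nlinarith [hw0 i, hw1 i]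
      have a2 : 0 ≤ θ * M := mul_nonneg hθ0 hM0
      have a3 : 0 ≤ w i * w i * (θ ^ 2 * M) := mul_nonneg hij (mul_nonneg (sq_nonneg _) hM0)
      have a4 := mul_le_mul_of_nonneg_right a1 a2
      linarith
    · rw [level_one Q θ hθ i (fun l => if l j ∈ Q then (1 : ℝ) else 0), h1, if_neg hij']
      · apply le_of_eq
        ring
      · intro l s
        rw [Function.update_of_ne (Ne.symm hij')]
  rw [Finset.sum_comm]
  have h3 : ∀ i, ∑ l : ι → Λ, ∑ j,
      w i * w j * (if l i ∈ Q then (if l j ∈ Q then (1 : ℝ) else 0) else 0) ≤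
        w i * (∑ j, w j) * (θ ^ 2 * M) + w i * (θ * M) := by
    intro i
    rw [Finset.sum_comm]
    refine (Finset.sum_le_sum fun j _ => h2 i j).trans (le_of_eq ?_)
    rw [Finset.sum_add_distrib, Finset.sum_ite_eq, if_pos (Finset.mem_univ _), ← Finset.sum_mul,
      ← Finset.mul_sum]
  refine (Finset.sum_le_sum fun i _ => h3 i).trans ?_
  rw [Finset.sum_add_distrib, ← Finset.sum_mul, ← Finset.sum_mul, ← Finset.sum_mul]
  have hS : 0 ≤ ∑ j, w j := Finset.sum_nonneg fun j _ => hw0 j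
  set S := ∑ j, w j
  have a1 : S * S ≤ W * W := mul_self_le_mul_self hS hW
  have a2 := mul_le_mul_of_nonneg_right a1 (mul_nonneg (sq_nonneg θ) hM0)
  have a3 := mul_le_mul_of_nonneg_right hW (mul_nonneg hθ0 hM0)
  nlinarith

theorem lev_var (Q : Finset Λ) (θ : ℝ) (hθ : θ * Fintype.card Λ = Q.card) (hθ0 : 0 ≤ θ) :
    ∑ l : ι → Λ, (((lev Q l).card : ℝ) - θ * Fintype.card ι) ^ 2 ≤
      θ * Fintype.card ι * Fintype.card (ι → Λ) := by
  have h1 := lev_first (ι := ι) Q θ hθ
  have h2 := lev_second (ι := ι) Q θ hθ hθ0 (fun _ => 1) (fun _ => zero_le_one) (fun _ => le_rfl)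
    (Fintype.card ι) (by simp)
  simp only [Finset.sum_const, nsmul_eq_mul, mul_one] at h2
  have h3 : ∀ l : ι → Λ, (((lev Q l).card : ℝ) - θ * Fintype.card ι) ^ 2 =
      ((lev Q l).card : ℝ) ^ 2 - 2 * (θ * Fintype.card ι) * ((lev Q l).card : ℝ) +
        (θ * Fintype.card ι) ^ 2 := by
    intro l
    ring
  simp only [h3]
  rw [Finset.sum_add_distrib, Finset.sum_sub_distrib, ← Finset.mul_sum, h1, Finset.sum_const,
    nsmul_eq_mul, Finset.card_univ]
  nlinarith

end Pool.Agent.Work.MP_807b32_lc.Sem
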