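import Pool.Agent.Work.MP_807b32_lc.Sem.Fixed
import Pool.Agent.Work.MP_807b32_lc.Sem.Levels
import Pool.Agent.Work.MP_807b32_lc.Sem.LemG

/-!
Averaging over the levels and over the set `I` of segments.
-/

namespace Pool.Agent.Work.MP_807b32_lc.Sem

open Finset

theorem avg_div_four (m : ℕ) : (m : ℝ) / 4 - 1 ≤ ((m / 4 : ℕ) : ℝ) := by
  have h1 : m ≤ 4 * (m / 4) + 3 := by omega
  have h2 : (m : ℝ) ≤ 4 * ((m / 4 : ℕ) : ℝ) + 3 := by exact_mod_cast h1
  linarith

theorem avg_point {ι J : Type} [DecidableEq ι] [Fintype J] [DecidableEq J] (T : Finset ι)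
    (K : ι → Finset J) (k₀ : ℕ) (hk : 0 < k₀) (t s : ℝ) (ht : 0 < t) (hs : 0 < s) :
    (2 : ℝ) ^ Fintype.card J * ((1 / 4) ^ k₀ * ((T.card : ℝ)
        - (1 / (s * k₀) + 2 / t) * ∑ j, ((T.filter (fun i => j ∈ K i)).card : ℝ) ^ 2
        - Fintype.card J * s / k₀ - Fintype.card J * (2 * ((T.card : ℝ) - t) ^ 2 / t)) / 4 - 1) ≤
      ∑ I : Finset J, ((min (T.filter (fun i => K i ⊆ I)).card
        (T.filter (fun i => Disjoint (K i) I)).card / 4 : ℕ) : ℝ) := by
  have hm := min_bound T K k₀ hk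
  have hk' : (0 : ℝ) < k₀ := by exact_mod_cast hk
  set h : J → ℝ := fun j => ((T.filter (fun i => j ∈ K i)).card : ℝ) with hh
  have h1 : 2 * (∑ j, h j) / k₀ ≤ 1 / (s * k₀) * ∑ j, h j ^ 2 + Fintype.card J * s / k₀ := by
    have : ∀ j, 2 * h j ≤ h j ^ 2 / s + s := by
      intro j
      rw [div_add' _ _ _ hs.ne', le_div_iff₀ hs]
      nlinarith [sq_nonneg (h j - s)]
    have h2 : 2 * ∑ j, h j ≤ (∑ j, h j ^ 2) / s + Fintype.card J * s := by
      rw [Finset.mul_sum, Finset.sum_div]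
      refine (Finset.sum_le_sum fun j _ => this j).trans ?_
      rw [Finset.sum_add_distrib]
      simp
    calc 2 * (∑ j, h j) / k₀ ≤ ((∑ j, h j ^ 2) / s + Fintype.card J * s) / k₀ :=
          div_le_div_of_nonneg_right h2 hk'.le
      _ = _ := by field_simp
  have h3 : (∑ j, h j ^ 2) / T.card ≤
      2 / t * ∑ j, h j ^ 2 + Fintype.card J * (2 * ((T.card : ℝ) - t) ^ 2 / t) := by
    rw [Finset.sum_div, Finset.mul_sum]
    have : ∀ j, h j ^ 2 / T.card ≤ 2 / t * h j ^ 2 + 2 * ((T.card : ℝ) - t) ^ 2 / t := by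
      intro j
      have := sq_div_le (h j) T.card t (Nat.cast_nonneg _)
        (by simp only [hh]; exact_mod_cast Finset.card_filter_le _ _) ht
      calc _ ≤ _ := this
        _ = _ := by ring
    refine (Finset.sum_le_sum fun j _ => this j).trans ?_
    rw [Finset.sum_add_distrib]
    simp
  have h4 : ∑ I : Finset J, (((min (T.filter (fun i => K i ⊆ I)).card
        (T.filter (fun i => Disjoint (K i) I)).card : ℕ) : ℝ) / 4 - 1) ≤
      ∑ I : Finset J, ((min (T.filter (fun i => K i ⊆ I)).card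
        (T.filter (fun i => Disjoint (K i) I)).card / 4 : ℕ) : ℝ) :=
    Finset.sum_le_sum fun I _ => avg_div_four _
  refine le_trans ?_ h4
  rw [Finset.sum_sub_distrib, ← Finset.sum_div]
  simp only [Finset.sum_const, Finset.card_univ, Fintype.card_finset, nsmul_eq_mul, mul_one]
  push_cast
  have h5 : (1 / 4 : ℝ) ^ k₀ * ((T.card : ℝ) - (1 / (s * k₀) + 2 / t) * ∑ j, h j ^ 2
        - Fintype.card J * s / k₀ - Fintype.card J * (2 * ((T.card : ℝ) - t) ^ 2 / t)) ≤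
      (1 / 4 : ℝ) ^ k₀ * ((T.card : ℝ) - 2 * (∑ j, h j) / k₀ - (∑ j, h j ^ 2) / T.card) := by
    apply mul_le_mul_of_nonneg_left _ (by positivity)
    linarith
  have h6 := mul_le_mul_of_nonneg_left h5 (by positivity : (0 : ℝ) ≤ 2 ^ Fintype.card J)
  push_cast at hm
  linarith

theorem avg {ι A J Λ : Type} [Fintype ι] [DecidableEq ι] [Fintype A] [DecidableEq A]
    [Nonempty A] [Fintype J] [DecidableEq J] [Fintype Λ] [DecidableEq Λ] [Nonempty Λ]
    (Ω : Finset (ι → A)) (L : J → Set (ι → Finset A)) (α : J → (ι → A) → ι → Finset A)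
    (hL : ∀ j, ∀ x ∈ Ω, α j x ∈ L j) (h0 : ∀ j, ∀ x ∈ Ω, Sat (α j x) x)
    (B : ℝ) (hB : 1 ≤ B) (Δ : ℝ)
    (hΔ : (Fintype.card A : ℝ) ^ Fintype.card ι * Real.exp (-Δ) ≤ Ω.card)
    (Q : Finset Λ) (θ : ℝ) (hθ : θ * Fintype.card Λ = Q.card) (hθ0 : 0 ≤ θ)
    (t : ℝ) (ht : t = θ * Fintype.card ι) (ht0 : 0 < t) (s : ℝ) (hs : 0 < s)
    (hmom : ∀ j, ∑ l : ι → Λ, ∑ x ∈ Ω,
        (((lev Q l).filter (fun i => x i ∈ heavy Ω (α j) (lev Q l) B x i)).card : ℝ) ^ 2 ≤
      s ^ 2 * (Fintype.card (ι → Λ) * Ω.card))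
    (τ : ℝ) (hτ : ∑ l : ι → Λ, ∑ j, TC (Phi Ω (α j)) (lev Q l) ≤
      τ * (Fintype.card (ι → Λ) * Ω.card))
    (k₀ : ℕ) (hk : 0 < k₀) (n : ℝ)
    (hbal : Δ + t * Real.log 4 + Fintype.card J * (t * Real.log B + t * Real.log 4) + n + τ ≤
      ((1 / 4) ^ k₀ * (t - 2 * (Fintype.card J * s) / k₀ -
          Fintype.card J * (2 * s ^ 2 / t + 2)) / 4 - 1) * Real.log (Fintype.card A) / 16) :
    ∃ ρ : ℕ, Cyl (fun x => ∀ j, ∃ F ∈ L j, Sat F x) ρ
      (Real.exp (n - ρ * Real.log (Fintype.card A) / 16)) := by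
  classical
  have hD1 : (1 : ℝ) ≤ Fintype.card A := by exact_mod_cast Fintype.card_pos
  have hLD : 0 ≤ Real.log (Fintype.card A) := Real.log_nonneg hD1
  have hk' : (0 : ℝ) < k₀ := by exact_mod_cast hk
  set K : (ι → Λ) → (ι → A) → ι → Finset J := fun l x i =>
    univ.filter (fun j => x i ∈ heavy Ω (α j) (lev Q l) B x i) with hK
  set SA : (ι → Λ) → Finset J → (ι → A) → Finset ι := fun l I x =>
    (lev Q l).filter (fun i => K l x i ⊆ I) with hSA
  set SB : (ι → Λ) → Finset J → (ι → A) → Finset ι := fun l I x =>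
    (lev Q l).filter (fun i => Disjoint (K l x i) I) with hSB
  set nl : ℝ := (Fintype.card (ι → Λ) : ℝ) with hnl
  set w : ℝ := (Ω.card : ℝ) with hw
  set r : ℝ := (Fintype.card J : ℝ) with hr
  set LD : ℝ := Real.log (Fintype.card A) with hLDdef
  set z : ℝ := (2 : ℝ) ^ Fintype.card J with hz
  have hz0 : 0 < z := by positivity
  have hw0 : 0 ≤ w := Nat.cast_nonneg _
  have hr0 : 0 ≤ r := Nat.cast_nonneg _
  have hnl0 : 0 ≤ nl := Nat.cast_nonneg _
  have hf : ∑ l : ι → Λ, ((lev Q l).card : ℝ) = t * nl := by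
    rw [lev_first Q θ hθ, ht]
  have hv : ∑ l : ι → Λ, (((lev Q l).card : ℝ) - t) ^ 2 ≤ t * nl := by
    have := lev_var (ι := ι) Q θ hθ hθ0
    rw [← ht] at this
    exact this
  have hfil : ∀ l x j, (lev Q l).filter (fun i => j ∈ K l x i) =
      (lev Q l).filter (fun i => x i ∈ heavy Ω (α j) (lev Q l) B x i) := by
    intro l x j
    apply Finset.filter_congr
    intro i _
    simp [hK]
  -- total of the integer parts
  have hH : ∑ l : ι → Λ, ∑ x ∈ Ω, ∑ j, (((lev Q l).filter (fun i => j ∈ K l x i)).card : ℝ) ^ 2 ≤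
      r * (s ^ 2 * (nl * w)) := by
    have e : ∑ l : ι → Λ, ∑ x ∈ Ω, ∑ j, (((lev Q l).filter (fun i => j ∈ K l x i)).card : ℝ) ^ 2 =
        ∑ j, ∑ l : ι → Λ, ∑ x ∈ Ω,
          (((lev Q l).filter (fun i => x i ∈ heavy Ω (α j) (lev Q l) B x i)).card : ℝ) ^ 2 := by
      simp only [hfil]
      symm
      rw [Finset.sum_comm]
      apply Finset.sum_congr rfl
      intro l _
      rw [Finset.sum_comm]
    rw [e]
    refine (Finset.sum_le_sum fun j _ => hmom j).trans ?_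
    simp [hr]
  have hρ : z * ((1 / 4) ^ k₀ * (t - 2 * (r * s) / k₀ - r * (2 * s ^ 2 / t + 2)) / 4 - 1) * (nl * w) ≤
      ∑ l : ι → Λ, ∑ I : Finset J, ∑ x ∈ Ω,
        ((min (SA l I x).card (SB l I x).card / 4 : ℕ) : ℝ) := by
    have h1 : ∑ l : ι → Λ, ∑ x ∈ Ω, z * ((1 / 4) ^ k₀ * (((lev Q l).card : ℝ)
        - (1 / (s * k₀) + 2 / t) * ∑ j, (((lev Q l).filter (fun i => j ∈ K l x i)).card : ℝ) ^ 2
        - r * s / k₀ - r * (2 * (((lev Q l).card : ℝ) - t) ^ 2 / t)) / 4 - 1) ≤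
        ∑ l : ι → Λ, ∑ I : Finset J, ∑ x ∈ Ω,
          ((min (SA l I x).card (SB l I x).card / 4 : ℕ) : ℝ) := by
      apply Finset.sum_le_sum
      intro l _
      rw [Finset.sum_comm]
      apply Finset.sum_le_sum
      intro x _
      exact avg_point (lev Q l) (K l x) k₀ hk t s ht0 hs
    refine le_trans ?_ h1
    have e : ∑ l : ι → Λ, ∑ x ∈ Ω, z * ((1 / 4) ^ k₀ * (((lev Q l).card : ℝ)
        - (1 / (s * k₀) + 2 / t) * ∑ j, (((lev Q l).filter (fun i => j ∈ K l x i)).card : ℝ) ^ 2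
        - r * s / k₀ - r * (2 * (((lev Q l).card : ℝ) - t) ^ 2 / t)) / 4 - 1) =
        z * ((1 / 4) ^ k₀ * (w * ∑ l : ι → Λ, ((lev Q l).card : ℝ)
        - (1 / (s * k₀) + 2 / t) * ∑ l : ι → Λ, ∑ x ∈ Ω,
            ∑ j, (((lev Q l).filter (fun i => j ∈ K l x i)).card : ℝ) ^ 2
        - r * s / k₀ * (nl * w) -
          r * (2 / t) * w * ∑ l : ι → Λ, (((lev Q l).card : ℝ) - t) ^ 2) / 4 - nl * w) := by
      simp only [mul_sub, sub_div, Finset.sum_sub_distrib, Finset.sum_const, nsmul_eq_mul,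
        Finset.card_univ, ← Finset.mul_sum, ← Finset.sum_div, ← hw, ← hnl]
      ring
    rw [e, hf, mul_assoc z]
    apply mul_le_mul_of_nonneg_left _ hz0.le
    have a1 : (1 / (s * k₀) + 2 / t) * ∑ l : ι → Λ, ∑ x ∈ Ω,
        ∑ j, (((lev Q l).filter (fun i => j ∈ K l x i)).card : ℝ) ^ 2 ≤
        (1 / (s * k₀) + 2 / t) * (r * (s ^ 2 * (nl * w))) :=
      mul_le_mul_of_nonneg_left hH (by positivity)
    have a2 : r * (2 / t) * w * ∑ l : ι → Λ, (((lev Q l).card : ℝ) - t) ^ 2 ≤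
        r * (2 / t) * w * (t * nl) := mul_le_mul_of_nonneg_left hv (by positivity)
    have a3 : (1 / (s * k₀) + 2 / t) * (r * (s ^ 2 * (nl * w))) =
        (r * s / k₀ + r * (2 * s ^ 2 / t)) * (nl * w) := by field_simp
    have a4 : r * (2 / t) * w * (t * nl) = 2 * r * (nl * w) := by field_simp
    have a5 : (t - 2 * (r * s) / k₀ - r * (2 * s ^ 2 / t + 2)) * (nl * w) ≤
        w * (t * nl) - (1 / (s * k₀) + 2 / t) * ∑ l : ι → Λ, ∑ x ∈ Ω,
            ∑ j, (((lev Q l).filter (fun i => j ∈ K l x i)).card : ℝ) ^ 2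
        - r * s / k₀ * (nl * w) -
          r * (2 / t) * w * ∑ l : ι → Λ, (((lev Q l).card : ℝ) - t) ^ 2 := by
      rw [a3] at a1
      rw [a4] at a2
      have : (t - 2 * (r * s) / k₀ - r * (2 * s ^ 2 / t + 2)) * (nl * w) =
          w * (t * nl) - (r * s / k₀ + r * (2 * s ^ 2 / t)) * (nl * w) - r * s / k₀ * (nl * w) -
            2 * r * (nl * w) := by ring
      rw [this]
      linarith
    have a6 := mul_le_mul_of_nonneg_left a5 (by positivity : (0 : ℝ) ≤ (1 / 4) ^ k₀)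
    nlinarith [a6]
  have hcost : ∑ l : ι → Λ, ∑ _I : Finset J, (w * (Δ + (lev Q l).card * Real.log 4 +
          r * ((lev Q l).card * Real.log B + (lev Q l).card * Real.log 4) + n) +
        ∑ j, TC (Phi Ω (α j)) (lev Q l)) ≤
      z * (Δ + t * Real.log 4 + r * (t * Real.log B + t * Real.log 4) + n + τ) * (nl * w) := by
    have e : ∑ l : ι → Λ, ∑ _I : Finset J, (w * (Δ + (lev Q l).card * Real.log 4 +
          r * ((lev Q l).card * Real.log B + (lev Q l).card * Real.log 4) + n) +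
        ∑ j, TC (Phi Ω (α j)) (lev Q l)) =
        z * (w * ((Δ + n) * nl + (Real.log 4 + r * (Real.log B + Real.log 4)) *
          ∑ l : ι → Λ, ((lev Q l).card : ℝ)) + ∑ l : ι → Λ, ∑ j, TC (Phi Ω (α j)) (lev Q l)) := by
      simp only [Finset.sum_const, Finset.card_univ, Fintype.card_finset, nsmul_eq_mul]
      push_cast
      rw [← hz, ← Finset.mul_sum]
      congr 1
      rw [Finset.sum_add_distrib, ← Finset.mul_sum]
      congr 2
      simp only [Finset.sum_add_distrib, ← Finset.mul_sum, ← Finset.sum_mul, Finset.sum_const,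
        Finset.card_univ, nsmul_eq_mul, ← hnl]
      ring
    rw [e, hf, mul_assoc z]
    apply mul_le_mul_of_nonneg_left _ hz0.le
    nlinarith [hτ]
  have hex : ∃ (l : ι → Λ) (I : Finset J), w * (Δ + (lev Q l).card * Real.log 4 +
          r * ((lev Q l).card * Real.log B + (lev Q l).card * Real.log 4) + n) +
        ∑ j, TC (Phi Ω (α j)) (lev Q l) ≤
      ∑ x ∈ Ω, ((min (SA l I x).card (SB l I x).card / 4 : ℕ) : ℝ) * LD / 16 := by
    by_contra hcon
    push Not at hcon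
    have h1 : ∑ l : ι → Λ, ∑ I : Finset J,
        ∑ x ∈ Ω, ((min (SA l I x).card (SB l I x).card / 4 : ℕ) : ℝ) * LD / 16 <
        ∑ l : ι → Λ, ∑ _I : Finset J, (w * (Δ + (lev Q l).card * Real.log 4 +
          r * ((lev Q l).card * Real.log B + (lev Q l).card * Real.log 4) + n) +
        ∑ j, TC (Phi Ω (α j)) (lev Q l)) := by
      apply Finset.sum_lt_sum_of_nonempty Finset.univ_nonempty
      intro l _
      apply Finset.sum_lt_sum_of_nonempty Finset.univ_nonempty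
      intro I _
      exact hcon l I
    have h2 : ∑ l : ι → Λ, ∑ I : Finset J,
        ∑ x ∈ Ω, ((min (SA l I x).card (SB l I x).card / 4 : ℕ) : ℝ) * LD / 16 =
        (∑ l : ι → Λ, ∑ I : Finset J,
          ∑ x ∈ Ω, ((min (SA l I x).card (SB l I x).card / 4 : ℕ) : ℝ)) * LD / 16 := by
      simp only [← Finset.sum_div, ← Finset.sum_mul]
    have h3 := mul_le_mul_of_nonneg_right hρ (by positivity : 0 ≤ LD / 16)
    have h4 := mul_le_mul_of_nonneg_right hbal (by positivity : 0 ≤ z * (nl * w))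
    rw [h2] at h1
    nlinarith [h1, h3, h4, hcost]
  obtain ⟨l, I, hlI⟩ := hex
  apply fixed Ω L α hL h0 (lev Q l) I (SA l I) (SB l I) (fun x => Finset.filter_subset _ _)
    (fun x => Finset.filter_subset _ _) B hB _ _ Δ hΔ n hlI
  · intro j hj x _ i hi hh
    exact hj ((Finset.mem_filter.mp hi).2 (by simpa [hK] using hh))
  · intro j hj x _ i hi hh
    exact Finset.disjoint_left.mp (Finset.mem_filter.mp hi).2 (by simpa [hK] using hh) hj

end Pool.Agent.Work.MP_807b32_lc.Sem
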