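import Mathlib

/-!
Shared definitions for the proof: class sizes, the entropy functional, boxes and cylinder
intersections.
-/

namespace Pool.Agent.Work.MP_807b32_lc.Sem

open Finset

open Classical in
/-- Number of points of `Ω` with the same label as `x`. -/
noncomputable def cls {X Γ : Type} (Ω : Finset X) (g : X → Γ) (x : X) : ℕ :=
  (Ω.filter (fun y => g y = g x)).card

/-- Sum of the logarithms of the class sizes. -/
noncomputable def Lg {X Γ : Type} (Ω : Finset X) (g : X → Γ) : ℝ :=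
  ∑ x ∈ Ω, Real.log (cls Ω g x)

open Classical in
/-- Number of points with the property `P`. -/
noncomputable def cnt {X : Type} [Fintype X] (P : X → Prop) : ℕ := (univ.filter P).card

/-- The point `x` with the coordinates in `T` erased. -/
def off {ι A : Type} [DecidableEq ι] (T : Finset ι) (x : ι → A) : ι → Option A :=
  fun i => if i ∈ T then none else some (x i)

/-- The point `x` avoids the forbidden sets `F`. -/
def Sat {ι A : Type} (F : ι → Finset A) (x : ι → A) : Prop := ∀ i, x i ∉ F i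

/-- The property `F` does not depend on the coordinates in `S`. -/
def InvOn {ι A : Type} (S : Finset ι) (F : (ι → A) → Prop) : Prop :=
  ∀ z z', (∀ i, i ∉ S → z i = z' i) → F z → F z'

/-- A cylinder intersection of density at least `μ` on four sets of at least `ρ` sites, inside
the target `G`. -/
def Cyl {ι A : Type} [Fintype ι] [DecidableEq ι] [Fintype A] (G : (ι → A) → Prop) (ρ : ℕ)
    (μ : ℝ) : Prop :=
  ∃ (S₁ S₂ S₃ S₄ U : Finset ι) (F₁ F₂ F₃ F₄ : (ι → A) → Prop) (e : ι → A),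
    (ρ ≤ S₁.card ∧ ρ ≤ S₂.card ∧ ρ ≤ S₃.card ∧ ρ ≤ S₄.card) ∧
    (S₁ ⊆ U ∧ S₂ ⊆ U ∧ S₃ ⊆ U ∧ S₄ ⊆ U) ∧
    (InvOn S₁ F₁ ∧ InvOn S₂ F₂ ∧ InvOn S₃ F₃ ∧ InvOn S₄ F₄) ∧
    (∀ z, F₁ z → F₂ z → F₃ z → F₄ z → G (U.piecewise z e)) ∧
    μ * (Fintype.card A : ℝ) ^ Fintype.card ι ≤ cnt (fun z => F₁ z ∧ F₂ z ∧ F₃ z ∧ F₄ z)

/-- Conditional entropy of the coordinates in `T` given the label `a` and the other
coordinates, multiplied by the number of points. -/
noncomputable def Phi {ι A Γ : Type} [DecidableEq ι] (Ω : Finset (ι → A)) (a : (ι → A) → Γ)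
    (T : Finset ι) : ℝ :=
  Lg Ω (fun x => (a x, off T x))

/-- Total correlation of a set function on `T`. -/
noncomputable def TC {ι : Type} [DecidableEq ι] (Φ : Finset ι → ℝ) (T : Finset ι) : ℝ :=
  ∑ i ∈ T, (Φ T - Φ (T.erase i)) - Φ T

/-- The sites whose level lies in `Q`. -/
def lev {ι Λ : Type} [Fintype ι] [DecidableEq Λ] (Q : Finset Λ) (l : ι → Λ) : Finset ι :=
  univ.filter (fun i => l i ∈ Q)

open Classical in
/-- The symbols that are likely at site `i` given the label `a` and the coordinates off `T`. -/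
noncomputable def heavy {ι A Γ : Type} [DecidableEq ι] [Fintype A] (Ω : Finset (ι → A))
    (a : (ι → A) → Γ) (T : Finset ι) (B : ℝ) (x : ι → A) (i : ι) : Finset A :=
  univ.filter (fun s => B * (cls Ω (fun y => (a y, off T y)) x : ℝ) <
    (Fintype.card A : ℝ) *
      ((Ω.filter (fun y => (a y, off T y) = (a x, off T x) ∧ y i = s)).card : ℝ))

theorem off_eq_iff {ι A : Type} [DecidableEq ι] (T : Finset ι) (x y : ι → A) :
    off T x = off T y ↔ ∀ i, i ∉ T → x i = y i := by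
  constructor
  · intro h i hi
    have := congrFun h i
    simpa [off, hi] using this
  · intro h
    funext i
    by_cases hi : i ∈ T
    · simp [off, hi]
    · simp [off, hi, h i hi]

theorem cls_eq {X Γ : Type} (Ω : Finset X) (g : X → Γ) (x : X)
    [DecidablePred (fun y => g y = g x)] :
    cls Ω g x = (Ω.filter (fun y => g y = g x)).card := by
  unfold cls
  congr

theorem cnt_eq {X : Type} [Fintype X] (P : X → Prop) [DecidablePred P] :
    cnt P = (univ.filter P).card := by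
  unfold cnt
  congr

theorem cls_pos {X Γ : Type} {Ω : Finset X} (g : X → Γ) {x : X} (hx : x ∈ Ω) :
    0 < cls Ω g x := by
  classical
  rw [cls_eq]
  exact Finset.card_pos.mpr ⟨x, by simp [hx]⟩

theorem cls_mono {X Γ Γ' : Type} {Ω : Finset X} {g : X → Γ} {c : X → Γ'} {x : X}
    (h : ∀ y ∈ Ω, g y = g x → c y = c x) : cls Ω g x ≤ cls Ω c x := by
  classical
  rw [cls_eq, cls_eq]
  apply Finset.card_le_card
  intro y hy
  rw [Finset.mem_filter] at hy ⊢
  exact ⟨hy.1, h y hy.1 hy.2⟩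

theorem cls_congr {X Γ Γ' : Type} {Ω : Finset X} {g : X → Γ} {c : X → Γ'} {x : X}
    (h : ∀ y ∈ Ω, g y = g x ↔ c y = c x) : cls Ω g x = cls Ω c x :=
  le_antisymm (cls_mono fun y hy => (h y hy).1) (cls_mono fun y hy => (h y hy).2)

theorem cls_eq_of_eq {X Γ : Type} {Ω : Finset X} {g : X → Γ} {x x' : X} (h : g x = g x') :
    cls Ω g x = cls Ω g x' := by
  unfold cls
  rw [h]

theorem cls_le_card {X Γ : Type} (Ω : Finset X) (g : X → Γ) (x : X) : cls Ω g x ≤ Ω.card := by
  classical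
  rw [cls_eq]
  exact Finset.card_filter_le _ _

theorem Lg_nonneg {X Γ : Type} (Ω : Finset X) (g : X → Γ) : 0 ≤ Lg Ω g :=
  Finset.sum_nonneg fun _ _ => Real.log_natCast_nonneg _

theorem Lg_mono {X Γ Γ' : Type} {Ω : Finset X} {g : X → Γ} {c : X → Γ'}
    (h : ∀ x ∈ Ω, ∀ y ∈ Ω, g y = g x → c y = c x) : Lg Ω g ≤ Lg Ω c := by
  apply Finset.sum_le_sum
  intro x hx
  apply Real.log_le_log
  · exact_mod_cast cls_pos g hx
  · exact_mod_cast cls_mono (h x hx)

theorem Lg_congr {X Γ Γ' : Type} {Ω : Finset X} {g : X → Γ} {c : X → Γ'}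
    (h : ∀ x ∈ Ω, ∀ y ∈ Ω, g y = g x ↔ c y = c x) : Lg Ω g = Lg Ω c :=
  le_antisymm (Lg_mono fun x hx y hy => (h x hx y hy).1) (Lg_mono fun x hx y hy => (h x hx y hy).2)

theorem Cyl.mono {ι A : Type} [Fintype ι] [DecidableEq ι] [Fintype A] {G G' : (ι → A) → Prop}
    {ρ : ℕ} {μ : ℝ} (h : Cyl G ρ μ) (hG : ∀ x, G x → G' x) : Cyl G' ρ μ := by
  obtain ⟨S₁, S₂, S₃, S₄, U, F₁, F₂, F₃, F₄, e, h1, h2, h3, h4, h5⟩ := h
  exact ⟨S₁, S₂, S₃, S₄, U, F₁, F₂, F₃, F₄, e, h1, h2, h3,
    fun z a b c d => hG _ (h4 z a b c d), h5⟩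

end Pool.Agent.Work.MP_807b32_lc.Sem
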