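import Pool.Agent.Work.MP_807b32_lc.Sem.Levels

/-!
Correlation rounding: at some level the total correlation is small.

Plan. Put `m j i T = Φ j (insert i T) - Φ j (T.erase i)`, in `[0, b]`; it does not change when the
level of `i` is changed (both `insert i` and `erase i` of `lev Q l` are unchanged).
* `super_sum`: induction on `R`: adding `i` to `T' ∪ R` gains at least `Φ (insert i T') - Φ T'`.
* Let `Q k` be the levels below `M ^ (M - k)`, of density `θ k = 1 / M ^ k`, `T k = lev (Q k) l`,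
  decreasing in `k`. From `super_sum` with `R = T k \ T (k+1) = lev (Q k \ Q (k+1)) l`,
  `TC (Φ j) (T k) ≤ ∑ i ∈ T k, m j i (T k) - ∑ i ∈ R, m j i (T (k+1))`.
  Summing over `l` with `level_one`, and `β k = ∑ j, ∑ i, ∑ l, m j i (T k)`, which lies in
  `[0, Bmax]` with `Bmax = card J * card ι * b * card (ι → Λ)`:
  `∑ l, ∑ j, TC ≤ θ k * β k - (θ k - θ (k+1)) * β (k+1) ≤ θ k * ((β k - β (k+1)) + Bmax / M)`.
  Telescoping, some `k < M` has `β k - β (k+1) ≤ Bmax / M`.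
-/

namespace Pool.Agent.Work.MP_807b32_lc.Sem

open Finset

theorem super_sum {ι : Type} [DecidableEq ι] (Φ : Finset ι → ℝ)
    (hs : ∀ T T' i, T ⊆ T' → i ∉ T' → Φ (insert i T) - Φ T ≤ Φ (insert i T') - Φ T')
    (T' R : Finset ι) (hR : Disjoint R T') :
    Φ T' + ∑ i ∈ R, (Φ (insert i T') - Φ T') ≤ Φ (T' ∪ R) := by
  induction R using Finset.induction_on with
  | empty => simp
  | insert i R hi ih =>
    rw [Finset.disjoint_insert_left] at hR
    have h1 := ih hR.2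
    have h2 := hs T' (T' ∪ R) i Finset.subset_union_left (by
      rw [Finset.mem_union]
      rintro (h | h)
      · exact hR.1 h
      · exact hi h)
    rw [Finset.sum_insert hi, Finset.union_insert]
    linarith

theorem corr_mem_lev {ι Λ : Type} [Fintype ι] [DecidableEq Λ] (Q : Finset Λ) (l : ι → Λ)
    (i : ι) : i ∈ lev Q l ↔ l i ∈ Q := by
  simp [lev]

theorem corr_insert {ι Λ : Type} [Fintype ι] [DecidableEq ι] [DecidableEq Λ] (Q : Finset Λ)
    (l : ι → Λ) (i : ι) (s : Λ) :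
    insert i (lev Q (Function.update l i s)) = insert i (lev Q l) := by
  ext k
  by_cases hk : k = i
  · simp [hk]
  · simp [hk, corr_mem_lev]

theorem corr_erase {ι Λ : Type} [Fintype ι] [DecidableEq ι] [DecidableEq Λ] (Q : Finset Λ)
    (l : ι → Λ) (i : ι) (s : Λ) :
    (lev Q (Function.update l i s)).erase i = (lev Q l).erase i := by
  ext k
  by_cases hk : k = i
  · simp [hk]
  · simp [hk, corr_mem_lev]

theorem corr_sum_lev {ι Λ : Type} [Fintype ι] [DecidableEq ι] [Fintype Λ] [DecidableEq Λ]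
    (Q Q' : Finset Λ) (θ : ℝ) (hθ : θ * Fintype.card Λ = Q.card) (Φ : Finset ι → ℝ) :
    ∑ l : ι → Λ, ∑ i ∈ lev Q l, (Φ (insert i (lev Q' l)) - Φ ((lev Q' l).erase i)) =
      θ * ∑ i, ∑ l : ι → Λ, (Φ (insert i (lev Q' l)) - Φ ((lev Q' l).erase i)) := by
  have h1 : ∀ l : ι → Λ, ∑ i ∈ lev Q l, (Φ (insert i (lev Q' l)) - Φ ((lev Q' l).erase i)) =
      ∑ i, if l i ∈ Q then (Φ (insert i (lev Q' l)) - Φ ((lev Q' l).erase i)) else 0 := by
    intro l
    rw [← Finset.sum_filter]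
    rfl
  rw [Finset.sum_congr rfl (fun l _ => h1 l), Finset.sum_comm, Finset.mul_sum]
  refine Finset.sum_congr rfl (fun i _ => ?_)
  exact level_one Q θ hθ i (fun l => Φ (insert i (lev Q' l)) - Φ ((lev Q' l).erase i))
    (fun l s => by simp only [corr_insert, corr_erase])

theorem corr_step {ι Λ : Type} [Fintype ι] [DecidableEq ι] [Fintype Λ] [DecidableEq Λ]
    (Q Q' : Finset Λ) (hQ : Q' ⊆ Q) (θ θ' : ℝ) (hθ : θ * Fintype.card Λ = Q.card)
    (hθ' : θ' * Fintype.card Λ = Q'.card) (Φ : Finset ι → ℝ) (h0 : ∀ T, 0 ≤ Φ T)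
    (hs : ∀ T T' i, T ⊆ T' → i ∉ T' → Φ (insert i T) - Φ T ≤ Φ (insert i T') - Φ T') :
    ∑ l : ι → Λ, TC Φ (lev Q l) ≤
      θ * (∑ i, ∑ l : ι → Λ, (Φ (insert i (lev Q l)) - Φ ((lev Q l).erase i))) -
        (θ - θ') * ∑ i, ∑ l : ι → Λ, (Φ (insert i (lev Q' l)) - Φ ((lev Q' l).erase i)) := by
  have hd : (θ - θ') * Fintype.card Λ = ((Q \ Q').card : ℝ) := by
    rw [sub_mul, hθ, hθ', Finset.card_sdiff_of_subset hQ,
      Nat.cast_sub (Finset.card_le_card hQ)]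
  rw [← corr_sum_lev Q Q θ hθ Φ, ← corr_sum_lev (Q \ Q') Q' (θ - θ') hd Φ,
    ← Finset.sum_sub_distrib]
  refine Finset.sum_le_sum (fun l _ => ?_)
  have hdis : Disjoint (lev (Q \ Q') l) (lev Q' l) := by
    rw [Finset.disjoint_left]
    intro i h1 h2
    rw [corr_mem_lev] at h1 h2
    exact (Finset.mem_sdiff.mp h1).2 h2
  have hun : lev Q' l ∪ lev (Q \ Q') l = lev Q l := by
    ext i
    rw [Finset.mem_union, corr_mem_lev, corr_mem_lev, corr_mem_lev, Finset.mem_sdiff]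
    constructor
    · rintro (h | h)
      · exact hQ h
      · exact h.1
    · intro h
      by_cases h' : l i ∈ Q'
      · exact Or.inl h'
      · exact Or.inr ⟨h, h'⟩
  have h1 := super_sum Φ hs (lev Q' l) (lev (Q \ Q') l) hdis
  rw [hun] at h1
  have h2 : ∑ i ∈ lev Q l, (Φ (lev Q l) - Φ ((lev Q l).erase i)) =
      ∑ i ∈ lev Q l, (Φ (insert i (lev Q l)) - Φ ((lev Q l).erase i)) :=
    Finset.sum_congr rfl (fun i hi => by rw [Finset.insert_eq_of_mem hi])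
  have h3 : ∑ i ∈ lev (Q \ Q') l, (Φ (insert i (lev Q' l)) - Φ (lev Q' l)) =
      ∑ i ∈ lev (Q \ Q') l, (Φ (insert i (lev Q' l)) - Φ ((lev Q' l).erase i)) :=
    Finset.sum_congr rfl (fun i hi => by
      rw [Finset.erase_eq_of_notMem (Finset.disjoint_left.mp hdis hi)])
  have h4 := h0 (lev Q' l)
  unfold TC
  linarith

theorem corr_card (n m : ℕ) (h : m ≤ n) :
    ((univ : Finset (Fin n)).filter (fun s => s.val < m)).card = m := by
  rw [Fin.card_filter_val_lt, min_eq_right h]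

theorem corr_tele (M : ℕ) (hM : 1 ≤ M) (β : ℕ → ℝ) (B : ℝ) (h0 : 0 ≤ β M) (hB : β 0 ≤ B) :
    ∃ k < M, β k - β (k + 1) ≤ B / M := by
  by_contra hc
  push Not at hc
  have hM0 : (0 : ℝ) < M := by exact_mod_cast hM
  have h1 : ∑ k ∈ range M, B / M < ∑ k ∈ range M, (β k - β (k + 1)) :=
    Finset.sum_lt_sum_of_nonempty ⟨0, Finset.mem_range.mpr hM⟩
      (fun k hk => hc k (Finset.mem_range.mp hk))
  rw [Finset.sum_range_sub', Finset.sum_const, Finset.card_range, nsmul_eq_mul,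
    mul_div_cancel₀ _ hM0.ne'] at h1
  linarith

theorem tc_level {ι J : Type} [Fintype ι] [DecidableEq ι] [Fintype J] (M : ℕ) (hM : 1 ≤ M)
    (Φ : J → Finset ι → ℝ) (b : ℝ) (h0 : ∀ j T, 0 ≤ Φ j T)
    (hm : ∀ j T i, Φ j (T.erase i) ≤ Φ j (insert i T))
    (hs : ∀ j T T' i, T ⊆ T' → i ∉ T' → Φ j (insert i T) - Φ j T ≤ Φ j (insert i T') - Φ j T')
    (hb : ∀ j T i, Φ j (insert i T) - Φ j (T.erase i) ≤ b) :
    ∃ (Q : Finset (Fin (M ^ M))) (θ : ℝ), θ * Fintype.card (Fin (M ^ M)) = Q.card ∧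
      1 / (M : ℝ) ^ M ≤ θ ∧ θ ≤ 1 ∧
      ∑ l : ι → Fin (M ^ M), ∑ j, TC (Φ j) (lev Q l) ≤
        2 * Fintype.card J * (θ * Fintype.card ι) * b / M * Fintype.card (ι → Fin (M ^ M)) := by
  have hM0 : (0 : ℝ) < M := by exact_mod_cast hM
  have hM1 : (1 : ℝ) ≤ M := by exact_mod_cast hM
  obtain ⟨Q, hQ⟩ : ∃ Q : ℕ → Finset (Fin (M ^ M)),
      Q = fun k => univ.filter (fun s => s.val < M ^ (M - k)) := ⟨_, rfl⟩
  have hcard : ∀ k, k ≤ M → (1 / (M : ℝ) ^ k) * Fintype.card (Fin (M ^ M)) = (Q k).card := by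
    intro k hk
    rw [hQ]
    dsimp only
    rw [corr_card _ _ (Nat.pow_le_pow_right hM (Nat.sub_le _ _)), Fintype.card_fin]
    push_cast
    have : (M : ℝ) ^ M = (M : ℝ) ^ k * (M : ℝ) ^ (M - k) := by
      rw [← pow_add, Nat.add_sub_cancel' hk]
    rw [this]
    field_simp
  have hsub : ∀ k, Q (k + 1) ⊆ Q k := by
    intro k s hs'
    rw [hQ] at hs' ⊢
    simp only [Finset.mem_filter, Finset.mem_univ, true_and] at hs' ⊢
    exact lt_of_lt_of_le hs' (Nat.pow_le_pow_right hM (by omega))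
  obtain ⟨γ, hγ⟩ : ∃ γ : ℕ → J → ℝ, γ = fun k j => ∑ i, ∑ l : ι → Fin (M ^ M),
      (Φ j (insert i (lev (Q k) l)) - Φ j ((lev (Q k) l).erase i)) := ⟨_, rfl⟩
  obtain ⟨B, hB⟩ : ∃ B : ℝ,
      B = Fintype.card J * (Fintype.card ι * (Fintype.card (ι → Fin (M ^ M)) * b)) := ⟨_, rfl⟩
  have hβ0 : ∀ k, 0 ≤ ∑ j, γ k j := by
    intro k
    rw [hγ]
    exact Finset.sum_nonneg fun j _ => Finset.sum_nonneg fun i _ => Finset.sum_nonneg fun l _ =>
      sub_nonneg.mpr (hm j _ i)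
  have hβB : ∀ k, ∑ j, γ k j ≤ B := by
    intro k
    have : B = ∑ _j : J, ∑ _i : ι, ∑ _l : ι → Fin (M ^ M), b := by
      rw [hB]
      simp only [Finset.sum_const, Finset.card_univ, nsmul_eq_mul]
    rw [this, hγ]
    exact Finset.sum_le_sum fun j _ => Finset.sum_le_sum fun i _ => Finset.sum_le_sum fun l _ =>
      hb j _ i
  obtain ⟨k, hk, hkB⟩ := corr_tele M hM (fun k => ∑ j, γ k j) B (hβ0 M) (hβB 0)
  have hpk : (0 : ℝ) < (M : ℝ) ^ k := pow_pos hM0 k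
  refine ⟨Q k, 1 / (M : ℝ) ^ k, hcard k hk.le, ?_, ?_, ?_⟩
  · exact one_div_le_one_div_of_le hpk (pow_le_pow_right₀ hM1 hk.le)
  · rw [div_le_one hpk]
    exact one_le_pow₀ hM1
  · rw [Finset.sum_comm]
    have h1 : ∑ j, ∑ l : ι → Fin (M ^ M), TC (Φ j) (lev (Q k) l) ≤
        ∑ j, (1 / (M : ℝ) ^ k * γ k j - (1 / (M : ℝ) ^ k - 1 / (M : ℝ) ^ (k + 1)) * γ (k + 1) j) := by
      refine Finset.sum_le_sum fun j _ => ?_
      rw [hγ]
      exact corr_step (Q k) (Q (k + 1)) (hsub k) _ _ (hcard k hk.le) (hcard (k + 1) hk) (Φ j)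
        (h0 j) (hs j)
    rw [Finset.sum_sub_distrib, ← Finset.mul_sum, ← Finset.mul_sum] at h1
    refine h1.trans ?_
    have h2 : 2 * (Fintype.card J : ℝ) * (1 / (M : ℝ) ^ k * Fintype.card ι) * b / M *
        Fintype.card (ι → Fin (M ^ M)) = 1 / (M : ℝ) ^ k * (B / M + B / M) := by
      rw [hB]
      field_simp
      ring
    have h3 : 1 / (M : ℝ) ^ k * ∑ j, γ k j -
        (1 / (M : ℝ) ^ k - 1 / (M : ℝ) ^ (k + 1)) * ∑ j, γ (k + 1) j =
        1 / (M : ℝ) ^ k * ((∑ j, γ k j - ∑ j, γ (k + 1) j) + (∑ j, γ (k + 1) j) / M) := by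
      rw [pow_succ]
      field_simp
      ring
    rw [h2, h3]
    refine mul_le_mul_of_nonneg_left ?_ (by positivity)
    exact add_le_add hkB (div_le_div_of_nonneg_right (hβB (k + 1)) hM0.le)

end Pool.Agent.Work.MP_807b32_lc.Sem
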