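import Pool.Agent.Work.MP_807b32_lc.Sem.LemG
import Pool.Agent.Work.MP_807b32_lc.Sem.Levels

/-!
Second moment of the number of heavy sites.

Plan. Fix `l`, `T = lev Q l`, write `h x` for the number of heavy sites, `w x` for the weight of
`α x` on `T`, `C = log (2 / η)`, `β = C / B - log (1 - η)`, `a x = C * w x + β * T.card + Δ ≥ 0`.
`lemma_G` (with `heavy_card`, `heavy_congr`) and `hΔ` give
`∑ x ∈ Ω, exp (log 2 * h x - a x) ≤ D ^ N * exp (-Δ) ≤ Ω.card`. For reals `u, a ≥ 0`,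
`u ^ 2 ≤ 2 * a ^ 2 + 4 * exp (u - a)` (`sq_le_exp`: if `u ≤ a` clear; otherwise
`y = u - a ≥ 0`, `y ^ 2 ≤ 2 * exp y`, `u ^ 2 ≤ 2 a ^ 2 + 2 y ^ 2`). Then
`a ^ 2 ≤ 3 * (C ^ 2 * w ^ 2 + β ^ 2 * T.card ^ 2 + Δ ^ 2)`; sum over `l` with `lev_second`, used for
the weights `(α x i).card / D` (total at most `W`) and for the weights `1` (total `N`).
-/

namespace Pool.Agent.Work.MP_807b32_lc.Sem

open Finset

theorem sq_le_exp (u a : ℝ) (hu : 0 ≤ u) (ha : 0 ≤ a) :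
    u ^ 2 ≤ 2 * a ^ 2 + 4 * Real.exp (u - a) := by
  have he := Real.exp_pos (u - a)
  rcases le_total u a with h | h
  · nlinarith
  · have := Real.quadratic_le_exp_of_nonneg (x := u - a) (by linarith)
    nlinarith [sq_nonneg (u - 2 * a)]

theorem moment_one {ι A : Type} [Fintype ι] [DecidableEq ι] [Fintype A] [DecidableEq A]
    [Nonempty A] (Ω : Finset (ι → A))
    (α : (ι → A) → ι → Finset A) (h0 : ∀ x ∈ Ω, Sat (α x) x)
    (h1 : ∀ x ∈ Ω, ∀ y ∈ Ω, Sat (α x) y → Sat (α y) x → α x = α y)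
    (B : ℝ) (hB : 0 < B) (η : ℝ) (hη0 : 0 < η) (hη1 : η < 1)
    (Δ : ℝ) (hΔ0 : 0 ≤ Δ)
    (hΔ : (Fintype.card A : ℝ) ^ Fintype.card ι * Real.exp (-Δ) ≤ Ω.card)
    (C β : ℝ) (hC : Real.log (2 / η) ≤ C) (hβ : Real.log (2 / η) / B - Real.log (1 - η) ≤ β)
    (T : Finset ι) :
    Real.log 2 ^ 2 * ∑ x ∈ Ω, ((T.filter (fun i => x i ∈ heavy Ω α T B x i)).card : ℝ) ^ 2 ≤
      6 * C ^ 2 * ∑ x ∈ Ω, (∑ i ∈ T, ((α x i).card : ℝ) / Fintype.card A) ^ 2 +
        (6 * β ^ 2 * (T.card : ℝ) ^ 2 + 6 * Δ ^ 2 + 4) * Ω.card := by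
  have hG := lemma_G Ω α (heavy Ω α T B) T h0 h1
    (fun x _ y _ h h' => heavy_congr Ω α T B h h') B hB
    (fun x hx i => heavy_card Ω α T B hB hx i) η hη0 hη1
  have hl : 0 ≤ Real.log (2 / η) := Real.log_nonneg (by rw [le_div_iff₀ hη0]; linarith)
  have hl' : Real.log (1 - η) ≤ 0 := Real.log_nonpos (by linarith) (by linarith)
  have hC0 : 0 ≤ C := hl.trans hC
  have hβ0 : 0 ≤ β := by
    have := div_nonneg hl hB.le
    linarith
  have hT : (0 : ℝ) ≤ T.card := Nat.cast_nonneg _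
  have key : ∀ x ∈ Ω,
      Real.log 2 ^ 2 * ((T.filter (fun i => x i ∈ heavy Ω α T B x i)).card : ℝ) ^ 2 ≤
        6 * C ^ 2 * (∑ i ∈ T, ((α x i).card : ℝ) / Fintype.card A) ^ 2 +
          (6 * β ^ 2 * (T.card : ℝ) ^ 2 + 6 * Δ ^ 2) +
          4 * Real.exp (-Δ) *
            Real.exp (Real.log 2 * ((T.filter (fun i => x i ∈ heavy Ω α T B x i)).card : ℝ)
            - Real.log (2 / η) * (∑ i ∈ T, ((α x i).card : ℝ) / Fintype.card A)
            - T.card * (Real.log (2 / η) / B - Real.log (1 - η))) := by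
    intro x _
    have hw : 0 ≤ ∑ i ∈ T, ((α x i).card : ℝ) / Fintype.card A :=
      sum_nonneg fun i _ => by positivity
    generalize (∑ i ∈ T, ((α x i).card : ℝ) / Fintype.card A) = w at hw ⊢
    have hh : (0 : ℝ) ≤ ((T.filter (fun i => x i ∈ heavy Ω α T B x i)).card : ℝ) :=
      Nat.cast_nonneg _
    generalize ((T.filter (fun i => x i ∈ heavy Ω α T B x i)).card : ℝ) = h at hh ⊢
    have h2 : 0 ≤ Real.log 2 := Real.log_nonneg (by norm_num)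
    have k1 := sq_le_exp (Real.log 2 * h) (C * w + β * T.card + Δ) (by positivity) (by positivity)
    have k2 : Real.exp (Real.log 2 * h - (C * w + β * T.card + Δ)) ≤ Real.exp (-Δ) *
        Real.exp (Real.log 2 * h - Real.log (2 / η) * w
          - T.card * (Real.log (2 / η) / B - Real.log (1 - η))) := by
      rw [← Real.exp_add]
      apply Real.exp_le_exp.2
      nlinarith [mul_le_mul_of_nonneg_right hC hw, mul_le_mul_of_nonneg_left hβ hT]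
    nlinarith [sq_nonneg (C * w - β * T.card), sq_nonneg (C * w - Δ), sq_nonneg (β * T.card - Δ)]
  have hs := sum_le_sum key
  rw [← mul_sum, sum_add_distrib, sum_add_distrib, ← mul_sum, ← mul_sum, sum_const,
    nsmul_eq_mul] at hs
  have he := Real.exp_pos (-Δ)
  have := mul_le_mul_of_nonneg_left hG he.le
  nlinarith

theorem heavy_moment {ι A Λ : Type} [Fintype ι] [DecidableEq ι] [Fintype A] [DecidableEq A]
    [Nonempty A] [Fintype Λ] [DecidableEq Λ] (Ω : Finset (ι → A))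
    (α : (ι → A) → ι → Finset A) (h0 : ∀ x ∈ Ω, Sat (α x) x)
    (h1 : ∀ x ∈ Ω, ∀ y ∈ Ω, Sat (α x) y → Sat (α y) x → α x = α y)
    (W : ℝ) (hW : ∀ x ∈ Ω, ∑ i, ((α x i).card : ℝ) ≤ W * Fintype.card A)
    (B : ℝ) (hB : 0 < B) (η : ℝ) (hη0 : 0 < η) (hη1 : η < 1)
    (Δ : ℝ) (hΔ0 : 0 ≤ Δ)
    (hΔ : (Fintype.card A : ℝ) ^ Fintype.card ι * Real.exp (-Δ) ≤ Ω.card)
    (Q : Finset Λ) (θ : ℝ) (hθ : θ * Fintype.card Λ = Q.card) (hθ0 : 0 ≤ θ)
    (C β : ℝ) (hC : Real.log (2 / η) ≤ C) (hβ : Real.log (2 / η) / B - Real.log (1 - η) ≤ β) :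
    Real.log 2 ^ 2 * ∑ l : ι → Λ, ∑ x ∈ Ω,
        (((lev Q l).filter (fun i => x i ∈ heavy Ω α (lev Q l) B x i)).card : ℝ) ^ 2 ≤
      (6 * (C ^ 2 * (θ ^ 2 * W ^ 2 + θ * W) +
          β ^ 2 * (θ ^ 2 * (Fintype.card ι : ℝ) ^ 2 + θ * Fintype.card ι) + Δ ^ 2) + 4) *
        (Fintype.card (ι → Λ) * Ω.card) := by
  have hD : (0 : ℝ) < Fintype.card A := by exact_mod_cast Fintype.card_pos
  have hs := sum_le_sum fun (l : ι → Λ) (_ : l ∈ univ) =>
    moment_one Ω α h0 h1 B hB η hη0 hη1 Δ hΔ0 hΔ C β hC hβ (lev Q l)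
  have k1 : ∑ l : ι → Λ, ∑ x ∈ Ω, (∑ i ∈ lev Q l, ((α x i).card : ℝ) / Fintype.card A) ^ 2 ≤
      (θ ^ 2 * W ^ 2 + θ * W) * Fintype.card (ι → Λ) * Ω.card := by
    rw [sum_comm, mul_comm _ (Ω.card : ℝ), ← nsmul_eq_mul, ← sum_const]
    refine sum_le_sum fun x hx => lev_second Q θ hθ hθ0 _ (fun i => by positivity)
      (fun i => ?_) W ?_
    · rw [div_le_one hD]
      exact_mod_cast card_le_univ _
    · rw [← sum_div, div_le_iff₀ hD]
      exact hW x hx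
  have k2 := lev_second Q θ hθ hθ0 (fun _ : ι => (1 : ℝ)) (fun _ => zero_le_one) (fun _ => le_rfl)
    (Fintype.card ι) (by simp)
  simp only [sum_const, nsmul_eq_mul, mul_one] at k2
  rw [← mul_sum, sum_add_distrib, ← mul_sum, ← sum_mul, sum_add_distrib, sum_add_distrib,
    ← mul_sum, sum_const, sum_const, nsmul_eq_mul, nsmul_eq_mul, card_univ] at hs
  have hΩ : (0 : ℝ) ≤ Ω.card := Nat.cast_nonneg _
  have k3 := mul_le_mul_of_nonneg_left k1 (show 0 ≤ 6 * C ^ 2 by positivity)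
  have k4 := mul_le_mul_of_nonneg_right
    (mul_le_mul_of_nonneg_left k2 (show 0 ≤ 6 * β ^ 2 by positivity)) hΩ
  nlinarith

end Pool.Agent.Work.MP_807b32_lc.Sem
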