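import Pool.Agent.Work.MP_807b32_lc.Sem.Avg
import Pool.Agent.Work.MP_807b32_lc.Sem.Moment
import Pool.Agent.Work.MP_807b32_lc.Sem.Corr

/-!
The core theorem: a dense intersection of unions of light boxes contains a dense cylinder
intersection.
-/

namespace Pool.Agent.Work.MP_807b32_lc.Sem

open Finset

theorem exists_least_box {ι A : Type} (L : Set (ι → Finset A)) :
    ∃ α : (ι → A) → ι → Finset A, (∀ x, (∃ F ∈ L, Sat F x) → α x ∈ L ∧ Sat (α x) x) ∧
      ∀ x y, (∃ F ∈ L, Sat F x) → (∃ F ∈ L, Sat F y) → Sat (α x) y → Sat (α y) x →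
        α x = α y := by
  classical
  have wf : WellFounded (WellOrderingRel : (ι → Finset A) → (ι → Finset A) → Prop) :=
    (IsWellOrder.toIsWellFounded (r := WellOrderingRel)).wf
  refine ⟨fun x => if h : ({F | F ∈ L ∧ Sat F x} : Set (ι → Finset A)).Nonempty then
    wf.min _ h else fun _ => ∅, ?_, ?_⟩
  · intro x hx
    have h : ({F | F ∈ L ∧ Sat F x} : Set (ι → Finset A)).Nonempty := hx
    simp only [h, dif_pos]
    exact wf.min_mem _ h
  · intro x y hx hy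
    have h : ({F | F ∈ L ∧ Sat F x} : Set (ι → Finset A)).Nonempty := hx
    have h' : ({F | F ∈ L ∧ Sat F y} : Set (ι → Finset A)).Nonempty := hy
    simp only [h, h', dif_pos]
    intro h1 h2
    have m1 := wf.min_mem _ h
    have m2 := wf.min_mem _ h'
    have n1 := wf.not_lt_min {F | F ∈ L ∧ Sat F x} (x := wf.min _ h') ⟨m2.1, h2⟩
    have n2 := wf.not_lt_min {F | F ∈ L ∧ Sat F y} (x := wf.min _ h) ⟨m1.1, h1⟩
    rcases trichotomous_of WellOrderingRel (wf.min _ h) (wf.min _ h') with a | a | a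
    · exact absurd a n2
    · exact a
    · exact absurd a n1

theorem core_log (m : ℝ) (hm : 2 ≤ m) :
    Real.log (2 / (1 / m ^ 4)) ≤ 4 * m ∧
      Real.log (2 / (1 / m ^ 4)) / m ^ 4 - Real.log (1 - 1 / m ^ 4) ≤ 5 * m / m ^ 4 := by
  have hm0 : 0 < m := by linarith
  have hR : (16 : ℝ) ≤ m ^ 4 := by
    calc (16 : ℝ) = 2 ^ 4 := by norm_num
      _ ≤ m ^ 4 := pow_le_pow_left₀ (by norm_num) hm 4
  have h1 : Real.log (2 / (1 / m ^ 4)) ≤ 4 * m := by
    rw [div_div_eq_mul_div, div_one, Real.log_mul (by norm_num) (by positivity), Real.log_pow]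
    have := Real.log_le_sub_one_of_pos hm0
    have h2 := Real.log_le_sub_one_of_pos (by norm_num : (0 : ℝ) < 2)
    push_cast
    linarith
  refine ⟨h1, ?_⟩
  have hR0 : (0 : ℝ) < m ^ 4 := by positivity
  have h3 : 1 / m ^ 4 ≤ 1 / 16 := one_div_le_one_div_of_le (by norm_num) hR
  have h4 : 0 < 1 / m ^ 4 := by positivity
  have h5 : -Real.log (1 - 1 / m ^ 4) ≤ 2 * (1 / m ^ 4) := by
    have hp : 0 < 1 - 1 / m ^ 4 := by linarith
    have := Real.one_sub_inv_le_log_of_pos hp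
    have h6 : (1 - 1 / m ^ 4)⁻¹ ≤ 1 + 2 * (1 / m ^ 4) := by
      rw [inv_le_comm₀ hp (by positivity), inv_eq_one_div, div_le_iff₀ (by positivity)]
      nlinarith
    linarith
  have h7 : Real.log (2 / (1 / m ^ 4)) / m ^ 4 ≤ 4 * m / m ^ 4 :=
    div_le_div_of_nonneg_right h1 hR0.le
  have h8 : 4 * m / m ^ 4 + 2 * (1 / m ^ 4) ≤ 5 * m / m ^ 4 := by
    rw [mul_one_div, ← add_div]
    exact div_le_div_of_nonneg_right (by linarith) hR0.le
  linarith

theorem core_moment (κ m R θ N t Δ : ℝ) (hκ : 1 ≤ κ) (hm : 1 ≤ m) (hR : 0 < R) (hθ : 0 ≤ θ)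
    (hN : R ≤ N) (ht : t = θ * N) (ht8 : 8 * R ≤ t) (hR1 : 1 ≤ R) (hΔ0 : 0 ≤ Δ) (hΔ : Δ ≤ t / R) :
    6 * ((4 * m) ^ 2 * (θ ^ 2 * (κ * N / R + 1) ^ 2 + θ * (κ * N / R + 1)) +
        (5 * m / R) ^ 2 * (θ ^ 2 * N ^ 2 + θ * N) + Δ ^ 2) + 4 ≤
      (60 * κ * m * t / R) ^ 2 / 4 := by
  set u := t / R with hu
  have hu8 : 8 ≤ u := by rw [hu, le_div_iff₀ hR]; exact ht8
  have hNR : 1 ≤ N / R := by rw [le_div_iff₀ hR]; linarith
  have hW : θ * (κ * N / R + 1) ≤ 2 * κ * u := by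
    have h1 : κ * N / R + 1 ≤ 2 * κ * (N / R) := by
      rw [mul_div_assoc]
      nlinarith
    calc θ * (κ * N / R + 1) ≤ θ * (2 * κ * (N / R)) := mul_le_mul_of_nonneg_left h1 hθ
      _ = 2 * κ * u := by rw [hu, ht]; ring
  have hW0 : 0 ≤ θ * (κ * N / R + 1) := by
    have : 0 ≤ N := by linarith
    positivity
  have h2 : θ ^ 2 * (κ * N / R + 1) ^ 2 + θ * (κ * N / R + 1) ≤ 6 * (κ * u) ^ 2 := by
    rw [← mul_pow]
    have a1 : (θ * (κ * N / R + 1)) ^ 2 ≤ (2 * κ * u) ^ 2 := pow_le_pow_left₀ hW0 hW 2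
    have a2 : 1 ≤ κ * u := by nlinarith
    nlinarith
  have h3 : (5 * m / R) ^ 2 * (θ ^ 2 * N ^ 2 + θ * N) ≤ 50 * (m * u) ^ 2 := by
    rw [← mul_pow, ← ht]
    have a1 : t ^ 2 + t ≤ 2 * t ^ 2 := by nlinarith
    calc (5 * m / R) ^ 2 * (t ^ 2 + t) ≤ (5 * m / R) ^ 2 * (2 * t ^ 2) :=
          mul_le_mul_of_nonneg_left a1 (by positivity)
      _ = 50 * (m * u) ^ 2 := by rw [hu]; ring
  have h4 : Δ ^ 2 ≤ u ^ 2 := pow_le_pow_left₀ hΔ0 hΔ 2
  have e : (60 * κ * m * t / R) ^ 2 / 4 = 900 * (κ * m * u) ^ 2 := by rw [hu]; ring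
  rw [e]
  have b1 : (4 * m) ^ 2 * (θ ^ 2 * (κ * N / R + 1) ^ 2 + θ * (κ * N / R + 1)) ≤
      96 * (κ * m * u) ^ 2 := by
    calc _ ≤ (4 * m) ^ 2 * (6 * (κ * u) ^ 2) := mul_le_mul_of_nonneg_left h2 (by positivity)
      _ = _ := by ring
  have hu0 : 0 ≤ u := by linarith
  have c1 : m * u ≤ κ * m * u := by
    have : 0 ≤ m * u := by positivity
    nlinarith
  have c2 : u ≤ m * u := by nlinarith
  have b2 : (m * u) ^ 2 ≤ (κ * m * u) ^ 2 := pow_le_pow_left₀ (by positivity) c1 2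
  have b3 : u ^ 2 ≤ (κ * m * u) ^ 2 := pow_le_pow_left₀ hu0 (c2.trans c1) 2
  have b4 : 1 ≤ u ^ 2 := by nlinarith
  linarith

theorem core_bal (κ m R G M P N t Δ LD k₀ : ℝ) (hκ : 1 ≤ κ) (hm : m = 170 * κ) (hR : R = m ^ 4)
    (hk : k₀ = 480 * κ * m) (hG : 0 < G) (hM : M * G = 2048 * R) (ht8 : 8 * R ≤ t)
    (htG : 64 ≤ G * t) (hΔ : Δ ≤ t / R) (hN : N ≤ P * t) (hP : 0 ≤ P)
    (hLD : 1024 * (3 + R * (R + 2)) + 1024 * P ≤ G * LD) :
    Δ + t * Real.log 4 + R * (t * Real.log R + t * Real.log 4) + N + 2 * R * t * LD / M ≤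
      (G * (t - 2 * (R * (60 * κ * m * t / R)) / k₀ -
          R * (2 * (60 * κ * m * t / R) ^ 2 / t + 2)) / 4 - 1) * LD / 16 := by
  have hm1 : 170 ≤ m := by linarith
  have hm0 : 0 < m := by linarith
  have hR1 : 1 ≤ R := by rw [hR]; exact one_le_pow₀ (by linarith)
  have hR0 : 0 < R := by linarith
  have ht0 : 0 < t := by linarith
  have hM0 : 0 < M := by
    by_contra h
    push Not at h
    nlinarith
  have hLD0 : 0 ≤ LD := by
    by_contra h
    push Not at h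
    have : 0 ≤ R * (R + 2) := by positivity
    nlinarith
  have hl4 : Real.log 4 ≤ 2 := by
    have : Real.log 4 = 2 * Real.log 2 := by
      rw [show (4 : ℝ) = 2 ^ 2 by norm_num, Real.log_pow]; norm_num
    have h2 := Real.log_le_sub_one_of_pos (by norm_num : (0 : ℝ) < 2)
    linarith
  have hlR : Real.log R ≤ R := by
    have := Real.log_le_sub_one_of_pos hR0
    linarith
  have e1 : 2 * (R * (60 * κ * m * t / R)) / k₀ = t / 4 := by
    rw [hk]; field_simp; ring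
  have e2 : R * (2 * (60 * κ * m * t / R) ^ 2 / t + 2) ≤ t / 4 + t / 4 := by
    have a : R * (2 * (60 * κ * m * t / R) ^ 2 / t + 2) = 7200 * (κ / m) ^ 2 * t + 2 * R := by
      rw [hR]; field_simp; ring
    have b : κ / m = 1 / 170 := by rw [hm]; field_simp
    rw [a, b]
    nlinarith
  have e3 : 2 * R * t * LD / M = G * t * LD / 1024 := by
    have : R = M * G / 2048 := by linarith
    rw [this]; field_simp; ring
  have f1 : Δ ≤ t := hΔ.trans (div_le_self ht0.le hR1)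
  have f2 : t * Real.log 4 ≤ t * 2 := mul_le_mul_of_nonneg_left hl4 ht0.le
  have f3 : R * (t * Real.log R + t * Real.log 4) ≤ R * (t * R + t * 2) := by
    apply mul_le_mul_of_nonneg_left _ hR0.le
    have := mul_le_mul_of_nonneg_left hlR ht0.le
    linarith
  have f4 := mul_le_mul_of_nonneg_left hLD ht0.le
  have f5 := mul_le_mul_of_nonneg_right htG hLD0
  have f6 : G * (t / 4) ≤ G * (t - 2 * (R * (60 * κ * m * t / R)) / k₀ -
      R * (2 * (60 * κ * m * t / R) ^ 2 / t + 2)) := by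
    apply mul_le_mul_of_nonneg_left _ hG.le
    linarith
  have f7 := mul_le_mul_of_nonneg_right f6 hLD0
  rw [e3]
  nlinarith

theorem core (κ : ℕ) (hκ : 1 ≤ κ) : ∃ (r : ℕ) (c : ℝ) (D₀ N₀ : ℕ), 0 < c ∧
    ∀ (ι A : Type) [Fintype ι] [DecidableEq ι] [Fintype A] [DecidableEq A],
      N₀ ≤ Fintype.card ι → D₀ ≤ Fintype.card A →
      ∀ L : Fin (r + 1) → Set (ι → Finset A),
        (∀ j, ∀ F ∈ L j, ∑ i, ((F i).card : ℝ) ≤
          (κ * Fintype.card ι / (r + 1) + 1) * Fintype.card A) →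
        (Fintype.card A : ℝ) ^ Fintype.card ι * Real.exp (-(c * Fintype.card ι)) ≤
          cnt (fun x : ι → A => ∀ j, ∃ F ∈ L j, Sat F x) →
        ∃ ρ : ℕ, Cyl (fun x : ι → A => ∀ j, ∃ F ∈ L j, Sat F x) ρ
          (Real.exp (Fintype.card ι - ρ * Real.log (Fintype.card A) / 16)) := by
  classical
  obtain ⟨m, hm⟩ : ∃ m : ℕ, m = 170 * κ := ⟨_, rfl⟩
  obtain ⟨k₀, hk⟩ : ∃ k₀ : ℕ, k₀ = 480 * κ * m := ⟨_, rfl⟩
  have hm1 : 170 ≤ m := by omega
  obtain ⟨r, hr⟩ : ∃ r : ℕ, r + 1 = m ^ 4 :=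
    ⟨m ^ 4 - 1, Nat.sub_add_cancel (Nat.one_le_pow _ _ (by omega))⟩
  obtain ⟨M, hM⟩ : ∃ M : ℕ, M = 2048 * (r + 1) * 4 ^ k₀ := ⟨_, rfl⟩
  have hM1 : 1 ≤ M := by
    rw [hM]
    exact Nat.one_le_iff_ne_zero.mpr (by positivity)
  obtain ⟨P, hP⟩ : ∃ P : ℕ, P = M ^ M := ⟨_, rfl⟩
  have hP1 : 1 ≤ P := by rw [hP]; exact Nat.one_le_pow _ _ hM1
  have hPR : (1 : ℝ) ≤ P := by exact_mod_cast hP1
  set R : ℝ := (r : ℝ) + 1 with hRdef
  have hR1 : 1 ≤ R := by
    have : (0 : ℝ) ≤ r := Nat.cast_nonneg _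
    linarith
  have hRm : R = (m : ℝ) ^ 4 := by rw [hRdef]; exact_mod_cast hr
  set G : ℝ := (1 / 4) ^ k₀ with hG
  have hG0 : 0 < G := by positivity
  have hG4 : G * 4 ^ k₀ = 1 := by rw [hG, ← mul_pow]; norm_num
  refine ⟨r, 1 / (P * R), ⌈Real.exp ((1024 * (3 + R * (R + 2)) + 1024 * P) / G)⌉₊,
    P * (8 * (r + 1) + 64 * 4 ^ k₀), by positivity, ?_⟩
  intro ι A _ _ _ _ hN hD L hL hbig
  set N : ℝ := (Fintype.card ι : ℝ) with hNdef
  have hD' : Real.exp ((1024 * (3 + R * (R + 2)) + 1024 * P) / G) ≤ Fintype.card A :=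
    (Nat.le_ceil _).trans (by exact_mod_cast hD)
  have hD0 : (0 : ℝ) < Fintype.card A := lt_of_lt_of_le (Real.exp_pos _) hD'
  have : Nonempty A := Fintype.card_pos_iff.mp (by exact_mod_cast hD0)
  have hLD : 1024 * (3 + R * (R + 2)) + 1024 * P ≤ G * Real.log (Fintype.card A) := by
    have := (Real.le_log_iff_exp_le hD0).mpr hD'
    rw [div_le_iff₀ hG0] at this
    linarith
  have hN' : (P : ℝ) * (8 * R + 64 * 4 ^ k₀) ≤ N := by
    rw [hNdef, hRdef]; exact_mod_cast hN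
  choose α hα1 hα2 using fun j => exists_least_box (L j)
  set Ω : Finset (ι → A) := univ.filter (fun x : ι → A => ∀ j, ∃ F ∈ L j, Sat F x) with hΩ
  have hcnt : cnt (fun x : ι → A => ∀ j, ∃ F ∈ L j, Sat F x) = Ω.card := cnt_eq _
  rw [hcnt] at hbig
  have hmem : ∀ x ∈ Ω, ∀ j, ∃ F ∈ L j, Sat F x := fun x hx => (Finset.mem_filter.mp hx).2
  obtain ⟨Q, θ, hθ, hθ1, _, hTC⟩ := tc_level M hM1 (fun j => Phi Ω (α j))
    (Ω.card * Real.log (Fintype.card A)) (fun j T => Phi_nonneg Ω (α j) T)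
    (fun j T i => Phi_mono Ω (α j) ((Finset.erase_subset _ _).trans (Finset.subset_insert _ _)))
    (fun j T T' i h hi => Phi_super Ω (α j) h hi) (fun j T i => Phi_step Ω (α j) T i)
  have hPM : (M : ℝ) ^ M = P := by rw [hP]; push_cast; ring
  rw [hPM] at hθ1
  have hθ0 : 0 ≤ θ := le_trans (by positivity) hθ1
  have hN0 : 0 ≤ N := Nat.cast_nonneg _
  set t : ℝ := θ * N with ht
  have hNt : N ≤ P * t := by
    have : 1 ≤ P * θ := by
      rw [div_le_iff₀ (by linarith)] at hθ1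
      linarith
    calc N = 1 * N := by ring
      _ ≤ (P * θ) * N := mul_le_mul_of_nonneg_right this hN0
      _ = P * t := by rw [ht]; ring
  have ht1 : 8 * R + 64 * 4 ^ k₀ ≤ t := le_of_mul_le_mul_left (hN'.trans hNt) (by linarith)
  have h4k : (0 : ℝ) < 4 ^ k₀ := by positivity
  have ht8 : 8 * R ≤ t := by linarith
  have htG : 64 ≤ G * t := by
    have : G * (64 * 4 ^ k₀) ≤ G * t := mul_le_mul_of_nonneg_left (by linarith) hG0.le
    nlinarith
  have ht0 : 0 < t := by linarith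
  have hΔ : 1 / (P * R) * N ≤ t / R := by
    rw [div_mul_eq_mul_div, one_mul, div_le_div_iff₀ (by positivity) (by linarith)]
    nlinarith
  have hRN : R ≤ N := by nlinarith
  have hκR : (1 : ℝ) ≤ κ := by exact_mod_cast hκ
  have hmR : (m : ℝ) = 170 * κ := by exact_mod_cast hm
  have hm2 : (2 : ℝ) ≤ m := by linarith
  have hkR : (k₀ : ℝ) = 480 * κ * m := by exact_mod_cast hk
  have hMG : (M : ℝ) * G = 2048 * R := by
    have : (M : ℝ) = 2048 * R * 4 ^ k₀ := by rw [hM, hRdef]; push_cast; ring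
    rw [this]
    calc 2048 * R * 4 ^ k₀ * G = 2048 * R * (G * 4 ^ k₀) := by ring
      _ = 2048 * R := by rw [hG4, mul_one]
  have : Nonempty (Fin (M ^ M)) := ⟨⟨0, Nat.pos_of_ne_zero (by positivity)⟩⟩
  have hcardJ : (Fintype.card (Fin (r + 1)) : ℝ) = R := by simp [hRdef]
  obtain ⟨hC, hβ⟩ := core_log m hm2
  rw [← hRm] at hC hβ
  have hη1 : 1 / R < 1 := by
    rw [div_lt_one (by linarith), hRm]
    exact one_lt_pow₀ (by linarith) (by norm_num)
  apply avg Ω L α (fun j x hx => (hα1 j x (hmem x hx j)).1)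
    (fun j x hx => (hα1 j x (hmem x hx j)).2) R hR1 (1 / (P * R) * N) hbig Q θ hθ hθ0 t ht ht0
    (60 * κ * m * t / R) (by positivity) _ (2 * R * t * Real.log (Fintype.card A) / M) _ k₀
    (by rw [hk]; positivity) N
  · rw [hcardJ]
    exact core_bal κ m R G M P N t _ _ k₀ hκR hmR hRm hkR hG0 hMG ht8 htG hΔ hNt (by linarith) hLD
  · intro j
    have h1 := heavy_moment Ω (α j) (fun x hx => (hα1 j x (hmem x hx j)).2)
      (fun x hx y hy => hα2 j x y (hmem x hx j) (hmem y hy j)) (κ * N / R + 1)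
      (fun x hx => hL j _ (hα1 j x (hmem x hx j)).1) R (by linarith) (1 / R) (by positivity) hη1
      (1 / (P * R) * N) (by positivity) hbig Q θ hθ hθ0 (4 * m) (5 * m / R) hC hβ
    have h2 := core_moment κ m R θ N t (1 / (P * R) * N) hκR (by linarith) (by linarith) hθ0 hRN ht
      ht8 hR1 (by positivity) hΔ
    have h3 := mul_le_mul_of_nonneg_right h2
      (by positivity : (0 : ℝ) ≤ Fintype.card (ι → Fin (M ^ M)) * Ω.card)
    have h4 : (1 / 4 : ℝ) ≤ Real.log 2 ^ 2 := by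
      have := Real.log_two_gt_d9
      nlinarith
    have h6 : (0 : ℝ) ≤ ∑ l : ι → Fin (M ^ M), ∑ x ∈ Ω,
        (((lev Q l).filter (fun i => x i ∈ heavy Ω (α j) (lev Q l) R x i)).card : ℝ) ^ 2 :=
      Finset.sum_nonneg fun l _ => Finset.sum_nonneg fun x _ => sq_nonneg _
    have h5 := mul_le_mul_of_nonneg_right h4 h6
    have h7 := h5.trans (h1.trans h3)
    clear h1 h3 h5 h6 hTC
    generalize (∑ l : ι → Fin (M ^ M), ∑ x ∈ Ω,
        (((lev Q l).filter (fun i => x i ∈ heavy Ω (α j) (lev Q l) R x i)).card : ℝ) ^ 2) = Z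
      at h7 ⊢
    linarith
  · rw [hcardJ] at hTC
    refine hTC.trans (le_of_eq ?_)
    ring

end Pool.Agent.Work.MP_807b32_lc.Sem
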