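import Pool.Agent.Work.MP_807b32_lc.Sem.Walks

/-!
From a light branching program to families of boxes.

Plan.
* `walk_append`: induction on the first walk.
* `walk_split`: induction on the walk generalising `W₀`; if `W₀ ≤ 0` take the first part empty,
  otherwise keep the first edge and use the induction hypothesis with `W₀ - wt e`.
* `walk_cut`: induction on `r` with `walk_split` and `Fin.cons`; for `r = 0` the whole walk has
  weight at most `W₀`.
* `walk_glue`: induction on `r` with `walk_append`.
* `cut`: weight `wt none = 0`, `wt (some (_, true)) = 1`, `wt (some (_, false)) = 1 / p`.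
  The box of a label list `w` is
  `box w a = univ.filter (fun s => (∃ s', s' ≠ s ∧ some ((inl a, s'), true) ∈ w) ∨
  some ((inl a, s), false) ∈ w)`; `∑ a, (box w a).card ≤ p * weight w` by induction on `w`.
  `enc x y (inl a, s) = decide (x a = s)`, `enc x y (inr m, s) = decide (y m = s)`; it has
  `5 N + 1` ones, and `Hard (enc x y) ↔ quart x y = y last`.
  `L σ j` is empty unless `σ 0 = start` and `σ (last) ∈ accept`; then it is the set of `box w` for
  walks `w` from `σ j.castSucc` to `σ j.succ` of weight at most `12 k N / (r+1) + 1` all of whose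
  tests `((inr m, s), c)` satisfy `decide (y m = s) = c`. A point `x` with `Sat (box w) x` passes
  all tests of `w` on the blocks `inl a`. The total weight of a light run is at most
  `k (5N+1) + k p (5N+1) / p ≤ 12 k N`.
-/

namespace Pool.Agent.Work.MP_807b32_lc.Sem

open Finset

/-- The weight of an edge label. -/
noncomputable def cutWt (p : ℕ) {V : Type} : Option (V × Bool) → ℝ
  | none => 0
  | some (_, true) => 1
  | some (_, false) => 1 / p

open Classical in
/-- The values that fail a test of the label list. -/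
noncomputable def cutBox {ι κ A : Type} [Fintype A] [DecidableEq A]
    (w : List (Option (((ι ⊕ κ) × A) × Bool))) (a : ι) : Finset A :=
  univ.filter fun s => ∃ s' c, some ((Sum.inl a, s'), c) ∈ w ∧ decide (s = s') ≠ c

theorem cut_wt {p : ℕ} (hp : 1 ≤ p) {V : Type} (e : Option (V × Bool)) :
    0 ≤ cutWt p e ∧ cutWt p e ≤ 1 := by
  have h : (1 : ℝ) ≤ p := by exact_mod_cast hp
  rcases e with _ | ⟨q, _ | _⟩
  · exact ⟨le_rfl, zero_le_one⟩
  · exact ⟨by unfold cutWt; positivity, (div_le_one (by linarith)).2 h⟩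
  · exact ⟨zero_le_one, le_rfl⟩

theorem cut_sum {p : ℕ} {V : Type} (w : List (Option (V × Bool))) :
    (w.map (cutWt p)).sum ≤ ((tested w).count true : ℝ) + ((tested w).length : ℝ) / p := by
  have h : (0 : ℝ) ≤ 1 / p := by positivity
  induction w with
  | nil => simp [tested]
  | cons e w ih =>
    rw [List.map_cons, List.sum_cons]
    rcases e with _ | ⟨q, _ | _⟩
    · rw [show tested (none :: w) = tested w from rfl, cutWt, zero_add]
      exact ih
    · rw [show tested (some (q, false) :: w) = false :: tested w from rfl, cutWt,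
        List.count_cons_of_ne (by simp), List.length_cons, Nat.cast_succ, add_div]
      linarith
    · rw [show tested (some (q, true) :: w) = true :: tested w from rfl, cutWt,
        List.count_cons_self, List.length_cons, Nat.cast_succ, Nat.cast_succ, add_div]
      linarith

theorem cut_mem {ι κ A : Type} [Fintype A] [DecidableEq A]
    {w : List (Option (((ι ⊕ κ) × A) × Bool))} {a : ι} {s : A} :
    s ∈ cutBox w a ↔ ∃ s' c, some ((Sum.inl a, s'), c) ∈ w ∧ decide (s = s') ≠ c := by
  simp only [cutBox, mem_filter, mem_univ, true_and]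

theorem cut_one {ι κ A : Type} [Fintype ι] [Fintype A] [DecidableEq A] [Nonempty A]
    (e : Option (((ι ⊕ κ) × A) × Bool)) :
    ∑ a, ((cutBox [e] a).card : ℝ) ≤ cutWt (Fintype.card A) e * Fintype.card A := by
  have hp : 1 ≤ Fintype.card A := Fintype.card_pos
  have h0 : (∀ a s c, e ≠ some ((Sum.inl a, s), c)) →
      ∑ a, ((cutBox [e] a).card : ℝ) ≤ cutWt (Fintype.card A) e * Fintype.card A := by
    intro h
    refine le_trans (le_of_eq (sum_eq_zero fun a _ => ?_))
      (mul_nonneg (cut_wt hp e).1 (Nat.cast_nonneg _))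
    rw [Nat.cast_eq_zero, card_eq_zero, eq_empty_iff_forall_notMem]
    intro s hs
    obtain ⟨s', c, h1, -⟩ := cut_mem.1 hs
    exact h a s' c (List.mem_singleton.1 h1).symm
  rcases e with _ | ⟨⟨a | m, s⟩, c⟩
  · exact h0 (by simp)
  · rw [sum_eq_single a (fun b _ hb => ?_) (by simp)]
    · rcases c with _ | _
      · have h : cutBox (κ := κ) [some ((Sum.inl a, s), false)] a ⊆ {s} := by
          intro t ht
          obtain ⟨s', c, h1, h2⟩ := cut_mem.1 ht
          simp only [List.mem_singleton, Option.some.injEq, Prod.mk.injEq] at h1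
          rw [h1.1.2, h1.2] at h2
          simpa using h2
        rw [cutWt, one_div_mul_cancel (by positivity)]
        exact_mod_cast (card_le_card h).trans_eq (card_singleton s)
      · rw [cutWt, one_mul]
        exact_mod_cast card_le_univ _
    · rw [Nat.cast_eq_zero, card_eq_zero, eq_empty_iff_forall_notMem]
      intro t ht
      obtain ⟨s', c, h1, -⟩ := cut_mem.1 ht
      simp only [List.mem_singleton, Option.some.injEq, Prod.mk.injEq, Sum.inl.injEq] at h1
      exact hb h1.1.1
  · exact h0 (by simp)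

theorem cut_card {ι κ A : Type} [Fintype ι] [Fintype A] [DecidableEq A] [Nonempty A]
    (w : List (Option (((ι ⊕ κ) × A) × Bool))) :
    ∑ a, ((cutBox w a).card : ℝ) ≤ (w.map (cutWt (Fintype.card A))).sum * Fintype.card A := by
  induction w with
  | nil =>
    have : ∀ a, cutBox (κ := κ) ([] : List (Option (((ι ⊕ κ) × A) × Bool))) a = ∅ := fun a =>
      eq_empty_iff_forall_notMem.2 fun s hs => by simpa using cut_mem.1 hs
    simp [this]
  | cons e w ih =>
    rw [List.map_cons, List.sum_cons, add_mul]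
    refine le_trans ?_ (add_le_add (cut_one e) ih)
    rw [← sum_add_distrib]
    refine sum_le_sum fun a _ => ?_
    have : cutBox (e :: w) a ⊆ cutBox [e] a ∪ cutBox w a := by
      intro s hs
      obtain ⟨s', c, h1, h2⟩ := cut_mem.1 hs
      rcases List.mem_cons.1 h1 with h | h
      · exact mem_union_left _ (cut_mem.2 ⟨s', c, List.mem_singleton.2 h, h2⟩)
      · exact mem_union_right _ (cut_mem.2 ⟨s', c, h, h2⟩)
    exact_mod_cast (card_le_card this).trans (card_union_le _ _)

theorem cut_hard {p N : ℕ} (x : Fin N → ZMod p) (y : Fin (4 * N + 1) → ZMod p) :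
    Hard p N (fun q => decide (Sum.elim x y q.1 = q.2)) ↔
      quart p N x y = y (Fin.last (4 * N)) := by
  refine ⟨?_, fun h => ⟨x, y, by simp, by simp, h⟩⟩
  rintro ⟨x', y', h1, h2, h3⟩
  obtain rfl : x' = x := funext fun a => (h1 a (x a)).1 (by simp)
  obtain rfl : y' = y := funext fun m => (h2 m (y m)).1 (by simp)
  exact h3

theorem cut_ones {ι A : Type} [Fintype ι] [Fintype A] [DecidableEq ι] [DecidableEq A] (z : ι → A) :
    (univ.filter fun q : ι × A => decide (z q.1 = q.2) = true).card ≤ Fintype.card ι := by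
  refine le_trans (card_le_card (t := univ.image fun u => (u, z u)) fun q hq => ?_) card_image_le
  exact mem_image.2 ⟨q.1, mem_univ _, Prod.ext rfl (of_decide_eq_true (mem_filter.1 hq).2)⟩

theorem cut (p N k r : ℕ) [Fact p.Prime] (hN : 1 ≤ N) {S : Type}
    (B : NBP ((Fin N ⊕ Fin (4 * N + 1)) × ZMod p) S) (hB : Computes B (Hard p N))
    (hk : Light B k) (y : Fin (4 * N + 1) → ZMod p) :
    ∃ L : (Fin (r + 2) → S) → Fin (r + 1) → Set (Fin N → Finset (ZMod p)),
      (∀ σ j, ∀ F ∈ L σ j, ∑ i, ((F i).card : ℝ) ≤ (12 * k * N / (r + 1) + 1) * p) ∧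
      (∀ σ x, (∀ j, ∃ F ∈ L σ j, Sat F x) → quart p N x y = y (Fin.last (4 * N))) ∧
      (∀ x, quart p N x y = y (Fin.last (4 * N)) → ∃ σ, ∀ j, ∃ F ∈ L σ j, Sat F x) := by
    have hp : 1 ≤ p := (Fact.out : p.Prime).pos
    have hp' : (0 : ℝ) < p := by exact_mod_cast hp
    refine ⟨fun σ j => {F | σ 0 = B.start ∧ σ (Fin.last (r + 1)) ∈ B.accept ∧
      ∃ w, Walk B (σ j.castSucc) w (σ j.succ) ∧ (w.map (cutWt p)).sum ≤ 12 * k * N / (r + 1) + 1 ∧
        (∀ m s c, some ((Sum.inr m, s), c) ∈ w → decide (y m = s) = c) ∧ F = cutBox w},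
      ?_, fun σ x h => ?_, fun x hx => ?_⟩
    · rintro σ j F ⟨-, -, w, -, h, -, rfl⟩
      have := cut_card w
      rw [ZMod.card] at this
      exact this.trans (mul_le_mul_of_nonneg_right h hp'.le)
    · choose F hF hS using h
      choose h1 h2 seg h3 h4 h5 h6 using hF
      obtain ⟨w, h7, h8⟩ := walk_glue (r + 1) σ seg h3
      rw [h1 0] at h7
      refine (cut_hard x y).1 ((hB _).2 ⟨w, ⟨_, h2 0, h7⟩, ?_⟩)
      rintro ⟨a | m, s⟩ c h
      · obtain ⟨j, hj⟩ := h8 _ h
        by_contra h9
        exact hS j a (h6 j ▸ cut_mem.2 ⟨s, c, hj, h9⟩)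
      · obtain ⟨j, hj⟩ := h8 _ h
        exact h5 j m s c hj
    · obtain ⟨w, ⟨⟨t, h1, h2⟩, h3⟩, h4, h5⟩ := hk _ ((hB _).1 ((cut_hard x y).2 hx))
      have h6 : ((tested w).count true : ℝ) ≤ k * (5 * N + 1) := by
        have := h5.trans (Nat.mul_le_mul_left k (cut_ones (Sum.elim x y)))
        rw [Fintype.card_sum, Fintype.card_fin, Fintype.card_fin] at this
        have h : ((tested w).count true : ℝ) ≤ (k * (N + (4 * N + 1)) : ℕ) := Nat.cast_le.2 this
        push_cast at h
        linarith
      have h7 : ((tested w).length : ℝ) / p ≤ k * (5 * N + 1) := by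
        rw [Fintype.card_prod, Fintype.card_sum, Fintype.card_fin, Fintype.card_fin,
          ZMod.card] at h4
        have h : ((tested w).length : ℝ) ≤ (k * ((N + (4 * N + 1)) * p) : ℕ) := Nat.cast_le.2 h4
        push_cast at h
        rw [div_le_iff₀ hp']
        linarith
      have h8 : (1 : ℝ) ≤ N := by exact_mod_cast hN
      have h9 : (0 : ℝ) ≤ k := Nat.cast_nonneg k
      obtain ⟨σ, seg, e1, e2, e3⟩ := walk_cut (cutWt p) (fun e => (cut_wt hp e).1)
        (fun e => (cut_wt hp e).2) (12 * k * N / (r + 1)) (by positivity) r h2 (by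
          rw [mul_div_cancel₀ _ (by positivity)]
          nlinarith [cut_sum (p := p) w])
      refine ⟨σ, fun j => ⟨cutBox (seg j), ⟨e1, e2 ▸ h1, seg j, (e3 j).1, (e3 j).2.1,
        fun m s c h => h3 _ c ((e3 j).2.2 _ h), rfl⟩, fun a h => ?_⟩⟩
      obtain ⟨s, c, k1, k2⟩ := cut_mem.1 h
      exact k2 (h3 _ c ((e3 j).2.2 _ k1))

end Pool.Agent.Work.MP_807b32_lc.Sem
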