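import Pool.Agent.Work.MP_807b32_lc.Sem.Select

/-!
Choosing one box for every row, and the resulting cylinder intersection.

Plan.
* `select_one`: for a row `ρ` attained on `E`, let `G γ` be the sum of `w x` over the points of
  the row with `a x = γ`, and choose `s ρ = a x*` with `x*` in the row maximising `G (a x)`. The
  left side restricted to the row is `∑ x in row, G (a x) / card row` (double counting), at most
  `G (s ρ)`. For rows not attained take `a x₀`.
* `select_all`: induction on the finite set `Js`, generalising the weight `w`: apply the induction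
  hypothesis to the weight `w x * p j x`, then `select_one` for `j` with the weight
  `if (all earlier matches) then w x else 0`, and update `s` at `j`.
* `exp_avg_le`: `exp (y) ≥ exp (m) * (1 + y - m)` (`Real.add_one_le_exp`), summed.
* `cyl_of_class`: `U = S₁ ∪ S₂ ∪ S₃ ∪ S₄`, `e = x₀`, `s` from `select_all` with `Js = univ`,
  `w = 1`. With `m z = U.piecewise z e` put
  `F₁ z = ∀ j ∉ I, ∀ i ∉ S₁, m z i ∉ s j (row j (m z)) i`,
  `F₂ z = ∀ j ∉ I, ∀ i ∈ S₁, ...`, `F₃ z = ∀ j ∈ I, ∀ i ∉ S₃, ...`, `F₄ z = ∀ j ∈ I, ∀ i ∈ S₃, ...`.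
  The matched points `x ∈ E` number at least `E.card * exp (- average)`; each gives the
  `D ^ (N - U.card)` points `z` equal to `x` on `U` (then `m z = x`), and these fibres are
  disjoint (`count_fibres`).
-/

namespace Pool.Agent.Work.MP_807b32_lc.Sem

open Finset

theorem cylc_pw {ι A : Type} [DecidableEq ι] (U S : Finset ι) (e z z' : ι → A)
    (h : ∀ i, i ∉ S → z i = z' i) (i : ι) (hi : i ∉ S) :
    U.piecewise z e i = U.piecewise z' e i := by
  by_cases k : i ∈ U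
  · rw [piecewise_eq_of_mem _ _ _ k, piecewise_eq_of_mem _ _ _ k, h i hi]
  · rw [piecewise_eq_of_notMem _ _ _ k, piecewise_eq_of_notMem _ _ _ k]

theorem cylc_inv {ι A J : Type} [DecidableEq ι] (U S : Finset ι) (e : ι → A) (T : J → Finset ι)
    (s : J → (ι → Option A) → ι → Finset A) (p : J → Prop) (q : ι → Prop)
    (hp : ∀ j, p j → S ⊆ T j) (hq : ∀ i, q i → i ∉ S) :
    InvOn S fun z => ∀ j, p j → ∀ i, q i →
      U.piecewise z e i ∉ s j (off (T j) (U.piecewise z e)) i := by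
  intro z z' h h1 j hj i hi
  rw [← cylc_pw U S e z z' h i (hq i hi), ← (off_eq_iff (T j) _ _).2
    fun k hk => cylc_pw U S e z z' h k fun k' => hk (hp j hj k')]
  exact h1 j hj i hi

theorem cylc_count {X J R Γ : Type} [Fintype J] (E : Finset X) (hE : E.Nonempty)
    (row : J → X → R) (a : J → X → Γ) (m : ℝ)
    (h : (E.card : ℝ) * m + ∑ j, (Lg E (row j) - Lg E (fun y => (row j y, a j y))) ≤ 0) :
    ∃ (s : J → R → Γ) (Z : Finset X), (∀ j r, ∃ x ∈ E, s j r = a j x) ∧ Z ⊆ E ∧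
      (∀ x ∈ Z, ∀ j, a j x = s j (row j x)) ∧ (E.card : ℝ) * Real.exp m ≤ Z.card := by
  classical
  obtain ⟨s, h1, h2⟩ := select_all E hE row a univ (fun _ => 1) fun _ _ => zero_le_one
  refine ⟨s, E.filter fun x => ∀ j ∈ univ, a j x = s j (row j x), h1, filter_subset _ _,
    fun x hx j => (mem_filter.1 hx).2 j (mem_univ j), ?_⟩
  rw [card_filter, Nat.cast_sum]
  simp only [Nat.cast_ite, Nat.cast_one, Nat.cast_zero]
  refine (exp_avg_le E (fun x => ∑ j, (Real.log (cls E (fun y => (row j y, a j y)) x) -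
    Real.log (cls E (row j) x))) m ?_).trans (le_trans (sum_le_sum fun x hx => ?_)
      (h2.trans (le_of_eq (sum_congr rfl fun x _ => by congr))))
  · rw [sum_comm]
    simp only [sum_sub_distrib] at h ⊢
    simp only [Lg] at h
    linarith
  · rw [one_mul, Real.exp_sum]
    refine le_of_eq (prod_congr rfl fun j _ => ?_)
    rw [Real.exp_sub, Real.exp_log (by exact_mod_cast cls_pos _ hx),
      Real.exp_log (by exact_mod_cast cls_pos _ hx)]

theorem cyl_of_class {ι A J : Type} [Fintype ι] [DecidableEq ι] [Fintype A] [DecidableEq A]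
    [Nonempty A] [Fintype J] [DecidableEq J] (E : Finset (ι → A)) (hE : E.Nonempty)
    (L : J → Set (ι → Finset A)) (α : J → (ι → A) → ι → Finset A)
    (hL : ∀ j, ∀ x ∈ E, α j x ∈ L j) (h0 : ∀ j, ∀ x ∈ E, Sat (α j x) x) (I : Finset J)
    (S₁ S₂ S₃ S₄ : Finset ι) (ρ : ℕ)
    (hρ : ρ ≤ S₁.card ∧ ρ ≤ S₂.card ∧ ρ ≤ S₃.card ∧ ρ ≤ S₄.card)
    (h12 : Disjoint S₁ S₂) (h34 : Disjoint S₃ S₄)
    (hU : ∀ x ∈ E, ∀ y ∈ E, ∀ i, i ∉ S₁ ∪ S₂ ∪ (S₃ ∪ S₄) → x i = y i) (lam : ℝ)
    (hlam : (E.card : ℝ) * (((S₁ ∪ S₂ ∪ (S₃ ∪ S₄)).card : ℝ) * Real.log (Fintype.card A) -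
          Real.log E.card) +
        ∑ j, (Lg E (off (if j ∈ I then S₃ ∪ S₄ else S₁ ∪ S₂)) -
          Lg E (fun y => (off (if j ∈ I then S₃ ∪ S₄ else S₁ ∪ S₂) y, α j y))) ≤
        E.card * lam) :
    Cyl (fun x => ∀ j, ∃ F ∈ L j, Sat F x) ρ (Real.exp (-lam)) := by
  obtain ⟨e, he⟩ := id hE
  generalize hT : (fun j => if j ∈ I then S₃ ∪ S₄ else S₁ ∪ S₂) = T
  have hT' : ∀ j, (if j ∈ I then S₃ ∪ S₄ else S₁ ∪ S₂) = T j := fun j => congrFun hT j
  have hT1 : ∀ j, j ∉ I → T j = S₁ ∪ S₂ := fun j hj => by rw [← hT', if_neg hj]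
  have hT2 : ∀ j, j ∈ I → T j = S₃ ∪ S₄ := fun j hj => by rw [← hT', if_pos hj]
  simp only [hT'] at hlam
  generalize hUU : S₁ ∪ S₂ ∪ (S₃ ∪ S₄) = U at hU hlam
  obtain ⟨s, Z, h1, h2, h3, h4⟩ := cylc_count E hE (fun j => off (T j)) α
    (-lam + ((U.card : ℝ) * Real.log (Fintype.card A) - Real.log E.card)) (by linarith)
  have hD : (0 : ℝ) < Fintype.card A := by exact_mod_cast Fintype.card_pos
  have hc : (0 : ℝ) < E.card := by exact_mod_cast hE.card_pos
  refine ⟨S₁, S₂, S₃, S₄, U, _, _, _, _, e, hρ, ?_,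
    ⟨cylc_inv U S₁ e T s (· ∉ I) (· ∉ S₁) (fun j hj => ?_) fun i hi => hi,
      cylc_inv U S₂ e T s (· ∉ I) (· ∈ S₁) (fun j hj => ?_) (disjoint_left.1 h12),
      cylc_inv U S₃ e T s (· ∈ I) (· ∉ S₃) (fun j hj => ?_) fun i hi => hi,
      cylc_inv U S₄ e T s (· ∈ I) (· ∈ S₃) (fun j hj => ?_) (disjoint_left.1 h34)⟩,
    fun z k1 k2 k3 k4 j => ?_, ?_⟩
  · subst hUU
    exact ⟨subset_union_left.trans subset_union_left, subset_union_right.trans subset_union_left,
      subset_union_left.trans subset_union_right, subset_union_right.trans subset_union_right⟩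
  · rw [hT1 j hj]
    exact subset_union_left
  · rw [hT1 j hj]
    exact subset_union_right
  · rw [hT2 j hj]
    exact subset_union_left
  · rw [hT2 j hj]
    exact subset_union_right
  · obtain ⟨x, hx, k5⟩ := h1 j (off (T j) (U.piecewise z e))
    refine ⟨_, hL j x hx, fun i => ?_⟩
    rw [← k5]
    by_cases hj : j ∈ I
    · exact (em (i ∈ S₃)).elim (k4 j hj i) (k3 j hj i)
    · exact (em (i ∈ S₁)).elim (k2 j hj i) (k1 j hj i)
  · have k0 : ∀ z, U.piecewise z e ∈ Z → ∀ j i,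
        U.piecewise z e i ∉ s j (off (T j) (U.piecewise z e)) i := fun z hz j i => by
      rw [← h3 _ hz j]
      exact h0 j _ (h2 hz) i
    have k1 := count_fibres U e Z (fun x hx => hU x (h2 hx) e he) _ fun z hz =>
      (⟨fun j (_ : j ∉ I) i (_ : i ∉ S₁) => k0 z hz j i,
        fun j (_ : j ∉ I) i (_ : i ∈ S₁) => k0 z hz j i,
        fun j (_ : j ∈ I) i (_ : i ∉ S₃) => k0 z hz j i,
        fun j (_ : j ∈ I) i (_ : i ∈ S₃) => k0 z hz j i⟩ : _ ∧ _ ∧ _ ∧ _)
    have k2 : (E.card : ℝ) * Real.exp (-lam + ((U.card : ℝ) * Real.log (Fintype.card A) -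
        Real.log E.card)) = Real.exp (-lam) * (Fintype.card A : ℝ) ^ U.card := by
      rw [Real.exp_add, Real.exp_sub, Real.exp_log hc, Real.exp_nat_mul, Real.exp_log hD]
      field_simp
    rw [k2] at h4
    refine le_of_mul_le_mul_right ?_ (pow_pos hD U.card)
    have k3 := (Nat.cast_le (α := ℝ)).2 k1
    push_cast at k3
    refine le_trans ?_ k3
    rw [mul_right_comm]
    exact mul_le_mul_of_nonneg_right h4 (pow_pos hD _).le

end Pool.Agent.Work.MP_807b32_lc.Sem
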