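import Mathlib.Data.ZMod.Basic
import Mathlib.Algebra.BigOperators.Fin

/-!
Boolean nondeterministic branching programs, the lightness condition on accepting walks, and the
hard function.
-/

namespace Pool.Agent.Work.MP_807b32_lc.Sem

/-- A nondeterministic branching program on Boolean variables `V` with node set `S`. An edge
labelled `none` is a free move; an edge labelled `some (q, c)` tests that variable `q` has the
value `c`. -/
structure NBP (V S : Type) where
  start : S
  accept : Set S
  edge : S → Option (V × Bool) → S → Prop

/-- `Walk B s run t`: the program has a walk from `s` to `t` whose edge labels form the list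
`run`. -/
inductive Walk {V S : Type} (B : NBP V S) : S → List (Option (V × Bool)) → S → Prop
  | nil (s : S) : Walk B s [] s
  | cons {s s' t : S} {e : Option (V × Bool)} {run : List (Option (V × Bool))} :
      B.edge s e s' → Walk B s' run t → Walk B s (e :: run) t

/-- `run` is an accepting computation on the input `w`: a walk from the start node to an
accepting node all of whose tests are passed by `w`. -/
def AcceptingRun {V S : Type} (B : NBP V S) (w : V → Bool) (run : List (Option (V × Bool))) :
    Prop :=
  (∃ t ∈ B.accept, Walk B B.start run t) ∧ ∀ q c, some (q, c) ∈ run → w q = c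

/-- The program accepts exactly the inputs on which `f` holds. -/
def Computes {V S : Type} (B : NBP V S) (f : (V → Bool) → Prop) : Prop :=
  ∀ w, f w ↔ ∃ run, AcceptingRun B w run

/-- The values tested along a walk, one entry for each test. -/
def tested {V : Type} (run : List (Option (V × Bool))) : List Bool :=
  run.filterMap (fun e => e.map Prod.snd)

/-- The program is `k`-light: every accepted input `w` has an accepting computation that makes at
most `k` times the number of variables many tests, and at most `k` times the number of ones of
`w` many tests for the value `true`. -/
def Light {V S : Type} [Fintype V] (B : NBP V S) (k : ℕ) : Prop :=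
  ∀ w, (∃ run, AcceptingRun B w run) → ∃ run, AcceptingRun B w run ∧
    (tested run).length ≤ k * Fintype.card V ∧
    (tested run).count true ≤ k * (Finset.univ.filter (fun q => w q = true)).card

/-- The quartic form, the sum of `y (a + b + c + e) * x a * x b * x c * x e`. -/
def quart (p N : ℕ) (x : Fin N → ZMod p) (y : Fin (4 * N + 1) → ZMod p) : ZMod p :=
  ∑ a : Fin N, ∑ b : Fin N, ∑ c : Fin N, ∑ e : Fin N,
    y ⟨a.val + b.val + c.val + e.val, by omega⟩ * (x a * x b * x c * x e)

/-- The hard function. The variables form `N + (4 * N + 1)` blocks of `p` bits. The input is
accepted if every block has exactly one bit equal to one, and the residues `x`, `y` marked in the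
blocks satisfy `quart x y = y (4 * N)`. -/
def Hard (p N : ℕ) (w : (Fin N ⊕ Fin (4 * N + 1)) × ZMod p → Bool) : Prop :=
  ∃ (x : Fin N → ZMod p) (y : Fin (4 * N + 1) → ZMod p),
    (∀ a s, w (Sum.inl a, s) = true ↔ x a = s) ∧ (∀ m s, w (Sum.inr m, s) = true ↔ y m = s) ∧
      quart p N x y = y (Fin.last (4 * N))

end Pool.Agent.Work.MP_807b32_lc.Sem
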