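import Pool.Agent.Work.MP_807b32_lc.Sem.Base

/-!
Entropy inequalities in counting form.

Plan.
* `sum_div_cls`: group the sum by the value of `g` (`Finset.sum_fiberwise_of_maps_to` or
  `Finset.sum_comp`); on the fibre over `γ` the class size is the size of the fibre (the fibre in
  `E` equals the fibre in `Ω` by `hE`).
* `gibbs`: `log y ≤ y - 1` for `y = cls c x * q x / cls g x`; the sum over `x` of `y`, grouped by
  `c`-classes, is at most the sum of the class sizes, which is `Ω.card`.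
* `sub`: `gibbs` with fine label `(g, h)` and `q x = (cls g x / cls c x) * (cls h x / cls c x)`.
  Inside one `c`-class `E` the sum of `q / cls (g,h)` is a sum over attained pairs `(γ, δ)` of
  `(n γ / E.card) * (n δ / E.card)`, at most the product of two sums equal to one.
* `Phi_super`: `sub` with `g = (a, off (insert i T))`, `h = (a, off T')`,
  `c = (a, off (insert i T'))`; the pair `(g, h)` has the classes of `(a, off T)` (`Lg_congr`,
  `off_eq_iff`).
* `Phi_step`: `gibbs` with `q = 1 / card A`; a class of `(a, off (insert i T))` contains at most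
  `card A` classes of `(a, off (T.erase i))` (use `sum_div_cls` with `f = 1` and the injection of
  the attained labels into `A` by the `i`-th coordinate).
-/

namespace Pool.Agent.Work.MP_807b32_lc.Sem

open Finset

theorem sum_div_cls {X Γ : Type} [DecidableEq Γ] (Ω E : Finset X) (g : X → Γ) (f : Γ → ℝ)
    (hEΩ : E ⊆ Ω) (hE : ∀ x ∈ E, ∀ y ∈ Ω, g y = g x → y ∈ E) :
    ∑ x ∈ E, f (g x) / (cls Ω g x : ℝ) = ∑ γ ∈ E.image g, f γ := by
  rw [← sum_fiberwise_of_maps_to (fun x hx => mem_image_of_mem g hx)]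
  refine sum_congr rfl fun γ hγ => ?_
  obtain ⟨x₀, h0, rfl⟩ := mem_image.1 hγ
  have h1 : cls Ω g x₀ = (E.filter fun y => g y = g x₀).card := by
    rw [cls_eq]
    refine congrArg card (ext fun y => ?_)
    simp only [mem_filter]
    exact ⟨fun h => ⟨hE x₀ h0 y h.1 h.2, h.2⟩, fun h => ⟨hEΩ h.1, h.2⟩⟩
  have h2 : (cls Ω g x₀ : ℝ) ≠ 0 := Nat.cast_ne_zero.2 (cls_pos g (hEΩ h0)).ne'
  rw [sum_congr rfl (g := fun _ => f (g x₀) / (cls Ω g x₀ : ℝ)) fun x hx => by
    rw [cls_eq_of_eq (mem_filter.1 hx).2, (mem_filter.1 hx).2], sum_const, ← h1, nsmul_eq_mul,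
    mul_div_cancel₀ _ h2]

theorem gibbs {X Γ Γ' : Type} [DecidableEq Γ'] (Ω : Finset X) (g : X → Γ) (c : X → Γ')
    (q : X → ℝ) (hq : ∀ x ∈ Ω, 0 < q x)
    (hk : ∀ x₀ ∈ Ω, ∑ x ∈ Ω.filter (fun x => c x = c x₀), q x / (cls Ω g x : ℝ) ≤ 1) :
    Lg Ω c + ∑ x ∈ Ω, Real.log (q x) ≤ Lg Ω g := by
  have h1 : ∑ x ∈ Ω, (cls Ω c x : ℝ) * (q x / (cls Ω g x : ℝ)) ≤ ∑ _x ∈ Ω, (1 : ℝ) := by
    refine le_trans (le_of_eq ?_) (sum_le_sum hk)
    rw [sum_comm' (t' := Ω) (s' := fun x => Ω.filter fun y => c y = c x) fun x y => by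
      simp only [mem_filter]
      exact ⟨fun h => ⟨⟨h.1, h.2.2.symm⟩, h.2.1⟩, fun h => ⟨h.1.1, h.2, h.1.2.symm⟩⟩]
    exact sum_congr rfl fun x _ => by rw [sum_const, nsmul_eq_mul, cls_eq]
  have h2 : ∑ x ∈ Ω, (Real.log (cls Ω c x) + Real.log (q x) - Real.log (cls Ω g x)) ≤
      ∑ x ∈ Ω, ((cls Ω c x : ℝ) * (q x / (cls Ω g x : ℝ)) - 1) := by
    refine sum_le_sum fun x hx => ?_
    have h3 : (0 : ℝ) < cls Ω c x := Nat.cast_pos.2 (cls_pos c hx)
    have h4 : (0 : ℝ) < cls Ω g x := Nat.cast_pos.2 (cls_pos g hx)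
    have h5 := hq x hx
    rw [add_sub_assoc, ← Real.log_div h5.ne' h4.ne', ← Real.log_mul h3.ne' (div_pos h5 h4).ne']
    exact Real.log_le_sub_one_of_pos (mul_pos h3 (div_pos h5 h4))
  rw [sum_sub_distrib, sum_sub_distrib, sum_add_distrib] at h2
  unfold Lg
  linarith

theorem ent_one {X Γ Γ' : Type} [DecidableEq Γ] [DecidableEq Γ'] {Ω : Finset X} {g : X → Γ}
    {c : X → Γ'} (hg : ∀ x ∈ Ω, ∀ y ∈ Ω, g y = g x → c y = c x) {x₀ : X} (h0 : x₀ ∈ Ω) :
    ∑ γ ∈ (Ω.filter fun x => c x = c x₀).image g,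
      ((Ω.filter fun y => g y = γ).card : ℝ) / (cls Ω c x₀ : ℝ) = 1 := by
  have h1 : (cls Ω c x₀ : ℝ) ≠ 0 := Nat.cast_ne_zero.2 (cls_pos c h0).ne'
  rw [← sum_div_cls Ω _ g _ (filter_subset _ _) fun x hx y hy e =>
    mem_filter.2 ⟨hy, (hg x (mem_filter.1 hx).1 y hy e).trans (mem_filter.1 hx).2⟩,
    sum_congr rfl (g := fun _ => 1 / (cls Ω c x₀ : ℝ)) fun x hx => by
      rw [← cls_eq, div_right_comm,
        div_self (Nat.cast_ne_zero.2 (cls_pos g (mem_filter.1 hx).1).ne')],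
    sum_const, ← cls_eq, nsmul_eq_mul, mul_one_div_cancel h1]

theorem sub {X Γ₁ Γ₂ Γ₃ : Type} (Ω : Finset X) (g : X → Γ₁) (h : X → Γ₂) (c : X → Γ₃)
    (hg : ∀ x ∈ Ω, ∀ y ∈ Ω, g y = g x → c y = c x)
    (hh : ∀ x ∈ Ω, ∀ y ∈ Ω, h y = h x → c y = c x) :
    Lg Ω g + Lg Ω h ≤ Lg Ω (fun x => (g x, h x)) + Lg Ω c := by
  classical
  have h1 := gibbs Ω (fun x => (g x, h x)) c
    (fun x => (cls Ω g x : ℝ) / (cls Ω c x : ℝ) * ((cls Ω h x : ℝ) / (cls Ω c x : ℝ)))
    (fun x hx => mul_pos (div_pos (Nat.cast_pos.2 (cls_pos g hx)) (Nat.cast_pos.2 (cls_pos c hx)))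
      (div_pos (Nat.cast_pos.2 (cls_pos h hx)) (Nat.cast_pos.2 (cls_pos c hx)))) fun x₀ h0 => ?_
  · rw [sum_congr rfl (g := fun x => Real.log (cls Ω g x) - Real.log (cls Ω c x) +
      (Real.log (cls Ω h x) - Real.log (cls Ω c x))) fun x hx => by
        have h2 : (cls Ω g x : ℝ) ≠ 0 := Nat.cast_ne_zero.2 (cls_pos g hx).ne'
        have h3 : (cls Ω h x : ℝ) ≠ 0 := Nat.cast_ne_zero.2 (cls_pos h hx).ne'
        have h4 : (cls Ω c x : ℝ) ≠ 0 := Nat.cast_ne_zero.2 (cls_pos c hx).ne'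
        rw [Real.log_mul (div_ne_zero h2 h4) (div_ne_zero h3 h4), Real.log_div h2 h4,
          Real.log_div h3 h4], sum_add_distrib, sum_sub_distrib, sum_sub_distrib] at h1
    unfold Lg at h1 ⊢
    linarith
  · have h2 := sum_div_cls Ω (Ω.filter fun x => c x = c x₀) (fun x => (g x, h x))
      (fun p => ((Ω.filter fun y => g y = p.1).card : ℝ) / (cls Ω c x₀ : ℝ) *
        (((Ω.filter fun y => h y = p.2).card : ℝ) / (cls Ω c x₀ : ℝ))) (filter_subset _ _)
      fun x hx y hy e => mem_filter.2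
        ⟨hy, (hg x (mem_filter.1 hx).1 y hy (congrArg Prod.fst e)).trans (mem_filter.1 hx).2⟩
    refine le_trans (le_of_eq ((sum_congr rfl fun x hx => ?_).trans h2)) ?_
    · rw [cls_eq_of_eq (mem_filter.1 hx).2, cls_eq Ω g, cls_eq Ω h]
    · refine (sum_le_sum_of_subset_of_nonneg
        (t := (Ω.filter fun x => c x = c x₀).image g ×ˢ (Ω.filter fun x => c x = c x₀).image h)
        (fun p hp => ?_) fun _ _ _ => by positivity).trans (le_of_eq ?_)
      · obtain ⟨x, hx, rfl⟩ := mem_image.1 hp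
        exact mem_product.2 ⟨mem_image_of_mem g hx, mem_image_of_mem h hx⟩
      · rw [← one_mul (1 : ℝ)]
        nth_rw 1 [← ent_one hg h0]
        rw [← ent_one hh h0, sum_mul_sum, sum_product]

variable {ι A Γ : Type} [DecidableEq ι]

theorem Phi_nonneg (Ω : Finset (ι → A)) (a : (ι → A) → Γ) (T : Finset ι) : 0 ≤ Phi Ω a T :=
  Lg_nonneg _ _

theorem Phi_mono (Ω : Finset (ι → A)) (a : (ι → A) → Γ) {T T' : Finset ι} (h : T ⊆ T') :
    Phi Ω a T ≤ Phi Ω a T' := by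
  refine Lg_mono fun x _ y _ e => ?_
  simp only [Prod.mk.injEq, off_eq_iff] at e ⊢
  exact ⟨e.1, fun j hj => e.2 j fun h1 => hj (h h1)⟩

theorem Phi_super (Ω : Finset (ι → A)) (a : (ι → A) → Γ) {T T' : Finset ι} (h : T ⊆ T')
    {i : ι} (hi : i ∉ T') :
    Phi Ω a (insert i T) - Phi Ω a T ≤ Phi Ω a (insert i T') - Phi Ω a T' := by
  have h1 := sub Ω (fun x => (a x, off (insert i T) x)) (fun x => (a x, off T' x))
    (fun x => (a x, off (insert i T') x)) (fun x _ y _ e => ?_) fun x _ y _ e => ?_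
  · rw [Lg_congr (Ω := Ω) (g := fun x => ((a x, off (insert i T) x), (a x, off T' x)))
      (c := fun x => (a x, off T x)) fun x _ y _ => ?_] at h1
    · unfold Phi
      linarith
    · simp only [Prod.mk.injEq, off_eq_iff]
      refine ⟨fun e => ⟨e.1.1, fun j hj => ?_⟩, fun e => ⟨⟨e.1, fun j hj =>
        e.2 j fun h2 => hj (mem_insert_of_mem h2)⟩, e.1, fun j hj => e.2 j fun h2 => hj (h h2)⟩⟩
      by_cases h2 : j = i
      · exact e.2.2 j (h2 ▸ hi)
      · exact e.1.2 j fun h3 => (mem_insert.1 h3).elim h2 hj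
  · simp only [Prod.mk.injEq, off_eq_iff] at e ⊢
    exact ⟨e.1, fun j hj => e.2 j fun h2 => hj (insert_subset_insert i h h2)⟩
  · simp only [Prod.mk.injEq, off_eq_iff] at e ⊢
    exact ⟨e.1, fun j hj => e.2 j fun h2 => hj (mem_insert_of_mem h2)⟩

theorem Phi_step [Fintype A] (Ω : Finset (ι → A)) (a : (ι → A) → Γ) (T : Finset ι) (i : ι) :
    Phi Ω a (insert i T) - Phi Ω a (T.erase i) ≤ Ω.card * Real.log (Fintype.card A) := by
  classical
  have h0 : ∀ x ∈ Ω, (0 : ℝ) < Fintype.card A := fun x _ =>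
    Nat.cast_pos.2 (Fintype.card_pos_iff.2 ⟨x i⟩)
  have h1 := gibbs Ω (fun x => (a x, off (T.erase i) x)) (fun x => (a x, off (insert i T) x))
    (fun _ => (Fintype.card A : ℝ)⁻¹) (fun x hx => inv_pos.2 (h0 x hx)) fun x₀ hx₀ => ?_
  · rw [Real.log_inv, sum_const, nsmul_eq_mul] at h1
    unfold Phi
    linarith
  · rw [sum_div_cls Ω _ (fun x => (a x, off (T.erase i) x)) (fun _ => (Fintype.card A : ℝ)⁻¹)
      (filter_subset _ _) fun x hx y hy e => mem_filter.2 ⟨hy, Eq.trans ?_ (mem_filter.1 hx).2⟩,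
      sum_const, nsmul_eq_mul, mul_inv_le_iff₀ (h0 x₀ hx₀), one_mul, Nat.cast_le]
    · refine (card_le_card (t := univ.image fun s : A =>
        (a x₀, off (T.erase i) (Function.update x₀ i s))) fun γ hγ => ?_).trans card_image_le
      obtain ⟨x, hx, rfl⟩ := mem_image.1 hγ
      have e := (mem_filter.1 hx).2
      refine mem_image.2 ⟨x i, mem_univ _, ?_⟩
      simp only [Prod.mk.injEq, off_eq_iff] at e ⊢
      refine ⟨e.1.symm, fun j hj => ?_⟩
      by_cases h2 : j = i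
      · rw [h2, Function.update_self]
      · rw [Function.update_of_ne h2]
        exact (e.2 j fun h3 => (mem_insert.1 h3).elim h2 fun h4 => hj (mem_erase.2 ⟨h2, h4⟩)).symm
    · simp only [Prod.mk.injEq, off_eq_iff] at e ⊢
      exact ⟨e.1, fun j hj => e.2 j fun h2 => hj (mem_insert_of_mem (mem_of_mem_erase h2))⟩

end Pool.Agent.Work.MP_807b32_lc.Sem
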