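import Pool.Agent.Work.MP_807b32_lc.Sem.Base

/-!
A random set `I` of labels splits off many sites on both sides.

Plan.
* `pair_count`: if the bracket is not positive there is nothing to prove. Otherwise `K` and `K'`
  are disjoint and have fewer than `k₀` elements. The sets `I` with `K ⊆ I` and `I` disjoint from
  `K'` form the interval `Finset.Icc K K'ᶜ`, of size `2 ^ (card J - K'.card - K.card)`
  (`Finset.card_Icc_finset`), and `2 ^ card J * (1/4) ^ k₀` is at most that.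
* `min_bound`: if `T` is empty both sides vanish. Otherwise `min a b * T.card ≥ a * b` as
  `a, b ≤ T.card`; `∑ I, a I * b I = ∑ i ∈ T, ∑ i' ∈ T, #{I | K i ⊆ I ∧ Disjoint (K i') I}`; use
  `pair_count` and the double counts `∑ i ∈ T, (K i).card = ∑ j, h j`,
  `∑ i ∈ T, ∑ i' ∈ T, (K i ∩ K i').card = ∑ j, h j ^ 2`.
* `sq_div_le`: cases `t ≤ 2 * n` and `2 * n < t`.
* `split_four`: `Finset.exists_subset_card_eq` four times.
-/

namespace Pool.Agent.Work.MP_807b32_lc.Sem

open Finset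

theorem pair_count {J : Type} [Fintype J] [DecidableEq J] (K K' : Finset J) (k₀ : ℕ)
    (hk : 0 < k₀) :
    (2 : ℝ) ^ Fintype.card J * ((1 / 4) ^ k₀ *
        (1 - (K.card : ℝ) / k₀ - (K'.card : ℝ) / k₀ - ((K ∩ K').card : ℝ))) ≤
      ((univ.filter (fun I : Finset J => K ⊆ I ∧ Disjoint K' I)).card : ℝ) := by
  have hk' : (0 : ℝ) < k₀ := by exact_mod_cast hk
  rcases le_or_gt (1 - (K.card : ℝ) / k₀ - (K'.card : ℝ) / k₀ - ((K ∩ K').card : ℝ)) 0 with h | h
  · exact (mul_nonpos_of_nonneg_of_nonpos (by positivity)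
      (mul_nonpos_of_nonneg_of_nonpos (by positivity) h)).trans (Nat.cast_nonneg _)
  have h1 : (0 : ℝ) ≤ (K.card : ℝ) / k₀ := by positivity
  have h2 : (0 : ℝ) ≤ (K'.card : ℝ) / k₀ := by positivity
  have h3 : (0 : ℝ) ≤ ((K ∩ K').card : ℝ) := Nat.cast_nonneg _
  have h4 : (K ∩ K').card = 0 := by
    have : ((K ∩ K').card : ℝ) < 1 := by linarith
    exact Nat.lt_one_iff.1 (by exact_mod_cast this)
  have h5 : K.card ≤ k₀ := by
    have : (K.card : ℝ) / k₀ ≤ 1 := by linarith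
    exact_mod_cast (div_le_one hk').1 this
  have h6 : K'.card ≤ k₀ := by
    have : (K'.card : ℝ) / k₀ ≤ 1 := by linarith
    exact_mod_cast (div_le_one hk').1 this
  have h7 : K ⊆ K'ᶜ := subset_compl_iff_disjoint_right.2
    (disjoint_iff_inter_eq_empty.2 (card_eq_zero.1 h4))
  have h8 : univ.filter (fun I : Finset J => K ⊆ I ∧ Disjoint K' I) = Icc K K'ᶜ := by
    ext I
    rw [mem_filter, mem_Icc, subset_compl_iff_disjoint_left]
    exact and_iff_right (mem_univ I)
  rw [h8, card_Icc_finset h7, card_compl, Nat.cast_pow, Nat.cast_ofNat]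
  have h9 : (2 : ℝ) ^ Fintype.card J ≤ 2 ^ (Fintype.card J - K'.card - K.card) * 4 ^ k₀ := by
    rw [show (4 : ℝ) = 2 ^ 2 by norm_num, ← pow_mul, ← pow_add]
    exact pow_le_pow_right₀ (by norm_num) (by omega)
  have h10 : (4 : ℝ) ^ k₀ * (1 / 4) ^ k₀ = 1 := by
    rw [← mul_pow]
    norm_num
  calc (2 : ℝ) ^ Fintype.card J * ((1 / 4) ^ k₀ *
        (1 - (K.card : ℝ) / k₀ - (K'.card : ℝ) / k₀ - ((K ∩ K').card : ℝ)))
      ≤ 2 ^ (Fintype.card J - K'.card - K.card) * 4 ^ k₀ * ((1 / 4) ^ k₀ * 1) := by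
        gcongr
        linarith
    _ = _ := by rw [mul_one, mul_assoc, h10, mul_one]

theorem minj_card {ι : Type} (T : Finset ι) (p : ι → Prop) [DecidablePred p] :
    ((T.filter p).card : ℝ) = ∑ i ∈ T, if p i then 1 else 0 := by
  rw [sum_boole]

theorem minj_mul {ι : Type} (T : Finset ι) (p q : ι → Prop) [DecidablePred p] [DecidablePred q] :
    ((T.filter p).card : ℝ) * (T.filter q).card =
      ∑ i ∈ T, ∑ i' ∈ T, if p i ∧ q i' then 1 else 0 := by
  rw [minj_card, minj_card, sum_mul_sum]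
  refine sum_congr rfl fun i _ => sum_congr rfl fun i' _ => ?_
  by_cases h : p i <;> by_cases h' : q i' <;> simp [h, h']

theorem minj_self {J : Type} [Fintype J] [DecidableEq J] (K : Finset J) :
    (K.card : ℝ) = ∑ j, if j ∈ K then 1 else 0 := by
  rw [← minj_card, filter_mem_eq_inter, univ_inter]

theorem min_bound {ι J : Type} [DecidableEq ι] [Fintype J] [DecidableEq J] (T : Finset ι)
    (K : ι → Finset J) (k₀ : ℕ) (hk : 0 < k₀) :
    (2 : ℝ) ^ Fintype.card J * ((1 / 4) ^ k₀ * ((T.card : ℝ)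
        - 2 * (∑ j, ((T.filter (fun i => j ∈ K i)).card : ℝ)) / k₀
        - (∑ j, ((T.filter (fun i => j ∈ K i)).card : ℝ) ^ 2) / T.card)) ≤
      ∑ I : Finset J, ((min (T.filter (fun i => K i ⊆ I)).card
        (T.filter (fun i => Disjoint (K i) I)).card : ℕ) : ℝ) := by
  rcases T.eq_empty_or_nonempty with rfl | hT
  · simp
  have ht : (0 : ℝ) < T.card := by exact_mod_cast card_pos.2 hT
  have e1 : ∑ j, ((T.filter (fun i => j ∈ K i)).card : ℝ) = ∑ i ∈ T, ((K i).card : ℝ) := by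
    simp only [minj_card, minj_self]
    exact sum_comm
  have e2 : ∑ j, ((T.filter (fun i => j ∈ K i)).card : ℝ) ^ 2 =
      ∑ i ∈ T, ∑ i' ∈ T, ((K i ∩ K i').card : ℝ) := by
    simp only [sq, minj_mul, minj_self, mem_inter]
    rw [sum_comm]
    exact sum_congr rfl fun i _ => sum_comm
  have e3 : ∑ I : Finset J, ((T.filter (fun i => K i ⊆ I)).card : ℝ) *
      (T.filter (fun i => Disjoint (K i) I)).card = ∑ i ∈ T, ∑ i' ∈ T,
        ((univ.filter (fun I : Finset J => K i ⊆ I ∧ Disjoint (K i') I)).card : ℝ) := by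
    simp only [minj_mul]
    simp only [minj_card]
    rw [sum_comm]
    exact sum_congr rfl fun i _ => sum_comm
  have e4 : ∑ I : Finset J, ((T.filter (fun i => K i ⊆ I)).card : ℝ) *
      (T.filter (fun i => Disjoint (K i) I)).card ≤
      (∑ I : Finset J, ((min (T.filter (fun i => K i ⊆ I)).card
        (T.filter (fun i => Disjoint (K i) I)).card : ℕ) : ℝ)) * T.card := by
    rw [sum_mul]
    refine sum_le_sum fun I _ => ?_
    have h1 := card_filter_le T fun i => K i ⊆ I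
    have h2 := card_filter_le T fun i => Disjoint (K i) I
    rw [← Nat.cast_mul, ← Nat.cast_mul, Nat.cast_le]
    rcases le_total (T.filter (fun i => K i ⊆ I)).card
      (T.filter (fun i => Disjoint (K i) I)).card with h | h
    · rw [min_eq_left h]
      exact Nat.mul_le_mul_left _ h2
    · rw [min_eq_right h, mul_comm]
      exact Nat.mul_le_mul_left _ h1
  have e5 := sum_le_sum (s := T) fun i _ => sum_le_sum (s := T) fun i' _ =>
    pair_count (K i) (K i') k₀ hk
  refine le_of_mul_le_mul_right (le_trans (le_of_eq ?_) (e5.trans (e3 ▸ e4))) ht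
  rw [e1, e2]
  simp only [← mul_sum, sum_sub_distrib, sum_const, nsmul_eq_mul, ← sum_div]
  field_simp
  ring

theorem sq_div_le (h n t : ℝ) (hh : 0 ≤ h) (hn : h ≤ n) (ht : 0 < t) :
    h ^ 2 / n ≤ 2 * h ^ 2 / t + 2 * (n - t) ^ 2 / t := by
  have h1 : 0 ≤ 2 * h ^ 2 / t := by positivity
  have h2 : 0 ≤ 2 * (n - t) ^ 2 / t := by positivity
  rcases (hh.trans hn).eq_or_lt with rfl | h0
  · rw [div_zero]
    linarith
  rcases le_or_gt t (2 * n) with h3 | h3
  · have : h ^ 2 / n ≤ 2 * h ^ 2 / t := by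
      rw [div_le_div_iff₀ h0 ht]
      nlinarith [sq_nonneg h]
    linarith
  · have h4 : h ^ 2 / n ≤ n := by
      rw [div_le_iff₀ h0]
      nlinarith
    have h5 : n ≤ 2 * (n - t) ^ 2 / t := by
      rw [le_div_iff₀ ht]
      nlinarith
    linarith

theorem split_four {ι : Type} [DecidableEq ι] (P Q : Finset ι) :
    ∃ S₁ S₂ S₃ S₄ : Finset ι, S₁ ⊆ P ∧ S₂ ⊆ P ∧ S₃ ⊆ Q ∧ S₄ ⊆ Q ∧
      min P.card Q.card / 4 ≤ S₁.card ∧ min P.card Q.card / 4 ≤ S₂.card ∧
      min P.card Q.card / 4 ≤ S₃.card ∧ min P.card Q.card / 4 ≤ S₄.card ∧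
      Disjoint S₁ S₂ ∧ Disjoint S₃ S₄ := by
  have key : ∀ R : Finset ι, min P.card Q.card ≤ R.card → ∃ S S' : Finset ι, S ⊆ R ∧ S' ⊆ R ∧
      min P.card Q.card / 4 ≤ S.card ∧ min P.card Q.card / 4 ≤ S'.card ∧ Disjoint S S' := by
    intro R hR
    obtain ⟨S, h1, h2⟩ := exists_subset_card_eq (s := R) (n := min P.card Q.card / 4) (by omega)
    refine ⟨S, R \ S, h1, sdiff_subset, h2.ge, ?_, disjoint_sdiff⟩
    rw [card_sdiff_of_subset h1]
    omega
  obtain ⟨S₁, S₂, a1, a2, a3, a4, a5⟩ := key P (min_le_left _ _)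
  obtain ⟨S₃, S₄, b1, b2, b3, b4, b5⟩ := key Q (min_le_right _ _)
  exact ⟨S₁, S₂, S₃, S₄, a1, a2, b1, b2, a3, a4, b3, b4, a5, b5⟩

end Pool.Agent.Work.MP_807b32_lc.Sem
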