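import Pool.Agent.Work.MP_807b32_lc.Sem.FreeL
import Pool.Agent.Work.MP_807b32_lc.Sem.CylC
import Pool.Agent.Work.MP_807b32_lc.Sem.MinJ
import Pool.Agent.Work.MP_807b32_lc.Sem.LemG

/-!
For fixed `T` and `I`: a dense cylinder intersection, once the entropy balance is positive.
-/

namespace Pool.Agent.Work.MP_807b32_lc.Sem

open Finset

theorem fixed_class {X Γ : Type} [DecidableEq Γ] (Ω : Finset X) (hΩ : Ω.Nonempty) (c : X → Γ)
    (f : X → ℝ) (h : 0 ≤ ∑ x ∈ Ω, f x) :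
    ∃ x₀ ∈ Ω, 0 ≤ ∑ x ∈ Ω.filter (fun x => c x = c x₀), f x := by
  by_contra hcon
  push Not at hcon
  have h1 : ∑ γ ∈ Ω.image c, ∑ x ∈ Ω.filter (fun x => c x = γ), f x = ∑ x ∈ Ω, f x :=
    Finset.sum_fiberwise_of_maps_to (fun x hx => Finset.mem_image_of_mem c hx) f
  have h2 : ∑ γ ∈ Ω.image c, ∑ x ∈ Ω.filter (fun x => c x = γ), f x < ∑ _γ ∈ Ω.image c, (0 : ℝ) := by
    apply Finset.sum_lt_sum_of_nonempty (hΩ.image c)
    intro γ hγ
    obtain ⟨x, hx, rfl⟩ := Finset.mem_image.mp hγ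
    exact hcon x hx
  simp at h2
  linarith

theorem fixed_cls_sub {X Γ Γ' : Type} {Ω E : Finset X} {g : X → Γ} {g' : X → Γ'} {x : X}
    (h : ∀ y, (y ∈ Ω ∧ g y = g x) ↔ (y ∈ E ∧ g' y = g' x)) : cls Ω g x = cls E g' x := by
  classical
  rw [cls_eq, cls_eq]
  congr 1
  ext y
  simp only [Finset.mem_filter]
  exact h y

theorem fixed {ι A J : Type} [Fintype ι] [DecidableEq ι] [Fintype A] [DecidableEq A]
    [Nonempty A] [Fintype J] [DecidableEq J] (Ω : Finset (ι → A))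
    (L : J → Set (ι → Finset A)) (α : J → (ι → A) → ι → Finset A)
    (hL : ∀ j, ∀ x ∈ Ω, α j x ∈ L j) (h0 : ∀ j, ∀ x ∈ Ω, Sat (α j x) x)
    (T : Finset ι) (I : Finset J) (SA SB : (ι → A) → Finset ι)
    (hSA : ∀ x, SA x ⊆ T) (hSB : ∀ x, SB x ⊆ T) (B : ℝ) (hB : 1 ≤ B)
    (hlA : ∀ j, j ∉ I → ∀ x ∈ Ω, ∀ i ∈ SA x, x i ∉ heavy Ω (α j) T B x i)
    (hlB : ∀ j, j ∈ I → ∀ x ∈ Ω, ∀ i ∈ SB x, x i ∉ heavy Ω (α j) T B x i)
    (Δ : ℝ) (hΔ : (Fintype.card A : ℝ) ^ Fintype.card ι * Real.exp (-Δ) ≤ Ω.card) (n : ℝ)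
    (hbal : (Ω.card : ℝ) * (Δ + T.card * Real.log 4 +
          Fintype.card J * (T.card * Real.log B + T.card * Real.log 4) + n) +
        ∑ j, TC (Phi Ω (α j)) T ≤
      ∑ x ∈ Ω, ((min (SA x).card (SB x).card / 4 : ℕ) : ℝ) * Real.log (Fintype.card A) / 16) :
    ∃ ρ : ℕ, Cyl (fun x => ∀ j, ∃ F ∈ L j, Sat F x) ρ
      (Real.exp (n - ρ * Real.log (Fintype.card A) / 16)) := by
  classical
  have hD : (0 : ℝ) < Fintype.card A := by exact_mod_cast Fintype.card_pos
  have hΩ : Ω.Nonempty := by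
    rw [← Finset.card_pos]
    have : (0 : ℝ) < Ω.card := lt_of_lt_of_le (by positivity) hΔ
    exact_mod_cast this
  choose S₁ S₂ S₃ S₄ hs1 hs2 hs3 hs4 hc1 hc2 hc3 hc4 h12 h34 using
    fun v : Finset ι × Finset ι => split_four v.1 v.2
  set V : (ι → A) → Finset ι × Finset ι := fun x => (SA x, SB x) with hVdef
  set 𝒱₀ : Finset (Finset ι × Finset ι) := T.powerset ×ˢ T.powerset with h𝒱
  have hV : ∀ x ∈ Ω, V x ∈ 𝒱₀ := by
    intro x _
    simp [hVdef, h𝒱, hSA x, hSB x]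
  have hK : (𝒱₀.card : ℝ) ≤ (4 : ℝ) ^ T.card := by
    rw [h𝒱, Finset.card_product, Finset.card_powerset]
    push_cast
    rw [← mul_pow]
    norm_num
  have hlog4 : Real.log ((4 : ℝ) ^ T.card) = T.card * Real.log 4 := by rw [Real.log_pow]
  set SU : Finset ι × Finset ι → Finset ι := fun v => S₁ v ∪ S₂ v ∪ (S₃ v ∪ S₄ v) with hSU
  set SJ : J → Finset ι × Finset ι → Finset ι :=
    fun j v => if j ∈ I then S₃ v ∪ S₄ v else S₁ v ∪ S₂ v with hSJ
  have hz := free_zero Ω V 𝒱₀ hV SU _ hK Δ hΔ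
  have hJ : ∀ j, Lg Ω (fun y => (V y, off (SJ j (V y)) y)) -
      Lg Ω (fun y => ((V y, off (SJ j (V y)) y), α j y)) ≤
      Ω.card * (T.card * Real.log B + Real.log ((4 : ℝ) ^ T.card)) + TC (Phi Ω (α j)) T := by
    intro j
    apply free_light Ω V 𝒱₀ hV (SJ j) _ hK (α j) T _ B hB
    · intro x hx i hi
      by_cases hj : j ∈ I
      · simp only [hSJ, hj, if_true] at hi
        have hi' : i ∈ SB x := by
          rcases Finset.mem_union.mp hi with h | h
          · exact hs3 (V x) h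
          · exact hs4 (V x) h
        exact not_mem_heavy Ω (α j) T B (hSB x hi') (hlB j hj x hx i hi')
      · simp only [hSJ, hj, if_false] at hi
        have hi' : i ∈ SA x := by
          rcases Finset.mem_union.mp hi with h | h
          · exact hs1 (V x) h
          · exact hs2 (V x) h
        exact not_mem_heavy Ω (α j) T B (hSA x hi') (hlA j hj x hx i hi')
    · intro x _
      by_cases hj : j ∈ I
      · simp only [hSJ, hj, if_true]
        exact Finset.union_subset ((hs3 (V x)).trans (hSB x)) ((hs4 (V x)).trans (hSB x))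
      · simp only [hSJ, hj, if_false]
        exact Finset.union_subset ((hs1 (V x)).trans (hSA x)) ((hs2 (V x)).trans (hSA x))
  rw [hlog4] at hz hJ
  set c : (ι → A) → (Finset ι × Finset ι) × (ι → Option A) :=
    fun y => (V y, off (SU (V y)) y) with hc
  set f : (ι → A) → ℝ := fun x =>
    ((min (SA x).card (SB x).card / 4 : ℕ) : ℝ) * Real.log (Fintype.card A) / 16 - n -
      (((SU (V x)).card : ℝ) * Real.log (Fintype.card A) - Real.log (cls Ω c x)) -
      ∑ j, (Real.log (cls Ω (fun y => (V y, off (SJ j (V y)) y)) x) -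
        Real.log (cls Ω (fun y => ((V y, off (SJ j (V y)) y), α j y)) x)) with hf
  have hsum : 0 ≤ ∑ x ∈ Ω, f x := by
    have e1 : ∑ x ∈ Ω, f x =
        ∑ x ∈ Ω, ((min (SA x).card (SB x).card / 4 : ℕ) : ℝ) * Real.log (Fintype.card A) / 16 -
          Ω.card * n - (∑ x ∈ Ω, ((SU (V x)).card : ℝ) * Real.log (Fintype.card A) - Lg Ω c) -
          ∑ j, (Lg Ω (fun y => (V y, off (SJ j (V y)) y)) -
            Lg Ω (fun y => ((V y, off (SJ j (V y)) y), α j y))) := by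
      simp only [hf, Finset.sum_sub_distrib, Lg, Finset.sum_const, nsmul_eq_mul]
      rw [Finset.sum_comm (s := Ω) (t := Finset.univ), Finset.sum_comm (s := Ω) (t := Finset.univ)]
    have e2 : ∑ j, (Lg Ω (fun y => (V y, off (SJ j (V y)) y)) -
            Lg Ω (fun y => ((V y, off (SJ j (V y)) y), α j y))) ≤
        Fintype.card J * (Ω.card * (T.card * Real.log B + T.card * Real.log 4)) +
          ∑ j, TC (Phi Ω (α j)) T := by
      refine (Finset.sum_le_sum fun j _ => hJ j).trans ?_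
      rw [Finset.sum_add_distrib]
      simp
    rw [e1]
    nlinarith [hz, e2, hbal]
  obtain ⟨x₀, hx₀, hE⟩ := fixed_class Ω hΩ c f hsum
  set E := Ω.filter (fun x => c x = c x₀) with hEdef
  have hmem : ∀ y, y ∈ E ↔ y ∈ Ω ∧ V y = V x₀ ∧ ∀ i, i ∉ SU (V x₀) → y i = x₀ i := by
    intro y
    rw [hEdef, Finset.mem_filter]
    simp only [hc, Prod.mk.injEq]
    constructor
    · rintro ⟨h1, h2, h3⟩
      rw [h2, off_eq_iff] at h3
      exact ⟨h1, h2, h3⟩
    · rintro ⟨h1, h2, h3⟩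
      refine ⟨h1, h2, ?_⟩
      rw [h2, off_eq_iff]
      exact h3
  have hx₀E : x₀ ∈ E := (hmem x₀).mpr ⟨hx₀, rfl, fun _ _ => rfl⟩
  have hsub : ∀ j, SJ j (V x₀) ⊆ SU (V x₀) := by
    intro j
    by_cases hj : j ∈ I
    · simp only [hSJ, hj, if_true, hSU]
      exact Finset.subset_union_right
    · simp only [hSJ, hj, if_false, hSU]
      exact Finset.subset_union_left
  have key : ∀ j, ∀ x ∈ E, ∀ y, (y ∈ Ω ∧ (V y, off (SJ j (V y)) y) = (V x, off (SJ j (V x)) x)) ↔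
      (y ∈ E ∧ off (SJ j (V x₀)) y = off (SJ j (V x₀)) x) := by
    intro j x hx y
    obtain ⟨_, hx2, hx3⟩ := (hmem x).mp hx
    simp only [Prod.mk.injEq]
    constructor
    · rintro ⟨h1, h2, h3⟩
      rw [h2, hx2] at h3
      refine ⟨(hmem y).mpr ⟨h1, h2.trans hx2, fun i hi => ?_⟩, h3⟩
      rw [(off_eq_iff _ _ _).mp h3 i (fun h => hi (hsub j h)), hx3 i hi]
    · rintro ⟨h1, h3⟩
      obtain ⟨hy1, hy2, _⟩ := (hmem y).mp h1
      refine ⟨hy1, hy2.trans hx2.symm, ?_⟩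
      rw [hy2, hx2]
      exact h3
  refine ⟨min (SA x₀).card (SB x₀).card / 4, ?_⟩
  have hneg : n - ((min (SA x₀).card (SB x₀).card / 4 : ℕ) : ℝ) * Real.log (Fintype.card A) / 16 =
      -(((min (SA x₀).card (SB x₀).card / 4 : ℕ) : ℝ) * Real.log (Fintype.card A) / 16 - n) := by
    ring
  rw [hneg]
  apply cyl_of_class E ⟨x₀, hx₀E⟩ L α (fun j x hx => hL j x ((hmem x).mp hx).1)
    (fun j x hx => h0 j x ((hmem x).mp hx).1) I (S₁ (V x₀)) (S₂ (V x₀)) (S₃ (V x₀)) (S₄ (V x₀)) _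
    ⟨hc1 (V x₀), hc2 (V x₀), hc3 (V x₀), hc4 (V x₀)⟩ (h12 (V x₀)) (h34 (V x₀))
  · intro x hx y hy i hi
    rw [((hmem x).mp hx).2.2 i hi, ((hmem y).mp hy).2.2 i hi]
  · have e3 : ∀ x ∈ E, f x =
        ((min (SA x₀).card (SB x₀).card / 4 : ℕ) : ℝ) * Real.log (Fintype.card A) / 16 - n -
        (((SU (V x₀)).card : ℝ) * Real.log (Fintype.card A) - Real.log E.card) -
        ∑ j, (Real.log (cls E (off (SJ j (V x₀))) x) -
          Real.log (cls E (fun y => (off (SJ j (V x₀)) y, α j y)) x)) := by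
      intro x hx
      obtain ⟨_, hx2, _⟩ := (hmem x).mp hx
      have hA : SA x = SA x₀ := congrArg Prod.fst hx2
      have hB' : SB x = SB x₀ := congrArg Prod.snd hx2
      have hcx : c x = c x₀ := (Finset.mem_filter.mp hx).2
      have hcl : cls Ω c x = E.card := by
        rw [cls_eq_of_eq hcx, cls_eq]
      simp only [hf]
      rw [hA, hB', hx2, hcl]
      congr 1
      apply Finset.sum_congr rfl
      intro j _
      rw [fixed_cls_sub (key j x hx)]
      congr 3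
      apply fixed_cls_sub
      intro y
      have := key j x hx y
      simp only [Prod.mk.injEq] at this ⊢
      tauto
    rw [Finset.sum_congr rfl e3] at hE
    simp only [Finset.sum_sub_distrib, Finset.sum_const, nsmul_eq_mul] at hE
    rw [Finset.sum_comm (s := E) (t := Finset.univ), Finset.sum_comm (s := E) (t := Finset.univ)]
      at hE
    simp only [Lg, Finset.sum_sub_distrib]
    simp only [hSJ, hSU] at hE
    linarith

end Pool.Agent.Work.MP_807b32_lc.Sem
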