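import Pool.Agent.Work.MP_807b32_lc.Sem.Ent

/-!
Entropy bounds for a set of sites `S (V x)` that depends on the point through a label `V x` with
few values.

Plan.
* `kraft_off`: by `sum_div_cls` (with `Ω = E`) the sum is a sum over the attained labels
  `(v, o) : 𝒱 × (ι → Option A)` of `f (v, o) = ∏ i, u v i (o i)`, where
  `u v i none = if i ∈ S v then 1 else 0` and `u v i (some s) = if i ∈ S v then 0 else P i s`.
  Extend the sum to `𝒱₀ ×ˢ univ`; for each `v`, `∑ o, ∏ i, u v i (o i) = ∏ i, ∑ o', u v i o' ≤ 1`.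
* `cls_off_le`: the class injects into `Fintype.piFinset (fun i => if i ∈ S then univ else {x i})`.
* `free_zero`: `gibbs` with constant coarse label and `q x = (1 / K) * ∏ i ∈ (S (V x))ᶜ, 1 / D`,
  Kraft by `kraft_off` with `P = 1 / D`; `log Ω.card ≥ N * log D - Δ`.
* `free_light`: write `c y = (a y, off T y)`, `π i x = cls (a, off (T.erase i)) x / cls c x`.
  `gibbs` with coarse label `c`, fine label `g x = ((V x, off (S (V x)) x), a x)` and
  `q x = (1 / K) * ∏ i ∈ T \ S (V x), π i x`. In the `c`-class `E` of `x₀` use `kraft_off` with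
  `P i s = if i ∈ T then card (E.filter (y i = s)) / E.card else if s = x₀ i then 1 else 0`;
  for `x ∈ E` and `i ∈ T`, `P i (x i) = π i x`, and `cls Ω g x = cls E (V, off (S V)) x` because
  `S (V x) ⊆ T`. This gives
  `Phi T - card Ω * log K + ∑ x, ∑ i ∈ T \ S (V x), log (π i x) ≤ Lg g`.
  Next `∑ i ∈ T, (Phi T - Phi (T.erase i)) = ∑ x, ∑ i ∈ T, - log (π i x)`, so
  `Lg g ≥ ∑ x, ∑ i ∈ S (V x), - log (π i x) - TC - card Ω * log K`, each `- log (π i x)` being at
  least `log D - log B` by `hl`. Finally `Lg (V, off (S V)) ≤ ∑ x, (S (V x)).card * log D` by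
  `cls_off_le`, and `(S (V x)).card ≤ T.card`, `0 ≤ log B`.
-/

namespace Pool.Agent.Work.MP_807b32_lc.Sem

open Finset

variable {ι A 𝒱 : Type} [Fintype ι] [DecidableEq ι] [Fintype A] [DecidableEq A]

theorem kraft_off (E : Finset (ι → A)) (V : (ι → A) → 𝒱) (𝒱₀ : Finset 𝒱)
    (hV : ∀ x ∈ E, V x ∈ 𝒱₀) (S : 𝒱 → Finset ι) (P : ι → A → ℝ) (hP0 : ∀ i s, 0 ≤ P i s)
    (hP1 : ∀ i, ∑ s, P i s ≤ 1) :
    ∑ x ∈ E, (∏ i ∈ (S (V x))ᶜ, P i (x i)) / (cls E (fun y => (V y, off (S (V y)) y)) x : ℝ) ≤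
      𝒱₀.card := by
  classical
  let u : 𝒱 → ι → Option A → ℝ := fun v i o =>
    match o with
    | none => if i ∈ S v then 1 else 0
    | some s => if i ∈ S v then 0 else P i s
  have hu0 : ∀ v i o, 0 ≤ u v i o := by
    intro v i o
    cases o with
    | none => simp only [u]; split_ifs <;> norm_num
    | some s => simp only [u]; split_ifs; exacts [le_rfl, hP0 i s]
  have hu1 : ∀ v i, ∑ o, u v i o ≤ 1 := by
    intro v i
    rw [Fintype.sum_option]
    by_cases hi : i ∈ S v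
    · simp [u, hi]
    · simpa [u, hi] using hP1 i
  let f : 𝒱 × (ι → Option A) → ℝ := fun γ => ∏ i, u γ.1 i (γ.2 i)
  have hf0 : ∀ γ, 0 ≤ f γ := fun γ => Finset.prod_nonneg fun i _ => hu0 _ _ _
  have hfx : ∀ x : ι → A, ∏ i ∈ (S (V x))ᶜ, P i (x i) = f (V x, off (S (V x)) x) := by
    intro x
    simp only [f]
    rw [← Finset.prod_mul_prod_compl (S (V x))]
    have h1 : ∏ i ∈ S (V x), u (V x) i (off (S (V x)) x i) = 1 :=
      Finset.prod_eq_one fun i hi => by simp [u, off, hi]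
    rw [h1, one_mul]
    refine Finset.prod_congr rfl fun i hi => ?_
    have hi' : i ∉ S (V x) := by simpa using hi
    simp [u, off, hi']
  simp_rw [hfx]
  rw [sum_div_cls E E (fun y => (V y, off (S (V y)) y)) f subset_rfl (fun _ _ y hy _ => hy)]
  have hsub : E.image (fun y => (V y, off (S (V y)) y)) ⊆ 𝒱₀ ×ˢ univ := by
    intro γ hγ
    obtain ⟨y, hy, rfl⟩ := Finset.mem_image.1 hγ
    exact Finset.mem_product.2 ⟨hV y hy, Finset.mem_univ _⟩
  refine (Finset.sum_le_sum_of_subset_of_nonneg hsub fun γ _ _ => hf0 γ).trans ?_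
  rw [Finset.sum_product]
  have : ∀ v ∈ 𝒱₀, ∑ o : ι → Option A, f (v, o) ≤ 1 := by
    intro v _
    simp only [f]
    rw [← Fintype.piFinset_univ, ← Finset.prod_univ_sum]
    exact Finset.prod_le_one (fun i _ => Finset.sum_nonneg fun o _ => hu0 _ _ _)
      (fun i _ => hu1 v i)
  refine (Finset.sum_le_sum this).trans ?_
  simp

theorem cls_off_le (Ω : Finset (ι → A)) (V : (ι → A) → 𝒱) (S : 𝒱 → Finset ι) (x : ι → A) :
    cls Ω (fun y => (V y, off (S (V y)) y)) x ≤ Fintype.card A ^ (S (V x)).card := by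
  classical
  rw [cls_eq]
  have hsub : Ω.filter (fun y => (V y, off (S (V y)) y) = (V x, off (S (V x)) x)) ⊆
      Fintype.piFinset (fun i => if i ∈ S (V x) then (univ : Finset A) else {x i}) := by
    intro y hy
    rw [Finset.mem_filter, Prod.mk.injEq] at hy
    obtain ⟨_, h1, h2⟩ := hy
    rw [h1, off_eq_iff] at h2
    rw [Fintype.mem_piFinset]
    intro i
    by_cases hi : i ∈ S (V x)
    · simp [hi]
    · simp [hi, h2 i hi]
  refine (Finset.card_le_card hsub).trans (le_of_eq ?_)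
  rw [Fintype.card_piFinset, ← Finset.prod_mul_prod_compl (S (V x))]
  have h1 : ∏ i ∈ (S (V x))ᶜ,
      (if i ∈ S (V x) then (univ : Finset A) else {x i}).card = 1 :=
    Finset.prod_eq_one fun i hi => by
      have hi' : i ∉ S (V x) := by simpa using hi
      simp [hi']
  rw [h1, mul_one, ← Finset.prod_const]
  exact Finset.prod_congr rfl fun i hi => by simp [hi]

theorem free_zero [Nonempty A] (Ω : Finset (ι → A)) (V : (ι → A) → 𝒱) (𝒱₀ : Finset 𝒱)
    (hV : ∀ x ∈ Ω, V x ∈ 𝒱₀) (S : 𝒱 → Finset ι) (K : ℝ) (hK : (𝒱₀.card : ℝ) ≤ K) (Δ : ℝ)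
    (hΔ : (Fintype.card A : ℝ) ^ Fintype.card ι * Real.exp (-Δ) ≤ Ω.card) :
    ∑ x ∈ Ω, ((S (V x)).card : ℝ) * Real.log (Fintype.card A) -
        Lg Ω (fun y => (V y, off (S (V y)) y)) ≤ Ω.card * (Δ + Real.log K) := by
  classical
  rcases Ω.eq_empty_or_nonempty with rfl | ⟨x₀, hx₀⟩
  · simp [Lg]
  have hD : (0 : ℝ) < Fintype.card A := by exact_mod_cast Fintype.card_pos
  have hK0 : 0 < K := lt_of_lt_of_le
    (by exact_mod_cast Finset.card_pos.2 ⟨_, hV x₀ hx₀⟩) hK
  have hkr := kraft_off Ω V 𝒱₀ hV S (fun _ _ => 1 / (Fintype.card A : ℝ))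
    (fun _ _ => by positivity) (fun _ => by
      rw [Finset.sum_const, Finset.card_univ, nsmul_eq_mul, mul_one_div_cancel hD.ne'])
  have hg := gibbs Ω (fun y => (V y, off (S (V y)) y)) (fun _ => ())
    (fun x => (1 / K) * ∏ _i ∈ (S (V x))ᶜ, 1 / (Fintype.card A : ℝ))
    (fun x _ => by positivity) (fun x₁ _ => by
      rw [Finset.filter_true_of_mem (fun _ _ => rfl)]
      simp_rw [mul_div_assoc]
      rw [← Finset.mul_sum]
      calc 1 / K * _ ≤ 1 / K * K := mul_le_mul_of_nonneg_left (hkr.trans hK) (by positivity)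
        _ = 1 := by field_simp)
  have hL : Lg Ω (fun _ => ()) = Ω.card * Real.log Ω.card := by
    unfold Lg
    have : ∀ x ∈ Ω, Real.log (cls Ω (fun _ => ()) x) = Real.log Ω.card := by
      intro x _
      rw [cls_eq, Finset.filter_true_of_mem (fun _ _ => rfl)]
    rw [Finset.sum_congr rfl this, Finset.sum_const, nsmul_eq_mul]
  have hq : ∀ x ∈ Ω, Real.log ((1 / K) * ∏ _i ∈ (S (V x))ᶜ, 1 / (Fintype.card A : ℝ)) =
      ((S (V x)).card : ℝ) * Real.log (Fintype.card A) -
        (Real.log K + Fintype.card ι * Real.log (Fintype.card A)) := by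
    intro x _
    rw [Finset.prod_const, Real.log_mul (by positivity) (by positivity), Real.log_pow,
      one_div, one_div, Real.log_inv, Real.log_inv, Finset.card_compl,
      Nat.cast_sub (Finset.card_le_univ _)]
    ring
  rw [Finset.sum_congr rfl hq, Finset.sum_sub_distrib, Finset.sum_const, nsmul_eq_mul, hL] at hg
  have hlog : Fintype.card ι * Real.log (Fintype.card A) - Δ ≤ Real.log Ω.card := by
    have := Real.log_le_log (by positivity) hΔ
    rwa [Real.log_mul (by positivity) (by positivity), Real.log_pow, Real.log_exp,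
      ← sub_eq_add_neg] at this
  have := mul_le_mul_of_nonneg_left hlog (Nat.cast_nonneg (α := ℝ) Ω.card)
  nlinarith

end Pool.Agent.Work.MP_807b32_lc.Sem
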