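import Pool.Agent.Work.MP_807b32_lc.Sem.Free

/-!
Entropy bounds for a set of sites `S (V x)` that depends on the point through a label `V x` with
few values.

Plan.
* `kraft_off`: by `sum_div_cls` (with `Ω = E`) the sum is a sum over the attained labels
  `(v, o) : 𝒱 × (ι → Option A)` of `f (v, o) = ∏ i, u v i (o i)`, where
  `u v i none = if i ∈ S v then 1 else 0` and `u v i (some s) = if i ∈ S v then 0 else P i s`.
  Extend the sum to `𝒱₀ ×ˢ univ`; for each `v`, `∑ o, ∏ i, u v i (o i) = ∏ i, ∑ o', u v i o' ≤ 1`.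
* `cls_off_le`: the class injects into `Fintype.piFinset (fun i => if i ∈ S then univ else {x i})`.
* `free_zero`: `gibbs` with constant coarse label and `q x = (1 / K) * ∏ i ∈ (S (V x))ᶜ, 1 / D`,
  Kraft by `kraft_off` with `P = 1 / D`; `log Ω.card ≥ N * log D - Δ`.
* `free_light`: write `c y = (a y, off T y)`, `π i x = cls (a, off (T.erase i)) x / cls c x`.
  `gibbs` with coarse label `c`, fine label `g x = ((V x, off (S (V x)) x), a x)` and
  `q x = (1 / K) * ∏ i ∈ T \ S (V x), π i x`. In the `c`-class `E` of `x₀` use `kraft_off` with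
  `P i s = if i ∈ T then card (E.filter (y i = s)) / E.card else if s = x₀ i then 1 else 0`;
  for `x ∈ E` and `i ∈ T`, `P i (x i) = π i x`, and `cls Ω g x = cls E (V, off (S V)) x` because
  `S (V x) ⊆ T`. This gives
  `Phi T - card Ω * log K + ∑ x, ∑ i ∈ T \ S (V x), log (π i x) ≤ Lg g`.
  Next `∑ i ∈ T, (Phi T - Phi (T.erase i)) = ∑ x, ∑ i ∈ T, - log (π i x)`, so
  `Lg g ≥ ∑ x, ∑ i ∈ S (V x), - log (π i x) - TC - card Ω * log K`, each `- log (π i x)` being at
  least `log D - log B` by `hl`. Finally `Lg (V, off (S V)) ≤ ∑ x, (S (V x)).card * log D` by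
  `cls_off_le`, and `(S (V x)).card ≤ T.card`, `0 ≤ log B`.
-/

namespace Pool.Agent.Work.MP_807b32_lc.Sem

open Finset

variable {ι A 𝒱 : Type} [Fintype ι] [DecidableEq ι] [Fintype A] [DecidableEq A]

theorem freel_kraft {Γ : Type} [DecidableEq (Γ × (ι → Option A))] (Ω : Finset (ι → A))
    (V : (ι → A) → 𝒱) (𝒱₀ : Finset 𝒱) (hV : ∀ x ∈ Ω, V x ∈ 𝒱₀) (S : 𝒱 → Finset ι)
    (a : (ι → A) → Γ) (T : Finset ι) (hS : ∀ x ∈ Ω, S (V x) ⊆ T) (x₀ : ι → A) :
    ∑ x ∈ Ω.filter (fun x => (a x, off T x) = (a x₀, off T x₀)),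
      (∏ i ∈ T \ S (V x), (cls Ω (fun y => (a y, off (T.erase i) y)) x : ℝ) /
        cls Ω (fun y => (a y, off T y)) x) /
        (cls Ω (fun y => ((V y, off (S (V y)) y), a y)) x : ℝ) ≤ 𝒱₀.card := by
  classical
  generalize hE : Ω.filter (fun x => (a x, off T x) = (a x₀, off T x₀)) = E
  refine le_of_eq_of_le (sum_congr rfl fun x hx => ?_) (kraft_off E V 𝒱₀
    (fun x hx => hV x (mem_filter.1 (hE ▸ hx)).1) S
    (fun i s => ((E.filter fun y => y i = s).card : ℝ) / E.card) (fun i s => by positivity)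
    fun i => ?_)
  swap
  · rw [← sum_div, ← Nat.cast_sum, ← card_eq_sum_card_fiberwise fun y _ => mem_univ (y i)]
    exact div_self_le_one _
  have h0 : (E.card : ℝ) ≠ 0 := Nat.cast_ne_zero.2 (card_pos.2 ⟨x, hx⟩).ne'
  obtain ⟨h1, h2⟩ := mem_filter.1 (hE ▸ hx)
  have h3 : ∀ y, y ∈ E ↔ y ∈ Ω ∧ a y = a x ∧ ∀ i, i ∉ T → y i = x i := fun y => by
    rw [← hE, mem_filter, ← h2, Prod.mk.injEq, off_eq_iff]
  have h4 : cls Ω (fun y => (a y, off T y)) x = E.card := by
    rw [cls_eq, ← hE, h2]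
  have h5 : cls Ω (fun y => ((V y, off (S (V y)) y), a y)) x =
      cls E (fun y => (V y, off (S (V y)) y)) x := by
    rw [cls_eq, cls_eq]
    refine congrArg card (Finset.ext fun y => ?_)
    rw [mem_filter, mem_filter, h3, Prod.mk.injEq]
    refine ⟨fun k => ⟨⟨k.1, k.2.2, fun i hi => ?_⟩, k.2.1⟩, fun k => ⟨k.1.1, k.2, k.1.2.1⟩⟩
    obtain ⟨k1, k2⟩ := Prod.ext_iff.1 k.2.1
    simp only at k1 k2
    rw [k1] at k2
    exact (off_eq_iff _ _ _).1 k2 i fun k3 => hi (hS x h1 k3)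
  rw [h4, h5, ← prod_subset (s₁ := T \ S (V x)) (fun i hi => mem_compl.2 (mem_sdiff.1 hi).2)
    fun i hi hi' => ?_]
  · refine congrArg (· / _) (prod_congr rfl fun i hi => congrArg (· / _) (congrArg _ ?_))
    rw [cls_eq]
    refine congrArg card (Finset.ext fun y => ?_)
    rw [mem_filter, mem_filter, h3, Prod.mk.injEq, off_eq_iff]
    refine ⟨fun k => ⟨⟨k.1, k.2.1, fun j hj => k.2.2 j fun k' => hj (mem_of_mem_erase k')⟩,
      k.2.2 i (notMem_erase i T)⟩, fun k => ⟨k.1.1, k.1.2.1, fun j hj => ?_⟩⟩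
    by_cases e : j = i
    · exact e ▸ k.2
    · exact k.1.2.2 j fun k' => hj (mem_erase.2 ⟨e, k'⟩)
  · rw [filter_true_of_mem fun y hy => ((h3 y).1 hy).2.2 i fun k =>
      hi' (mem_sdiff.2 ⟨k, mem_compl.1 hi⟩), div_self h0]

theorem free_light {Γ : Type} [Nonempty A] (Ω : Finset (ι → A)) (V : (ι → A) → 𝒱)
    (𝒱₀ : Finset 𝒱) (hV : ∀ x ∈ Ω, V x ∈ 𝒱₀) (S : 𝒱 → Finset ι) (K : ℝ)
    (hK : (𝒱₀.card : ℝ) ≤ K) (a : (ι → A) → Γ) (T : Finset ι) (hS : ∀ x ∈ Ω, S (V x) ⊆ T)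
    (B : ℝ) (hB : 1 ≤ B)
    (hl : ∀ x ∈ Ω, ∀ i ∈ S (V x),
      (Fintype.card A : ℝ) * (cls Ω (fun y => (a y, off (T.erase i) y)) x : ℝ) ≤
        B * (cls Ω (fun y => (a y, off T y)) x : ℝ)) :
    Lg Ω (fun y => (V y, off (S (V y)) y)) - Lg Ω (fun y => ((V y, off (S (V y)) y), a y)) ≤
      Ω.card * (T.card * Real.log B + Real.log K) + TC (Phi Ω a) T := by
  classical
  have hK0 : ∀ x ∈ Ω, 0 < K := fun x hx =>
    lt_of_lt_of_le (Nat.cast_pos.2 (card_pos.2 ⟨_, hV x hx⟩)) hK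
  have hp : ∀ {Λ : Type} (g : (ι → A) → Λ), ∀ x ∈ Ω, (0 : ℝ) < cls Ω g x := fun g x hx =>
    Nat.cast_pos.2 (cls_pos g hx)
  have hD : (0 : ℝ) < Fintype.card A := Nat.cast_pos.2 Fintype.card_pos
  have h1 := gibbs Ω (fun y => ((V y, off (S (V y)) y), a y)) (fun y => (a y, off T y))
    (fun x => (∏ i ∈ T \ S (V x), (cls Ω (fun y => (a y, off (T.erase i) y)) x : ℝ) /
      cls Ω (fun y => (a y, off T y)) x) / K)
    (fun x hx => div_pos (prod_pos fun i _ => div_pos (hp _ x hx) (hp _ x hx)) (hK0 x hx))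
    fun x₀ hx₀ => by
      simp only [div_right_comm _ K]
      rw [← sum_div, div_le_one (hK0 x₀ hx₀)]
      exact (freel_kraft Ω V 𝒱₀ hV S a T hS x₀).trans hK
  have h2 : ∀ x ∈ Ω, Real.log (cls Ω (fun y => (V y, off (S (V y)) y)) x) ≤
      T.card * Real.log B + Real.log K +
        ∑ i ∈ T, (Real.log (cls Ω (fun y => (a y, off T y)) x) -
          Real.log (cls Ω (fun y => (a y, off (T.erase i) y)) x)) +
        Real.log ((∏ i ∈ T \ S (V x), (cls Ω (fun y => (a y, off (T.erase i) y)) x : ℝ) /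
          cls Ω (fun y => (a y, off T y)) x) / K) := fun x hx => by
    have k1 := Real.log_le_log (hp _ x hx) (Nat.cast_le.2 (cls_off_le Ω V S x))
    have k2 : ∑ i ∈ S (V x), (Real.log (Fintype.card A) - Real.log B) ≤
        ∑ i ∈ S (V x), (Real.log (cls Ω (fun y => (a y, off T y)) x) -
          Real.log (cls Ω (fun y => (a y, off (T.erase i) y)) x)) := sum_le_sum fun i hi => by
      have := Real.log_le_log (mul_pos hD (hp _ x hx)) (hl x hx i hi)
      rw [Real.log_mul hD.ne' (hp _ x hx).ne', Real.log_mul (by linarith) (hp _ x hx).ne'] at this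
      linarith
    have k3 := mul_le_mul_of_nonneg_right (Nat.cast_le.2 (card_le_card (hS x hx)))
      (Real.log_nonneg hB)
    rw [Nat.cast_pow, Real.log_pow] at k1
    rw [sum_const, nsmul_eq_mul, mul_sub] at k2
    rw [Real.log_div (prod_pos fun i _ => div_pos (hp _ x hx) (hp _ x hx)).ne' (hK0 x hx).ne',
      Real.log_prod fun i _ => (div_pos (hp _ x hx) (hp _ x hx)).ne',
      sum_congr rfl fun i _ => Real.log_div (hp _ x hx).ne' (hp _ x hx).ne',
      ← sum_sdiff (hS x hx), sum_sub_distrib (s := T \ S (V x)), sum_sub_distrib (s := T \ S (V x))]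
    linarith
  have h3 := sum_le_sum h2
  rw [sum_add_distrib, sum_add_distrib, sum_const, nsmul_eq_mul, sum_comm] at h3
  simp only [sum_sub_distrib (s := Ω)] at h3
  unfold TC Phi
  unfold Lg at h1 ⊢
  linarith

end Pool.Agent.Work.MP_807b32_lc.Sem
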