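import Pool.Agent.Work.MP_807b32_lc.Sem.Alg

/-!
A good choice of the coefficient vector `y`.

`pol x = ∑ a, C (x a) * X ^ a` and `fnl y q = ∑ m, y m * q.coeff m`, so
`quart x y = fnl y (pol x ^ 4)`.

Plan.
* `quart_eq`: expand the fourth power as a fourfold sum of monomials; `fnl y (C c * X ^ m)` is
  `y m * c` for `m < 4 N + 1`.
* `dif_quart`: `pol` and `fnl y` are additive; the fourth difference of `Q ^ 4` is
  `24 * H₁ * H₂ * H₃ * H₄` by `ring`.
* `ker_card`: `d = u.natDegree`, `Mset` the set of positions `d + e`, `e ∈ S`. Two solutions `y, y'`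
  that agree off `Mset` are equal: otherwise take the least position `d + e` where they differ;
  `fnl (y - y') (u * X ^ e) = (y - y') (d + e) * u.leadingCoeff`. So the solutions inject into the
  functions on the complement of `Mset` (or: the map `(y, t) ↦ y + (t placed on Mset)` is
  injective on solutions times `S → ZMod p`).
* `mask_zero_card`: the `h` with `mask S h = 0` form `Fintype.piFinset` of `{0}` or `univ`.
* `good_y`: let `c y S₁ S₂ S₃ S₄` be the count and `ρ` the least of the four cardinalities. For a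
  triple with `pol (mask S t h t) ≠ 0` for all three (`pol x = 0` forces `x = 0`), the product is
  nonzero of degree at most `3 N`, and taking `h₄ = Pi.single e 1` shows that at most
  `p ^ (4N+1) / p ^ ρ` vectors `y` work (`24` is a unit as `5 ≤ p`). The other triples number at
  most `3 * p ^ (3N) / p ^ ρ`. So `∑ y, c y S * p ^ ρ ≤ 4 * p ^ (3N) * p ^ (4N+1)` for each
  quadruple; sum over the `16 ^ N` quadruples and take `y` with at most the average total.
* `algebra`: `bns` with `Λ = lamb y` and `good_y`; `Function.update y (last) v` does not change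
  `quart` (`quart_update`), as `a + b + c + e < 4 N`.
-/

namespace Pool.Agent.Work.MP_807b32_lc.Sem

open Finset Polynomial

theorem good_coeff {p N : ℕ} (x : Fin N → ZMod p) (a : Fin N) : (pol x).coeff a.val = x a := by
  unfold pol
  rw [finsetSum_coeff, Finset.sum_eq_single a]
  · rw [coeff_C_mul_X_pow, if_pos rfl]
  · intro b _ hb
    rw [coeff_C_mul_X_pow, if_neg fun h => hb (Fin.ext h.symm)]
  · intro h
    exact absurd (Finset.mem_univ a) h

theorem good_ne {p N : ℕ} {x : Fin N → ZMod p} (hx : x ≠ 0) : pol x ≠ 0 := by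
  intro h
  apply hx
  funext a
  rw [← good_coeff x a, h, coeff_zero]
  rfl

theorem good_deg {p N : ℕ} (x : Fin N → ZMod p) : (pol x).natDegree ≤ N := by
  unfold pol
  exact natDegree_sum_le_of_forall_le _ _ fun a _ =>
    (natDegree_C_mul_X_pow_le _ _).trans a.2.le

theorem good_single {p N : ℕ} (S : Finset (Fin N)) {e : Fin N} (he : e ∈ S) :
    pol (mask S (Pi.single e (1 : ZMod p))) = X ^ e.val := by
  unfold pol
  rw [Finset.sum_eq_single e]
  · simp [mask, he]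
  · intro b _ hb
    simp [mask, hb]
  · intro h
    exact absurd (Finset.mem_univ e) h

theorem good_24 (p : ℕ) [Fact p.Prime] (hp : 5 ≤ p) : (24 : (ZMod p)[X]) ≠ 0 := by
  have h1 : ((24 : ℕ) : ZMod p) ≠ 0 := by
    rw [Ne, ZMod.natCast_eq_zero_iff]
    intro h
    have hpr : p.Prime := Fact.out
    have h2 : p ∣ 2 ^ 3 * 3 := h
    rcases (Nat.Prime.dvd_mul hpr).1 h2 with h3 | h3
    · have := Nat.le_of_dvd (by norm_num) (hpr.dvd_of_dvd_pow h3)
      omega
    · have := Nat.le_of_dvd (by norm_num) h3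
      omega
  have h2 : (24 : (ZMod p)[X]) = C ((24 : ℕ) : ZMod p) := by
    rw [map_natCast]
    rfl
  rw [h2]
  exact C_ne_zero.2 h1

theorem good_mono {Y : Type} [Fintype Y] {P Q : Y → Prop} (h : ∀ y, P y → Q y) :
    cnt P ≤ cnt Q := by
  classical
  rw [cnt_eq, cnt_eq]
  refine Finset.card_le_card fun y hy => ?_
  rw [Finset.mem_filter] at hy ⊢
  exact ⟨hy.1, h y hy.2⟩

theorem good_le_card {Y : Type} [Fintype Y] (P : Y → Prop) : cnt P ≤ Fintype.card Y := by
  classical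
  rw [cnt_eq]
  exact Finset.card_le_univ _

open Classical in
theorem good_ind {Y : Type} [Fintype Y] (P : Y → Prop) : cnt P = ∑ y, if P y then 1 else 0 := by
  rw [cnt_eq, Finset.card_filter]

theorem good_swap {Y H : Type} [Fintype Y] [Fintype H] (Z : Y → H → Prop) :
    ∑ y, cnt (fun h => Z y h) = ∑ h, cnt (fun y => Z y h) := by
  simp only [good_ind]
  exact Finset.sum_comm

/-- The vectors `y` that work for a triple of nonzero directions. -/
theorem good_one (p N : ℕ) [Fact p.Prime] (hp : 5 ≤ p) {h₁ h₂ h₃ : Fin N → ZMod p}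
    (n1 : h₁ ≠ 0) (n2 : h₂ ≠ 0) (n3 : h₃ ≠ 0) (S : Finset (Fin N)) :
    cnt (fun y : Fin (4 * N + 1) → ZMod p => ∀ h₄, lamb y h₁ h₂ h₃ (mask S h₄) = 0) *
      p ^ S.card ≤ p ^ (4 * N + 1) := by
  have hu : 24 * (pol h₁ * pol h₂ * pol h₃) ≠ 0 :=
    mul_ne_zero (good_24 p hp) (mul_ne_zero (mul_ne_zero (good_ne n1) (good_ne n2)) (good_ne n3))
  have hd : (24 * (pol h₁ * pol h₂ * pol h₃)).natDegree ≤ 3 * N := by
    have a0 : (24 : (ZMod p)[X]).natDegree = 0 := natDegree_natCast 24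
    have a1 := good_deg h₁
    have a2 := good_deg h₂
    have a3 := good_deg h₃
    have b0 := natDegree_mul_le (p := (24 : (ZMod p)[X])) (q := pol h₁ * pol h₂ * pol h₃)
    have b1 := natDegree_mul_le (p := pol h₁ * pol h₂) (q := pol h₃)
    have b2 := natDegree_mul_le (p := pol h₁) (q := pol h₂)
    omega
  refine le_trans (Nat.mul_le_mul_right _ (good_mono fun y hy e he => ?_)) (ker_card p N _ hu hd S)
  have := hy (Pi.single e 1)
  rw [← good_single S he]
  exact this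

theorem good_three {X : Type} [Fintype X] (f g k : X → ℕ) (r : ℕ)
    (e1 : (∑ x, f x) * r ≤ Fintype.card X) (e2 : (∑ x, g x) * r ≤ Fintype.card X)
    (e3 : (∑ x, k x) * r ≤ Fintype.card X) :
    ∑ h : X × X × X, (1 + (f h.1 + g h.2.1 + k h.2.2) * r) ≤ 4 * Fintype.card X ^ 3 := by
  simp only [Finset.sum_add_distrib, ← Finset.sum_mul, Fintype.sum_prod_type, Finset.sum_const,
    Finset.card_univ, smul_eq_mul, ← Finset.mul_sum, mul_one, Fintype.card_prod]
  generalize ∑ x, f x = a at e1 ⊢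
  generalize ∑ x, g x = b at e2 ⊢
  generalize ∑ x, k x = c at e3 ⊢
  generalize Fintype.card X = n at e1 e2 e3 ⊢
  have f1 := Nat.mul_le_mul_left (n * n) e1
  have f2 := Nat.mul_le_mul_left (n * n) e2
  have f3 := Nat.mul_le_mul_left (n * n) e3
  nlinarith [f1, f2, f3]

open Classical in
theorem good_sum (p N : ℕ) [Fact p.Prime] (hp : 5 ≤ p) (ρ : ℕ) (S₁ S₂ S₃ S₄ : Finset (Fin N))
    (r1 : ρ ≤ S₁.card) (r2 : ρ ≤ S₂.card) (r3 : ρ ≤ S₃.card) (r4 : ρ ≤ S₄.card) :
    ∑ y : Fin (4 * N + 1) → ZMod p,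
      cnt (fun h : (Fin N → ZMod p) × (Fin N → ZMod p) × (Fin N → ZMod p) =>
          ∀ h₄, lamb y (mask S₁ h.1) (mask S₂ h.2.1) (mask S₃ h.2.2) (mask S₄ h₄) = 0) * p ^ ρ ≤
        p ^ (4 * N + 1) * (4 * (p ^ N) ^ 3) := by
  have hp0 : 0 < p := by omega
  have cY : Fintype.card (Fin (4 * N + 1) → ZMod p) = p ^ (4 * N + 1) := by simp
  have cX : Fintype.card (Fin N → ZMod p) = p ^ N := by simp
  have hm : ∀ S : Finset (Fin N), ρ ≤ S.card →
      (∑ h : Fin N → ZMod p, if mask S h = 0 then 1 else 0) * p ^ ρ ≤ p ^ N := by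
    intro S hS
    have h1 := mask_zero_card p N S
    rw [good_ind] at h1
    refine le_trans (Nat.mul_le_mul ?_ (Nat.pow_le_pow_right hp0 hS)) h1
    refine le_of_eq (Finset.sum_congr rfl fun h _ => ?_)
    congr
  rw [← Finset.sum_mul, good_swap, Finset.sum_mul]
  have key : ∀ h : (Fin N → ZMod p) × (Fin N → ZMod p) × (Fin N → ZMod p),
      cnt (fun y : Fin (4 * N + 1) → ZMod p =>
        ∀ h₄, lamb y (mask S₁ h.1) (mask S₂ h.2.1) (mask S₃ h.2.2) (mask S₄ h₄) = 0) * p ^ ρ ≤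
      p ^ (4 * N + 1) * (1 + ((if mask S₁ h.1 = 0 then 1 else 0) +
        (if mask S₂ h.2.1 = 0 then 1 else 0) + (if mask S₃ h.2.2 = 0 then 1 else 0)) * p ^ ρ) := by
    intro h
    by_cases hz : mask S₁ h.1 = 0 ∨ mask S₂ h.2.1 = 0 ∨ mask S₃ h.2.2 = 0
    · refine Nat.mul_le_mul (cY ▸ good_le_card _) (le_trans ?_ (Nat.le_add_left _ _))
      refine Nat.le_mul_of_pos_left _ ?_
      rcases hz with hz | hz | hz <;> rw [if_pos hz] <;> omega
    · simp only [not_or] at hz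
      refine le_trans (Nat.mul_le_mul_left _ (Nat.pow_le_pow_right hp0 r4)) ?_
      exact (good_one p N hp hz.1 hz.2.1 hz.2.2 S₄).trans
        (Nat.le_mul_of_pos_right _ (by omega))
  refine (Finset.sum_le_sum fun h _ => key h).trans ?_
  rw [← Finset.mul_sum]
  refine Nat.mul_le_mul_left _ ?_
  have := good_three _ _ _ _ (cX ▸ hm S₁ r1) (cX ▸ hm S₂ r2) (cX ▸ hm S₃ r3)
  rw [cX] at this
  exact this

theorem good_y (p N : ℕ) [Fact p.Prime] (hp : 5 ≤ p) :
    ∃ y : Fin (4 * N + 1) → ZMod p, ∀ (ρ : ℕ) (S₁ S₂ S₃ S₄ : Finset (Fin N)),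
      ρ ≤ S₁.card → ρ ≤ S₂.card → ρ ≤ S₃.card → ρ ≤ S₄.card →
      cnt (fun h : (Fin N → ZMod p) × (Fin N → ZMod p) × (Fin N → ZMod p) =>
          ∀ h₄, lamb y (mask S₁ h.1) (mask S₂ h.2.1) (mask S₃ h.2.2) (mask S₄ h₄) = 0) * p ^ ρ ≤
        4 * 16 ^ N * (p ^ N) ^ 3 := by
  have hp0 : 0 < p := by omega
  obtain ⟨c, hc⟩ : ∃ c : (Fin (4 * N + 1) → ZMod p) →
      Finset (Fin N) × Finset (Fin N) × Finset (Fin N) × Finset (Fin N) → ℕ, ∀ y S, c y S =
      cnt (fun h : (Fin N → ZMod p) × (Fin N → ZMod p) × (Fin N → ZMod p) =>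
          ∀ h₄, lamb y (mask S.1 h.1) (mask S.2.1 h.2.1) (mask S.2.2.1 h.2.2)
            (mask S.2.2.2 h₄) = 0) *
        p ^ (min (min S.1.card S.2.1.card) (min S.2.2.1.card S.2.2.2.card)) :=
    ⟨_, fun _ _ => rfl⟩
  have h1 : ∑ y, ∑ S, c y S ≤ ∑ _y : Fin (4 * N + 1) → ZMod p, 4 * 16 ^ N * (p ^ N) ^ 3 := by
    rw [Finset.sum_comm]
    have h2 : ∀ S, ∑ y, c y S ≤ p ^ (4 * N + 1) * (4 * (p ^ N) ^ 3) := by
      intro S
      simp only [hc]
      exact good_sum p N hp _ _ _ _ _ (by omega) (by omega) (by omega) (by omega)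
    refine (Finset.sum_le_sum fun S _ => h2 S).trans (le_of_eq ?_)
    have h3 : (16 : ℕ) ^ N = 2 ^ N * (2 ^ N * (2 ^ N * 2 ^ N)) := by
      rw [← mul_pow, ← mul_pow, ← mul_pow]
      rfl
    simp only [Finset.sum_const, Finset.card_univ, smul_eq_mul, Fintype.card_prod,
      Fintype.card_finset, Fintype.card_fin, Fintype.card_fun, ZMod.card, h3]
    ring
  obtain ⟨y, -, hy⟩ := Finset.exists_le_of_sum_le Finset.univ_nonempty h1
  refine ⟨y, fun ρ S₁ S₂ S₃ S₄ r1 r2 r3 r4 => le_trans ?_ hy⟩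
  refine le_trans ?_ (Finset.single_le_sum (f := c y) (fun _ _ => Nat.zero_le _)
    (Finset.mem_univ (S₁, S₂, S₃, S₄)))
  rw [hc]
  exact Nat.mul_le_mul_left _ (Nat.pow_le_pow_right hp0 (by simp only; omega))

theorem algebra (p N : ℕ) [Fact p.Prime] (hp : 5 ≤ p) :
    ∃ y : Fin (4 * N + 1) → ZMod p, ∀ (v : ZMod p) (ρ : ℕ) (μ : ℝ), 0 ≤ μ →
      Cyl (fun x : Fin N → ZMod p => quart p N x y = v) ρ μ →
        μ ^ 16 * (p : ℝ) ^ ρ ≤ 4 * 16 ^ N := by
  obtain ⟨y, hy⟩ := good_y p N hp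
  refine ⟨y, fun v ρ μ hμ hc => ?_⟩
  obtain ⟨S₁, S₂, S₃, S₄, r1, r2, r3, r4, h⟩ := bns p (fun x : Fin N → ZMod p => quart p N x y) v
    (lamb y) (dif_quart p N y) ρ μ hμ hc
  have h1 := (Nat.cast_le (α := ℝ)).2 (hy ρ S₁ S₂ S₃ S₄ r1 r2 r3 r4)
  push_cast at h1
  rw [Fintype.card_fin] at h
  have hp0 : (0 : ℝ) < p := by
    have : 0 < p := by omega
    exact_mod_cast this
  have h2 : (0 : ℝ) < ((p : ℝ) ^ N) ^ 3 := by positivity
  refine le_of_mul_le_mul_right (le_trans ?_ h1) h2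
  calc μ ^ 16 * (p : ℝ) ^ ρ * ((p : ℝ) ^ N) ^ 3 = μ ^ 16 * ((p : ℝ) ^ N) ^ 3 * (p : ℝ) ^ ρ := by
        ring
    _ ≤ _ := mul_le_mul_of_nonneg_right h (by positivity)

end Pool.Agent.Work.MP_807b32_lc.Sem
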