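import Pool.Agent.Work.MP_807b32_lc.Sem.Core
import Pool.Agent.Work.MP_807b32_lc.Sem.Good
import Pool.Agent.Work.MP_807b32_lc.Sem.Cut

/-!
The lower bound.
-/

namespace Pool.Agent.Work.MP_807b32_lc.Sem

open Finset

theorem main_exp (N ρ : ℕ) (hN : 1 ≤ N) (D : ℝ) (hD : 0 < D) :
    4 * 16 ^ N < Real.exp (N - ρ * Real.log D / 16) ^ 16 * D ^ ρ := by
  have e : Real.exp (N - ρ * Real.log D / 16) ^ 16 * D ^ ρ = Real.exp 16 ^ N := by
    rw [← Real.exp_nat_mul, ← Real.exp_nat_mul]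
    conv_lhs => rw [← Real.exp_log (pow_pos hD ρ), ← Real.exp_add, Real.log_pow]
    congr 1
    push_cast
    ring
  rw [e]
  have h1 : (81 : ℝ) ≤ Real.exp 16 := by
    have h2 := Real.add_one_le_exp (8 : ℝ)
    have h3 : Real.exp 16 = Real.exp 8 * Real.exp 8 := by rw [← Real.exp_add]; norm_num
    nlinarith
  have h4 : (81 : ℝ) ^ N ≤ Real.exp 16 ^ N := pow_le_pow_left₀ (by norm_num) h1 N
  have h5 : (5 : ℝ) ≤ 5 ^ N := le_self_pow₀ (by norm_num) (by omega)
  have h6 : (80 : ℝ) ^ N ≤ 81 ^ N := pow_le_pow_left₀ (by norm_num) (by norm_num) N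
  have h7 : (80 : ℝ) ^ N = 5 ^ N * 16 ^ N := by rw [← mul_pow]; norm_num
  have h8 : (0 : ℝ) < 16 ^ N := by positivity
  nlinarith

theorem main_cover {X I : Type} [Fintype X] [Fintype I] (G : I → X → Prop) (b : ℝ)
    (hcov : ∀ x, ∃ i, G i x) (hb : ∀ i, (cnt (G i) : ℝ) ≤ b) :
    (Fintype.card X : ℝ) ≤ Fintype.card I * b := by
  classical
  have h1 : (univ : Finset X) ⊆ (univ : Finset I).biUnion (fun i => univ.filter (G i)) := by
    intro x _
    obtain ⟨i, hi⟩ := hcov x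
    simp only [Finset.mem_biUnion, Finset.mem_univ, true_and, Finset.mem_filter]
    exact ⟨i, hi⟩
  have h2 := (Finset.card_le_card h1).trans Finset.card_biUnion_le
  have h3 : (Fintype.card X : ℝ) ≤ ∑ i : I, (cnt (G i) : ℝ) := by
    simp only [cnt_eq]
    exact_mod_cast h2
  refine h3.trans ((Finset.sum_le_sum fun i _ => hb i).trans ?_)
  simp

theorem main (k : ℕ) : ∃ c p₀ : ℕ, ∀ (p : ℕ) [Fact p.Prime], p₀ ≤ p →
    ∀ (N : ℕ) (S : Type) [Fintype S] (B : NBP ((Fin N ⊕ Fin (4 * N + 1)) × ZMod p) S),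
      Computes B (Hard p N) → Light B k → 2 ^ N ≤ (p * Fintype.card S) ^ c := by
  obtain ⟨r, c, D₀, N₀, hc, hcore⟩ := core (12 * k + 1) (by omega)
  refine ⟨(r + 2) * ⌈1 / c⌉₊ + (N₀ + 1), D₀ + 5, ?_⟩
  intro p _ hp N S _ B hB hk
  have hS : 1 ≤ Fintype.card S := Fintype.card_pos_iff.mpr ⟨B.start⟩
  have hps : 2 ≤ p * Fintype.card S := le_trans (by omega) (Nat.le_mul_of_pos_right p hS)
  by_cases hN : N ≤ N₀
  · calc 2 ^ N ≤ 2 ^ ((r + 2) * ⌈1 / c⌉₊ + (N₀ + 1)) := Nat.pow_le_pow_right (by norm_num) (by omega)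
      _ ≤ _ := Nat.pow_le_pow_left hps _
  push Not at hN
  have hp0 : (0 : ℝ) < p := by exact_mod_cast (by omega : 0 < p)
  obtain ⟨y, hy⟩ := algebra p N (by omega)
  choose L hL1 hL2 hL3 using fun v : ZMod p =>
    cut p N k r (by omega) B hB hk (Function.update y (Fin.last (4 * N)) v)
  have hsmall : ∀ i : ZMod p × (Fin (r + 2) → S),
      (cnt (fun x : Fin N → ZMod p => ∀ j, ∃ F ∈ L i.1 i.2 j, Sat F x) : ℝ) ≤
        (p : ℝ) ^ N * Real.exp (-(c * N)) := by
    rintro ⟨v, σ⟩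
    by_contra hcon
    push Not at hcon
    have h1 := hcore (Fin N) (ZMod p) (by simp; omega) (by simp; omega) (L v σ) (by
      intro j F hF
      refine (hL1 v σ j F hF).trans ?_
      simp only [Fintype.card_fin, ZMod.card]
      apply mul_le_mul_of_nonneg_right _ hp0.le
      push_cast
      have : (12 * k * N : ℝ) / (r + 1) ≤ (12 * k + 1) * N / (r + 1) := by
        apply div_le_div_of_nonneg_right _ (by positivity)
        have : (0 : ℝ) ≤ N := Nat.cast_nonneg _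
        linarith
      linarith) (by
      simp only [Fintype.card_fin, ZMod.card]
      exact hcon.le)
    obtain ⟨ρ, hρ⟩ := h1
    simp only [Fintype.card_fin, ZMod.card] at hρ
    have h2 := hy v ρ _ (Real.exp_pos _).le (hρ.mono fun x hx => by
      have := hL2 v σ x hx
      rwa [quart_update, Function.update_self] at this)
    exact absurd h2 (not_le.mpr (main_exp N ρ (by omega) p hp0))
  have h3 := main_cover (fun (i : ZMod p × (Fin (r + 2) → S)) (x : Fin N → ZMod p) =>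
    ∀ j, ∃ F ∈ L i.1 i.2 j, Sat F x) _ (fun x => by
      obtain ⟨σ, hσ⟩ := hL3 (quart p N x y) x (by rw [quart_update, Function.update_self])
      exact ⟨(quart p N x y, σ), hσ⟩) hsmall
  simp only [Fintype.card_fun, Fintype.card_fin, ZMod.card, Fintype.card_prod] at h3
  push_cast at h3
  have hpN : (0 : ℝ) < (p : ℝ) ^ N := by positivity
  have h4 : Real.exp (c * N) ≤ (p : ℝ) * (Fintype.card S : ℝ) ^ (r + 2) := by
    rw [Real.exp_neg] at h3
    have h5 : (1 : ℝ) ≤ (p : ℝ) * (Fintype.card S : ℝ) ^ (r + 2) * (Real.exp (c * N))⁻¹ := by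
      apply le_of_mul_le_mul_left _ hpN
      linarith
    rwa [← div_eq_mul_inv, one_le_div (Real.exp_pos _)] at h5
  have hp1 : (1 : ℝ) ≤ p := by exact_mod_cast (by omega : 1 ≤ p)
  have h6 : (p : ℝ) * (Fintype.card S : ℝ) ^ (r + 2) ≤ ((p : ℝ) * Fintype.card S) ^ (r + 2) := by
    rw [mul_pow]
    exact mul_le_mul_of_nonneg_right (le_self_pow₀ hp1 (by omega)) (by positivity)
  have h7 : (2 : ℝ) ^ N ≤ Real.exp (c * N) ^ ⌈1 / c⌉₊ := by
    rw [← Real.exp_nat_mul]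
    have a1 : (2 : ℝ) ^ N ≤ Real.exp 1 ^ N :=
      pow_le_pow_left₀ (by norm_num) (by linarith [Real.add_one_le_exp (1 : ℝ)]) N
    rw [← Real.exp_nat_mul] at a1
    refine a1.trans (Real.exp_le_exp.mpr ?_)
    have a2 : 1 / c ≤ ⌈1 / c⌉₊ := Nat.le_ceil _
    rw [div_le_iff₀ hc] at a2
    have : (0 : ℝ) ≤ N := Nat.cast_nonneg _
    nlinarith
  have h8 : (2 : ℝ) ^ N ≤ ((p : ℝ) * Fintype.card S) ^ ((r + 2) * ⌈1 / c⌉₊) := by
    rw [pow_mul]
    exact h7.trans (pow_le_pow_left₀ (Real.exp_pos _).le (h4.trans h6) _)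
  have h9 : 2 ^ N ≤ (p * Fintype.card S) ^ ((r + 2) * ⌈1 / c⌉₊) := by exact_mod_cast h8
  exact h9.trans (Nat.pow_le_pow_right (by omega) (by omega))

end Pool.Agent.Work.MP_807b32_lc.Sem
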