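import Pool.Agent.Work.MP_807b32_lc.Sem.Base

/-!
Choosing one box for every row, and the resulting cylinder intersection.

Plan.
* `select_one`: for a row `ρ` attained on `E`, let `G γ` be the sum of `w x` over the points of
  the row with `a x = γ`, and choose `s ρ = a x*` with `x*` in the row maximising `G (a x)`. The
  left side restricted to the row is `∑ x in row, G (a x) / card row` (double counting), at most
  `G (s ρ)`. For rows not attained take `a x₀`.
* `select_all`: induction on the finite set `Js`, generalising the weight `w`: apply the induction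
  hypothesis to the weight `w x * p j x`, then `select_one` for `j` with the weight
  `if (all earlier matches) then w x else 0`, and update `s` at `j`.
* `exp_avg_le`: `exp (y) ≥ exp (m) * (1 + y - m)` (`Real.add_one_le_exp`), summed.
* `cyl_of_class`: `U = S₁ ∪ S₂ ∪ S₃ ∪ S₄`, `e = x₀`, `s` from `select_all` with `Js = univ`,
  `w = 1`. With `m z = U.piecewise z e` put
  `F₁ z = ∀ j ∉ I, ∀ i ∉ S₁, m z i ∉ s j (row j (m z)) i`,
  `F₂ z = ∀ j ∉ I, ∀ i ∈ S₁, ...`, `F₃ z = ∀ j ∈ I, ∀ i ∉ S₃, ...`, `F₄ z = ∀ j ∈ I, ∀ i ∈ S₃, ...`.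
  The matched points `x ∈ E` number at least `E.card * exp (- average)`; each gives the
  `D ^ (N - U.card)` points `z` equal to `x` on `U` (then `m z = x`), and these fibres are
  disjoint (`count_fibres`).
-/

namespace Pool.Agent.Work.MP_807b32_lc.Sem

open Finset

theorem select_one {X R Γ : Type} [DecidableEq Γ] (E : Finset X) (hE : E.Nonempty) (row : X → R)
    (a : X → Γ) (w : X → ℝ) (hw : ∀ x ∈ E, 0 ≤ w x) :
    ∃ s : R → Γ, (∀ ρ, ∃ x ∈ E, s ρ = a x) ∧
      ∑ x ∈ E, w x * ((cls E (fun y => (row y, a y)) x : ℝ) / cls E row x) ≤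
        ∑ x ∈ E, if a x = s (row x) then w x else 0 := by
  classical
  have _ := hw
  let G : R → Γ → ℝ := fun ρ γ => ∑ x ∈ E, if row x = ρ ∧ a x = γ then w x else 0
  choose m hm hG using fun ρ => exists_max_image E (fun x => G ρ (a x)) hE
  refine ⟨fun ρ => a (m ρ), fun ρ => ⟨m ρ, hm ρ, rfl⟩, ?_⟩
  have e1 : ∑ x ∈ E, w x * ((cls E (fun y => (row y, a y)) x : ℝ) / cls E row x) =
      ∑ y ∈ E, G (row y) (a y) / cls E row y := by
    simp only [G, sum_div]
    rw [sum_comm]
    refine sum_congr rfl fun x _ => ?_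
    rw [cls_eq E (fun y => (row y, a y)), card_filter, Nat.cast_sum, sum_div, mul_sum]
    refine sum_congr rfl fun y _ => ?_
    by_cases h : row x = row y ∧ a x = a y
    · rw [if_pos h, if_pos (Prod.ext h.1.symm h.2.symm), cls_eq_of_eq h.1, Nat.cast_one,
        mul_one_div]
    · rw [if_neg h, if_neg fun k => h ⟨(congrArg Prod.fst k).symm, (congrArg Prod.snd k).symm⟩]
      simp
  have e2 : ∑ y ∈ E, G (row y) (a (m (row y))) / cls E row y =
      ∑ x ∈ E, if a x = a (m (row x)) then w x else 0 := by
    simp only [G, sum_div]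
    rw [sum_comm]
    refine sum_congr rfl fun x hx => ?_
    have h0 : (cls E row x : ℝ) ≠ 0 := Nat.cast_ne_zero.2 (cls_pos row hx).ne'
    rw [← mul_div_cancel_right₀ (if a x = a (m (row x)) then w x else 0) h0]
    nth_rewrite 1 [cls_eq E row x]
    rw [card_filter, Nat.cast_sum, mul_sum, sum_div]
    refine sum_congr rfl fun y _ => ?_
    by_cases h : row y = row x
    · simp [h, cls_eq_of_eq h]
    · simp [h, Ne.symm h]
  rw [e1, ← e2]
  exact sum_le_sum fun y hy => div_le_div_of_nonneg_right (hG _ y hy) (Nat.cast_nonneg _)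

theorem select_all {X J R Γ : Type} [DecidableEq J] [DecidableEq Γ] (E : Finset X)
    (hE : E.Nonempty) (row : J → X → R) (a : J → X → Γ) (Js : Finset J) (w : X → ℝ)
    (hw : ∀ x ∈ E, 0 ≤ w x) :
    ∃ s : J → R → Γ, (∀ j ρ, ∃ x ∈ E, s j ρ = a j x) ∧
      ∑ x ∈ E, w x * ∏ j ∈ Js, ((cls E (fun y => (row j y, a j y)) x : ℝ) / cls E (row j) x) ≤
        ∑ x ∈ E, if ∀ j ∈ Js, a j x = s j (row j x) then w x else 0 := by
  induction Js using Finset.induction_on generalizing w with
  | empty =>
    obtain ⟨x, hx⟩ := hE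
    exact ⟨fun j _ => a j x, fun j _ => ⟨x, hx, rfl⟩, by simp⟩
  | insert j Js hj ih =>
    obtain ⟨s, h1, h2⟩ := ih (fun x => w x *
      ((cls E (fun y => (row j y, a j y)) x : ℝ) / cls E (row j) x))
      fun x hx => mul_nonneg (hw x hx) (by positivity)
    obtain ⟨s1, h3, h4⟩ := select_one E hE (row j) (a j)
      (fun x => if ∀ j ∈ Js, a j x = s j (row j x) then w x else 0) fun x hx => by
        split_ifs
        exacts [hw x hx, le_rfl]
    refine ⟨Function.update s j s1, fun i ρ => ?_, ?_⟩
    · by_cases h : i = j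
      · subst h
        rw [Function.update_self]
        exact h3 ρ
      · rw [Function.update_of_ne h]
        exact h1 i ρ
    · simp only [prod_insert hj, ← mul_assoc]
      simp only [ite_mul, zero_mul] at h4
      refine (h2.trans h4).trans (le_of_eq (sum_congr rfl fun x _ => ?_))
      rw [← ite_and]
      refine if_congr ?_ rfl rfl
      rw [forall_mem_insert, Function.update_self]
      exact and_congr_right fun _ => forall₂_congr fun i hi => by
        rw [Function.update_of_ne (ne_of_mem_of_not_mem hi hj)]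

theorem exp_avg_le {X : Type} (E : Finset X) (f : X → ℝ) (m : ℝ)
    (h : (E.card : ℝ) * m ≤ ∑ x ∈ E, f x) :
    (E.card : ℝ) * Real.exp m ≤ ∑ x ∈ E, Real.exp (f x) := by
  have h1 : ∀ x ∈ E, Real.exp m * (f x - m + 1) ≤ Real.exp (f x) := fun x _ => by
    have := mul_le_mul_of_nonneg_left (Real.add_one_le_exp (f x - m)) (Real.exp_pos m).le
    rwa [← Real.exp_add, add_sub_cancel] at this
  refine le_trans ?_ (sum_le_sum h1)
  rw [← mul_sum, sum_add_distrib, sum_sub_distrib, sum_const, sum_const, nsmul_eq_mul,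
    nsmul_eq_mul, mul_comm]
  exact mul_le_mul_of_nonneg_left (by linarith) (Real.exp_pos m).le

theorem count_fibres {ι A : Type} [Fintype ι] [DecidableEq ι] [Fintype A] (U : Finset ι)
    (e : ι → A) (Z : Finset (ι → A)) (hZ : ∀ x ∈ Z, ∀ i, i ∉ U → x i = e i)
    (P : (ι → A) → Prop) (hP : ∀ z, U.piecewise z e ∈ Z → P z) :
    Z.card * Fintype.card A ^ Fintype.card ι ≤ cnt P * Fintype.card A ^ U.card := by
  classical
  have h := card_le_card_of_injOn (s := Z ×ˢ (univ : Finset (ι → A)))
    (t := univ.filter P ×ˢ (univ : Finset (U → A)))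
    (fun q => (U.piecewise q.1 q.2, fun i : U => q.2 i)) (fun q hq => by
      have hq1 := (mem_product.1 hq).1
      refine mem_product.2 ⟨mem_filter.2 ⟨mem_univ _, hP _ ?_⟩, mem_univ _⟩
      have : U.piecewise (U.piecewise q.1 q.2) e = q.1 := by
        funext i
        by_cases hi : i ∈ U
        · simp [hi]
        · simp [hi, hZ _ hq1 i hi]
      exact this.symm ▸ hq1) (fun q hq q' hq' h => by
      have h1 := congrArg Prod.fst h
      have h2 := congrArg Prod.snd h
      refine Prod.ext (funext fun i => ?_) (funext fun i => ?_)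
      · by_cases hi : i ∈ U
        · simpa [hi] using congrFun h1 i
        · rw [hZ _ (mem_product.1 hq).1 i hi, hZ _ (mem_product.1 hq').1 i hi]
      · by_cases hi : i ∈ U
        · exact congrFun h2 ⟨i, hi⟩
        · simpa [hi] using congrFun h1 i)
  rwa [card_product, card_product, card_univ, card_univ, Fintype.card_fun, Fintype.card_fun,
    Fintype.card_coe, ← cnt_eq] at h

end Pool.Agent.Work.MP_807b32_lc.Sem
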