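import Pool.Agent.Work.MP_807b32_lc.Sem.Defs
import Pool.Agent.Work.MP_807b32_lc.Sem.Base

/-!
From a light branching program to families of boxes.

Plan.
* `walk_append`: induction on the first walk.
* `walk_split`: induction on the walk generalising `W₀`; if `W₀ ≤ 0` take the first part empty,
  otherwise keep the first edge and use the induction hypothesis with `W₀ - wt e`.
* `walk_cut`: induction on `r` with `walk_split` and `Fin.cons`; for `r = 0` the whole walk has
  weight at most `W₀`.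
* `walk_glue`: induction on `r` with `walk_append`.
* `cut`: weight `wt none = 0`, `wt (some (_, true)) = 1`, `wt (some (_, false)) = 1 / p`.
  The box of a label list `w` is
  `box w a = univ.filter (fun s => (∃ s', s' ≠ s ∧ some ((inl a, s'), true) ∈ w) ∨
  some ((inl a, s), false) ∈ w)`; `∑ a, (box w a).card ≤ p * weight w` by induction on `w`.
  `enc x y (inl a, s) = decide (x a = s)`, `enc x y (inr m, s) = decide (y m = s)`; it has
  `5 N + 1` ones, and `Hard (enc x y) ↔ quart x y = y last`.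
  `L σ j` is empty unless `σ 0 = start` and `σ (last) ∈ accept`; then it is the set of `box w` for
  walks `w` from `σ j.castSucc` to `σ j.succ` of weight at most `12 k N / (r+1) + 1` all of whose
  tests `((inr m, s), c)` satisfy `decide (y m = s) = c`. A point `x` with `Sat (box w) x` passes
  all tests of `w` on the blocks `inl a`. The total weight of a light run is at most
  `k (5N+1) + k p (5N+1) / p ≤ 12 k N`.
-/

namespace Pool.Agent.Work.MP_807b32_lc.Sem

open Finset

theorem walk_append {V S : Type} {B : NBP V S} {s t u : S} {w w' : List (Option (V × Bool))}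
    (h : Walk B s w t) (h' : Walk B t w' u) : Walk B s (w ++ w') u := by
  induction h with
  | nil => exact h'
  | cons he _ ih => exact Walk.cons he (ih h')

theorem walk_split {V S : Type} {B : NBP V S} (wt : Option (V × Bool) → ℝ)
    (hw0 : ∀ e, 0 ≤ wt e) (hw1 : ∀ e, wt e ≤ 1) {s t : S} {w : List (Option (V × Bool))}
    (h : Walk B s w t) (W₀ : ℝ) (hW : 0 ≤ W₀ + 1) :
    ∃ (m : S) (w₁ w₂ : List (Option (V × Bool))), w = w₁ ++ w₂ ∧ Walk B s w₁ m ∧ Walk B m w₂ t ∧
      (w₁.map wt).sum ≤ W₀ + 1 ∧ (w₂ = [] ∨ W₀ ≤ (w₁.map wt).sum) := by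
  induction h generalizing W₀ with
  | nil s => exact ⟨s, [], [], rfl, Walk.nil s, Walk.nil s, by simpa using hW, Or.inl rfl⟩
  | @cons s s' t e run he hw ih =>
    by_cases h0 : W₀ ≤ 0
    · exact ⟨s, [], _, rfl, Walk.nil s, Walk.cons he hw, by simpa using hW,
        Or.inr (by simpa using h0)⟩
    · have := hw1 e
      obtain ⟨m, w₁, w₂, rfl, h1, h2, h3, h4⟩ := ih (W₀ - wt e) (by linarith)
      refine ⟨m, e :: w₁, w₂, rfl, Walk.cons he h1, h2, ?_, h4.imp_right fun h4 => ?_⟩ <;>
        rw [List.map_cons, List.sum_cons] <;> linarith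

theorem walk_cut {V S : Type} {B : NBP V S} (wt : Option (V × Bool) → ℝ)
    (hw0 : ∀ e, 0 ≤ wt e) (hw1 : ∀ e, wt e ≤ 1) (W₀ : ℝ) (hW : 0 ≤ W₀) (r : ℕ) {s t : S}
    {w : List (Option (V × Bool))} (h : Walk B s w t) (hr : (w.map wt).sum ≤ (r + 1) * W₀) :
    ∃ (σ : Fin (r + 2) → S) (seg : Fin (r + 1) → List (Option (V × Bool))),
      σ 0 = s ∧ σ (Fin.last (r + 1)) = t ∧ ∀ j, Walk B (σ j.castSucc) (seg j) (σ j.succ) ∧
        ((seg j).map wt).sum ≤ W₀ + 1 ∧ ∀ e ∈ seg j, e ∈ w := by
  induction r generalizing s w with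
  | zero =>
    refine ⟨![s, t], fun _ => w, rfl, rfl, fun j => ?_⟩
    obtain rfl : j = 0 := Subsingleton.elim (α := Fin 1) _ _
    refine ⟨h, ?_, fun _ he => he⟩
    push_cast at hr
    linarith
  | succ r ih =>
    obtain ⟨m, w₁, w₂, rfl, h1, h2, h3, h4⟩ := walk_split wt hw0 hw1 h W₀ (by linarith)
    obtain ⟨σ, seg, rfl, h6, h7⟩ := ih h2 (by
      rcases h4 with rfl | h4
      · rw [List.map_nil, List.sum_nil]
        positivity
      · rw [List.map_append, List.sum_append] at hr
        push_cast at hr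
        linarith)
    refine ⟨Fin.cons s σ, Fin.cons w₁ seg, rfl, h6, fun j => ?_⟩
    refine Fin.cases ⟨h1, h3, fun e he => List.mem_append_left _ he⟩ (fun i => ?_) j
    exact ⟨(h7 i).1, (h7 i).2.1, fun e he => List.mem_append_right _ ((h7 i).2.2 e he)⟩

theorem walk_glue {V S : Type} {B : NBP V S} (r : ℕ) (σ : Fin (r + 1) → S)
    (seg : Fin r → List (Option (V × Bool)))
    (h : ∀ j, Walk B (σ j.castSucc) (seg j) (σ j.succ)) :
    ∃ w, Walk B (σ 0) w (σ (Fin.last r)) ∧ ∀ e ∈ w, ∃ j, e ∈ seg j := by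
  induction r with
  | zero => exact ⟨[], Walk.nil _, by simp⟩
  | succ r ih =>
    obtain ⟨w, h1, h2⟩ := ih (fun j => σ j.succ) (fun j => seg j.succ) fun j => h j.succ
    refine ⟨seg 0 ++ w, walk_append (h 0) h1, fun e he => ?_⟩
    rcases List.mem_append.1 he with he | he
    · exact ⟨0, he⟩
    · obtain ⟨j, hj⟩ := h2 e he
      exact ⟨_, hj⟩

end Pool.Agent.Work.MP_807b32_lc.Sem
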